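import Pool.Agent.Helper460.FlowFinal

set_option autoImplicit false
set_option linter.unusedSectionVars false

namespace Pool.Agent.Helper460.Flow

open IntermediateField

section Ext

lemma algHom_ext_adjoin {K K' : Type*} [Field K] [Field K'] [Algebra ℂ K] [Algebra ℂ K']
    {S : Set K} (hS : adjoin ℂ S = ⊤) (F G : K →ₐ[ℂ] K') (h : ∀ x ∈ S, F x = G x) : F = G := by
  apply AlgHom.ext
  intro z
  have hz : z ∈ adjoin ℂ S := by rw [hS]; trivial
  induction hz using adjoin_induction with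
  | mem x hx => exact h x hx
  | algebraMap r => rw [AlgHom.commutes, AlgHom.commutes]
  | add x y _ _ hx hy => rw [map_add, map_add, hx, hy]
  | inv x _ hx => rw [map_inv₀, map_inv₀, hx]
  | mul x y _ _ hx hy => rw [map_mul, map_mul, hx, hy]

lemma adjoin_over_top {K : Type*} [Field K] [Algebra ℂ K] (M : IntermediateField ℂ K) (S : Set K)
    (hgen : adjoin ℂ ((M : Set K) ∪ S) = ⊤) : (adjoin M S : IntermediateField M K) = ⊤ := by
  rw [eq_top_iff]
  intro f _
  have h2 : adjoin ℂ ((M : Set K) ∪ S) ≤ (adjoin M S : IntermediateField M K).restrictScalars ℂ := by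
    rw [adjoin_le_iff]
    rintro z (hz | hz)
    · exact (adjoin M S : IntermediateField M K).algebraMap_mem ⟨z, hz⟩
    · exact subset_adjoin M S hz
  exact h2 (by rw [hgen]; trivial)

theorem extend_hom {K K' : Type} [Field K] [Field K'] [Algebra ℂ K] [Algebra ℂ K'] {ι : Type}
    (M : IntermediateField ℂ K) (y : ι → K) (hy : AlgebraicIndependent M y)
    (hgen : adjoin ℂ ((M : Set K) ∪ Set.range y) = ⊤) (f : M →ₐ[ℂ] K') (y' : ι → K')
    (hinj : Function.Injective (MvPolynomial.eval₂Hom (f : M →+* K') y')) :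
    ∃ F : K →ₐ[ℂ] K', (∀ m : M, F m = f m) ∧ ∀ i, F (y i) = y' i := by
  have htop := adjoin_over_top M (Set.range y) hgen
  let A := MvPolynomial ι M
  let a : A →+* K := (MvPolynomial.aeval y : MvPolynomial ι M →ₐ[M] K).toRingHom
  have ha : Function.Injective a := hy
  let _ : Algebra A K := a.toAlgebra
  have haK : ∀ p : A, algebraMap A K p = MvPolynomial.aeval y p := fun _ => rfl
  have : FaithfulSMul A K := (faithfulSMul_iff_algebraMap_injective A K).mpr ha
  have : IsFractionRing A K := by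
    apply IsFractionRing.of_field
    intro z
    have hz : z ∈ (adjoin M (Set.range y) : IntermediateField M K) := by rw [htop]; trivial
    obtain ⟨r, t, hrt⟩ := (mem_adjoin_range_iff M y z).mp hz
    exact ⟨r, t, by rw [haK, haK]; exact hrt⟩
  let F₀ : K →+* K' := IsFractionRing.lift hinj
  have hF₀ : ∀ p : A, F₀ (algebraMap A K p) = MvPolynomial.eval₂Hom (f : M →+* K') y' p := by
    intro p
    exact IsFractionRing.lift_algebraMap hinj p
  have hM : ∀ m : M, F₀ m = f m := by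
    intro m
    have := hF₀ (MvPolynomial.C m)
    rw [haK, MvPolynomial.coe_eval₂Hom, MvPolynomial.eval₂_C, MvPolynomial.aeval_C] at this
    exact this
  refine ⟨{ F₀ with commutes' := ?_ }, ?_, ?_⟩
  · intro r
    have h1 : algebraMap ℂ K r = ((algebraMap ℂ M r : M) : K) := rfl
    show F₀ (algebraMap ℂ K r) = _
    rw [h1, hM, AlgHom.commutes]
  · exact hM
  · intro i
    have := hF₀ (MvPolynomial.X i)
    rw [haK, MvPolynomial.coe_eval₂Hom, MvPolynomial.eval₂_X, MvPolynomial.aeval_X] at this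
    exact this

lemma descend' {F K : Type*} [Field F] [Field K] [Algebra F K] {M M' : IntermediateField F K}
    {s : K} (hMM : M ≤ M') (hs : Transcendental M' s) (S : Set K) (hS : S ⊆ M)
    (hgen : M' ≤ adjoin F (S ∪ {s})) : M' ≤ M := by
  intro f hf
  have h1 : f ∈ (adjoin M {s} : IntermediateField M K) := by
    have h2 : adjoin F (S ∪ {s}) ≤ (adjoin M {s} : IntermediateField M K).restrictScalars F := by
      rw [adjoin_le_iff]
      rintro z (hz | hz)
      · exact (adjoin M {s} : IntermediateField M K).algebraMap_mem ⟨z, hS hz⟩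
      · exact subset_adjoin M {s} hz
    exact h2 (hgen hf)
  obtain ⟨a, b, hab⟩ := (mem_adjoin_simple_iff M f).mp h1
  by_cases hb : Polynomial.aeval s b = 0
  · rw [hb, div_zero] at hab; rw [hab]; exact M.zero_mem
  have hb0 : b ≠ 0 := by rintro rfl; simp at hb
  rw [eq_div_iff hb] at hab
  -- polynomial over M'
  let i : M →+* M' := (inclusion hMM : M →ₐ[F] M')
  have hi : ∀ p : Polynomial M, Polynomial.aeval s (p.map i) = Polynomial.aeval s p := by
    intro p
    rw [Polynomial.aeval_def, Polynomial.aeval_def, Polynomial.eval₂_map]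
    rfl
  have hz : Polynomial.aeval s (Polynomial.C (⟨f, hf⟩ : M') * b.map i - a.map i) = 0 := by
    rw [map_sub, map_mul, Polynomial.aeval_C, hi, hi, ← hab]
    exact sub_self _
  have hz2 : Polynomial.C (⟨f, hf⟩ : M') * b.map i - a.map i = 0 := by
    by_contra hne
    exact hs ⟨_, hne, hz⟩
  obtain ⟨j, hj⟩ : ∃ j, b.coeff j ≠ 0 := by
    by_contra hcon
    push Not at hcon
    exact hb0 (Polynomial.ext (by simpa using hcon))
  have h3 := congrArg (fun p => ((p.coeff j : M') : K)) hz2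
  simp only [Polynomial.coeff_sub, Polynomial.coeff_C_mul, Polynomial.coeff_map,
    Polynomial.coeff_zero] at h3
  have h4 : f * (b.coeff j : K) - (a.coeff j : K) = 0 := h3
  have h5 : (b.coeff j : K) ≠ 0 := by simpa using hj
  have h6 : f = (a.coeff j : K) / (b.coeff j : K) := by
    rw [eq_div_iff h5]; exact sub_eq_zero.mp h4
  rw [h6]
  exact M.div_mem (a.coeff j).2 (b.coeff j).2

end Ext

section Equivalence

variable {K : Type} [Field K] [Algebra ℂ K] (σ σ' : K →ₐ[ℂ] K) (τ : ℂˣ → K →ₐ[ℂ] K)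

lemma fix_adjoin_L0 (z : K) (hz : σ z = z) (m : Algebra.adjoin (L0 σ τ) {z}) :
    σ (m : K) = m := by
  obtain ⟨m, hm⟩ := m
  induction hm using Algebra.adjoin_induction with
  | mem x hx => rw [Set.mem_singleton_iff] at hx; subst hx; exact hz
  | algebraMap r => exact r.2.1
  | add x y _ _ hx hy => simp only at *; rw [map_add, hx, hy]
  | mul x y _ _ hx hy => simp only at *; rw [map_mul, hx, hy]

lemma indep_one {s : K} (hs : σ s = s + 1) :
    AlgebraicIndependent (L0 σ τ) (fun _ : Unit => s) := by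
  rw [algebraicIndependent_unique_type_iff]
  exact transc_s σ (algebraMap (L0 σ τ) K).injective (fun m => m.2.1) hs

lemma indep_two {q s : K} {N : ℕ} (hN : N ≠ 0) (hq0 : q ≠ 0)
    (hq : q ∈ Hd σ τ N) (hs : σ s = s + 1) :
    AlgebraicIndependent (L0 σ τ) (fun o : Option Unit => o.elim s (fun _ => q)) := by
  rw [AlgebraicIndependent.option_iff]
  refine ⟨?_, ?_⟩
  · rw [algebraicIndependent_unique_type_iff]
    exact transc_hom τ (algebraMap (L0 σ τ) K).injective
      (fun m c => L0_le σ τ m.2 c) hq0 (by exact_mod_cast hN) hq.2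
  · rw [Set.range_const]
    exact transc_s σ Subtype.val_injective (fun m => fix_adjoin_L0 σ τ q hq.1 m) hs

lemma eval2_inj {M M' : IntermediateField ℂ K} (e : M ≃ₐ[ℂ] M') {ι : Type} (y : ι → K)
    (hy : AlgebraicIndependent M' y) :
    Function.Injective (MvPolynomial.eval₂Hom ((M'.val.comp (e : M →ₐ[ℂ] M') : M →ₐ[ℂ] K) : M →+* K)
      y) := by
  have h : (MvPolynomial.eval₂Hom ((M'.val.comp (e : M →ₐ[ℂ] M') : M →ₐ[ℂ] K) : M →+* K) y)
      = ((MvPolynomial.aeval y : MvPolynomial ι M' →ₐ[M'] K).toRingHom).comp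
        (MvPolynomial.map (e : M →+* M')) := by
    apply MvPolynomial.ringHom_ext
    · intro r
      simp
    · intro i
      simp
  rw [h]
  have hy' : Function.Injective (MvPolynomial.aeval y : MvPolynomial ι M' →ₐ[M'] K) := hy
  have he : Function.Injective (MvPolynomial.map (σ := ι) (e : M →+* M')) :=
    MvPolynomial.map_injective _ e.injective
  intro a b hab
  exact he (hy' hab)

/-- one-sided comparison map -/
lemma compare_hom (s s' q q' : K) (N : ℕ) (hs : σ s = s + 1) (hs' : σ' s' = s' + 1)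
    (hq0 : q ≠ 0) (hq : q ∈ Hd σ τ N) (hq1 : N = 0 → q = 1)
    (hq0' : q' ≠ 0) (hq' : q' ∈ Hd σ' τ N) (hq1' : N = 0 → q' = 1)
    (hgen : adjoin ℂ ((L0 σ τ : Set K) ∪ {q, s}) = ⊤)
    (e : L0 σ τ ≃ₐ[ℂ] L0 σ' τ) :
    ∃ F : K →ₐ[ℂ] K, (∀ m : L0 σ τ, F m = (e m : K)) ∧ F q = q' ∧ F s = s' := by
  by_cases hN : N = 0
  · have e1 := hq1 hN
    have e2 := hq1' hN
    subst e1 e2
    have hgen' : adjoin ℂ ((L0 σ τ : Set K) ∪ Set.range (fun _ : Unit => s)) = ⊤ := by
      rw [eq_top_iff, ← hgen, adjoin_le_iff]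
      rintro z (hz | rfl | rfl)
      · exact subset_adjoin _ _ (Or.inl hz)
      · exact one_mem _
      · exact subset_adjoin _ _ (Or.inr ⟨(), rfl⟩)
    obtain ⟨F, hF1, hF2⟩ := extend_hom (L0 σ τ) (fun _ : Unit => s) (indep_one σ τ hs) hgen'
      ((L0 σ' τ).val.comp (e : L0 σ τ →ₐ[ℂ] L0 σ' τ)) (fun _ : Unit => s')
      (eval2_inj e _ (indep_one σ' τ hs'))
    exact ⟨F, hF1, map_one F, hF2 ()⟩
  · have hgen' : adjoin ℂ ((L0 σ τ : Set K) ∪ Set.range
        (fun o : Option Unit => o.elim s (fun _ => q))) = ⊤ := by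
      rw [eq_top_iff, ← hgen, adjoin_le_iff]
      rintro z (hz | rfl | rfl)
      · exact subset_adjoin _ _ (Or.inl hz)
      · exact subset_adjoin _ _ (Or.inr ⟨some (), rfl⟩)
      · exact subset_adjoin _ _ (Or.inr ⟨none, rfl⟩)
    obtain ⟨F, hF1, hF2⟩ := extend_hom (L0 σ τ) _ (indep_two σ τ hN hq0 hq hs) hgen'
      ((L0 σ' τ).val.comp (e : L0 σ τ →ₐ[ℂ] L0 σ' τ))
      (fun o : Option Unit => o.elim s' (fun _ => q'))
      (eval2_inj e _ (indep_two σ' τ hN hq0' hq' hs'))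
    exact ⟨F, hF1, hF2 (some ()), hF2 none⟩

theorem equiv_of_data (s s' : K) (hs : σ s = s + 1)
    (hsτ : ∀ c, τ c s = (algebraMap ℂ K c) ^ (-1 : ℤ) * s)
    (hgen : adjoin ℂ ({s} ∪ ⋃ d, Hd σ τ d) = ⊤) (hs' : σ' s' = s' + 1)
    (hsτ' : ∀ c, τ c s' = (algebraMap ℂ K c) ^ (-1 : ℤ) * s')
    (hgen' : adjoin ℂ ({s'} ∪ ⋃ d, Hd σ' τ d) = ⊤)
    (hdeg : {d : ℤ | ∃ f ≠ 0, f ∈ Hd σ τ d} = {d : ℤ | ∃ f ≠ 0, f ∈ Hd σ' τ d})
    (e : L0 σ τ ≃ₐ[ℂ] L0 σ' τ) :
    ∃ θ : K ≃ₐ[ℂ] K, (∀ c z, θ (τ c z) = τ c (θ z)) ∧ ∀ z, θ (σ z) = σ' (θ z) := by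
  obtain ⟨N, q, hq0, hq, hq1, hdiv, hgq⟩ := exists_N' σ τ s hgen
  obtain ⟨N', q', hq0', hq', hq1', hdiv', hgq'⟩ := exists_N' σ' τ s' hgen'
  have hNN : N = N' := by
    have h1 : (N : ℤ) ∈ {d : ℤ | ∃ f ≠ 0, f ∈ Hd σ' τ d} := by
      rw [← hdeg]; exact ⟨q, hq0, hq⟩
    have h2 : (N' : ℤ) ∈ {d : ℤ | ∃ f ≠ 0, f ∈ Hd σ τ d} := by
      rw [hdeg]; exact ⟨q', hq0', hq'⟩
    obtain ⟨f, hf0, hf⟩ := h1
    obtain ⟨g, hg0, hg⟩ := h2
    have h3 := hdiv' _ f hf0 hf
    have h4 := hdiv _ g hg0 hg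
    exact Nat.dvd_antisymm (by exact_mod_cast h4) (by exact_mod_cast h3)
  subst hNN
  obtain ⟨F, hF1, hF2, hF3⟩ := compare_hom σ σ' τ s s' q q' N hs hs' hq0 hq hq1 hq0' hq' hq1' hgq e
  obtain ⟨G, hG1, hG2, hG3⟩ := compare_hom σ' σ τ s' s q' q N hs' hs hq0' hq' hq1' hq0 hq hq1
    hgq' e.symm
  have hGF : G.comp F = AlgHom.id ℂ K := by
    apply algHom_ext_adjoin hgq
    rintro z (hz | rfl | rfl)
    · have h1 := hF1 ⟨z, hz⟩
      have h2 := hG1 (e ⟨z, hz⟩)
      rw [AlgEquiv.symm_apply_apply] at h2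
      show G (F z) = z
      simp only at h1 h2
      rw [h1, h2]
    · show G (F z) = z
      rw [hF2, hG2]
    · show G (F z) = z
      rw [hF3, hG3]
  have hFG : F.comp G = AlgHom.id ℂ K := by
    apply algHom_ext_adjoin hgq'
    rintro z (hz | rfl | rfl)
    · have h1 := hG1 ⟨z, hz⟩
      have h2 := hF1 (e.symm ⟨z, hz⟩)
      rw [AlgEquiv.apply_symm_apply] at h2
      show F (G z) = z
      simp only at h1 h2
      rw [h1, h2]
    · show F (G z) = z
      rw [hG2, hF2]
    · show F (G z) = z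
      rw [hG3, hF3]
  refine ⟨AlgEquiv.ofAlgHom F G hFG hGF, ?_, ?_⟩
  · intro c
    have : F.comp (τ c) = (τ c).comp F := by
      apply algHom_ext_adjoin hgq
      rintro z (hz | rfl | rfl)
      · show F (τ c z) = τ c (F z)
        have h1 := hF1 ⟨z, hz⟩
        simp only at h1
        rw [L0_le σ τ hz c, h1]
        exact (L0_le σ' τ (e ⟨z, hz⟩).2 c).symm
      · show F (τ c z) = τ c (F z)
        rw [hq.2, map_mul, map_zpow₀, AlgHom.commutes, hF2, hq'.2]
      · show F (τ c z) = τ c (F z)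
        rw [hsτ, map_mul, map_zpow₀, AlgHom.commutes, hF3, hsτ']
    intro z
    exact congrArg (fun f => f z) this
  · have : F.comp σ = σ'.comp F := by
      apply algHom_ext_adjoin hgq
      rintro z (hz | rfl | rfl)
      · show F (σ z) = σ' (F z)
        have h1 := hF1 ⟨z, hz⟩
        have h2 : σ z = z := hz.1
        have h3 : σ' (e ⟨z, hz⟩ : K) = e ⟨z, hz⟩ := (e ⟨z, hz⟩).2.1
        simp only at h1
        rw [h2, h1, h3]
      · show F (σ z) = σ' (F z)
        rw [hq.1, hF2, hq'.1]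
      · show F (σ z) = σ' (F z)
        rw [hs, map_add, hF3, map_one, hs']
    intro z
    exact congrArg (fun f => f z) this

end Equivalence

end Pool.Agent.Helper460.Flow
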