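import Pool.Agent.Helper460.Cls1

set_option autoImplicit false
set_option linter.unusedSectionVars false

namespace Pool.Agent.Helper460.Flow

open IntermediateField

lemma equiv_of_range {A B K : Type} [Field A] [Field B] [Field K] [Algebra ℂ A] [Algebra ℂ B]
    [Algebra ℂ K] (f : A →ₐ[ℂ] K) (g : B →ₐ[ℂ] K) (h : f.range = g.range) :
    Nonempty (A ≃ₐ[ℂ] B) :=
  ⟨((AlgEquiv.ofInjective f f.injective).trans (Subalgebra.equivOfEq _ _ h)).trans
    (AlgEquiv.ofInjective g g.injective).symm⟩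

lemma indep_of_gen {M K : Type} [Field M] [Field K] [Algebra M K] {ι : Type} [Finite ι]
    (y y' : ι → K) (hy : AlgebraicIndependent M y) (hgen : adjoin M (Set.range y) = ⊤)
    (hgen' : adjoin M (Set.range y') = ⊤) : AlgebraicIndependent M y' := by
  have halg : ∀ y : ι → K, adjoin M (Set.range y) = ⊤ →
      Algebra.IsAlgebraic (Algebra.adjoin M (Set.range y)) K := by
    intro y hy
    refine ⟨fun f => ?_⟩
    have hf : f ∈ adjoin M (Set.range y) := by rw [hy]; trivial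
    obtain ⟨r, hr, t, ht, hrt⟩ := (mem_adjoin_iff_div).mp hf
    by_cases ht0 : t = 0
    · rw [hrt, ht0, div_zero]; exact isAlgebraic_zero
    refine ⟨Polynomial.C (⟨t, ht⟩ : Algebra.adjoin M (Set.range y)) * Polynomial.X
      - Polynomial.C ⟨r, hr⟩, ?_, ?_⟩
    · intro h0
      have := congrArg (fun p => ((p.coeff 1 : Algebra.adjoin M (Set.range y)) : K)) h0
      simp at this
      exact ht0 this
    · rw [map_sub, map_mul, Polynomial.aeval_C, Polynomial.aeval_C, Polynomial.aeval_X]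
      show t * f - r = 0
      rw [hrt, mul_div_cancel₀ _ ht0, sub_self]
  have h1 := halg y hgen
  have h2 := halg y' hgen'
  have hb : IsTranscendenceBasis M y := hy.isTranscendenceBasis_iff_isAlgebraic.mpr h1
  have hb' : IsTranscendenceBasis M y' := by
    apply Algebra.IsAlgebraic.isTranscendenceBasis_of_le_trdeg_of_finite
    rw [← hb.cardinalMk_eq_trdeg]
  exact hb'.1

section Structure

variable {n : ℕ} {K : Type} [Field K] [Algebra (MvPolynomial (Fin (n + 1)) ℂ) K]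
    [IsFractionRing (MvPolynomial (Fin (n + 1)) ℂ) K] [Algebra ℂ K]
    [IsScalarTower ℂ (MvPolynomial (Fin (n + 1)) ℂ) K]

variable (n K) in
/-- affine coordinates -/
noncomputable def uu (j : Fin n) : K := xx (n + 1) K j.castSucc / xx (n + 1) K (Fin.last n)

lemma xx_ne (i : Fin (n + 1)) : xx (n + 1) K i ≠ 0 := by
  rw [xx, Ne, FaithfulSMul.algebraMap_eq_zero_iff]; exact MvPolynomial.X_ne_zero i

lemma adjoin_uu : adjoin ℂ (Set.range (uu n K) ∪ {xx (n + 1) K (Fin.last n)}) = ⊤ := by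
  rw [eq_top_iff, ← adjoin_xx (k := n + 1), adjoin_le_iff]
  set T := adjoin ℂ (Set.range (uu n K) ∪ {xx (n + 1) K (Fin.last n)}) with hT
  have hw : xx (n + 1) K (Fin.last n) ∈ T := subset_adjoin _ _ (Or.inr rfl)
  rintro _ ⟨i, rfl⟩
  induction i using Fin.lastCases with
  | last => exact hw
  | cast j =>
    have : xx (n + 1) K j.castSucc = uu n K j * xx (n + 1) K (Fin.last n) := by
      rw [uu, div_mul_cancel₀ _ (xx_ne _)]
    rw [this]
    exact mul_mem (subset_adjoin _ _ (Or.inl ⟨j, rfl⟩)) hw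

lemma uu_indep : AlgebraicIndependent ℂ (uu n K) := by
  let y : Fin (n + 1) → K := Fin.snoc (α := fun _ => K) (uu n K) (xx (n + 1) K (Fin.last n))
  have hy : adjoin ℂ (Set.range y) = ⊤ := by
    rw [eq_top_iff, ← adjoin_uu (n := n) (K := K), adjoin_le_iff]
    rintro z (⟨j, rfl⟩ | rfl)
    · exact subset_adjoin _ _ ⟨j.castSucc, by simp [y]⟩
    · exact subset_adjoin _ _ ⟨Fin.last n, by simp [y]⟩
  obtain ⟨θ, hθ⟩ := theta_of_gen y hy
  have h1 : AlgebraicIndependent ℂ (xx (n + 1) K) :=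
    (IsFractionRing.injective (MvPolynomial (Fin (n + 1)) ℂ) K |> fun h => by
      have := (MvPolynomial.algebraicIndependent_X (Fin (n + 1)) ℂ)
      exact this.map' (f := IsScalarTower.toAlgHom ℂ (MvPolynomial (Fin (n + 1)) ℂ) K) h)
  have h2 : AlgebraicIndependent ℂ (fun i => θ (xx (n + 1) K i)) :=
    h1.map' (f := (θ : K →ₐ[ℂ] K)) θ.injective
  have h3 := h2.comp Fin.castSucc (Fin.castSucc_injective n)
  have h4 : uu n K = (fun i => θ (xx (n + 1) K i)) ∘ Fin.castSucc := by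
    funext j
    simp only [Function.comp_apply, hθ, y, Fin.snoc_castSucc]
  rw [h4]
  exact h3

variable (σ : K →ₐ[ℂ] K) (τ : ℂˣ → K →ₐ[ℂ] K)

lemma uu_mem (hx : ∀ i c, τ c (xx (n + 1) K i) = algebraMap ℂ K c * xx (n + 1) K i) (j : Fin n) :
    uu n K j ∈ Kτ τ := by
  intro c
  rw [uu, map_div₀, hx, hx, mul_div_mul_left _ _ (algebraMap_unit_ne c)]

lemma Ktau_eq (hx : ∀ i c, τ c (xx (n + 1) K i) = algebraMap ℂ K c * xx (n + 1) K i) :
    Kτ τ = adjoin ℂ (Set.range (uu n K)) := by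
  apply le_antisymm
  · refine descend (s := xx (n + 1) K (Fin.last n)) ?_ (ne_bot_three τ hx _)
      (Set.range (uu n K)) (subset_adjoin _ _) adjoin_uu
    rw [adjoin_le_iff]
    rintro _ ⟨j, rfl⟩
    exact uu_mem τ hx j
  · rw [adjoin_le_iff]
    rintro _ ⟨j, rfl⟩
    exact uu_mem τ hx j

variable {Z : Type} [Field Z] [Algebra (MvPolynomial (Fin n) ℂ) Z]
    [IsFractionRing (MvPolynomial (Fin n) ℂ) Z] [Algebra ℂ Z]
    [IsScalarTower ℂ (MvPolynomial (Fin n) ℂ) Z]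

variable (n K Z) in
lemma exists_Fu : ∃ F : Z →ₐ[ℂ] K, (∀ j, F (xx n Z j) = uu n K j) ∧
    F.fieldRange = adjoin ℂ (Set.range (uu n K)) := by
  have hinj : Function.Injective (MvPolynomial.aeval (uu n K) : MvPolynomial (Fin n) ℂ →ₐ[ℂ] K) :=
    uu_indep
  let F : Z →ₐ[ℂ] K := IsFractionRing.liftAlgHom hinj
  have hF : ∀ j, F (xx n Z j) = uu n K j := by
    intro j
    have : F (algebraMap _ Z (MvPolynomial.X j)) = MvPolynomial.aeval (uu n K) (MvPolynomial.X j) :=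
      IsFractionRing.lift_algebraMap (g := ((MvPolynomial.aeval (uu n K) :
        MvPolynomial (Fin n) ℂ →ₐ[ℂ] K) : MvPolynomial (Fin n) ℂ →+* K)) hinj _
    rw [MvPolynomial.aeval_X] at this
    exact this
  refine ⟨F, hF, ?_⟩
  apply le_antisymm
  · rintro _ ⟨z, rfl⟩
    have hz : z ∈ adjoin ℂ (Set.range (xx n Z)) := by rw [adjoin_xx]; trivial
    have h1 : F z ∈ (adjoin ℂ (Set.range (xx n Z))).map F := ⟨z, hz, rfl⟩
    rw [adjoin_map] at h1
    refine adjoin.mono ℂ _ _ ?_ h1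
    rintro _ ⟨_, ⟨j, rfl⟩, rfl⟩
    exact ⟨j, (hF j).symm⟩
  · rw [adjoin_le_iff]
    rintro _ ⟨j, rfl⟩
    exact ⟨_, hF j⟩

end Structure

section Tg

variable {K : Type} [Field K] [Algebra ℂ K] (σ : K →ₐ[ℂ] K) (τ : ℂˣ → K →ₐ[ℂ] K)

lemma transc_g {M : Type} [CommRing M] [Algebra M K]
    (hinj : Function.Injective (algebraMap M K)) (hM : ∀ m, σ (algebraMap M K m) = algebraMap M K m)
    {q s : K} {N : ℕ} (hN : N ≠ 0) (hq0 : q ≠ 0) (hq : σ q = q) (hs : σ s = s + 1) :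
    Transcendental M (q * s ^ N) := by
  have : CharZero K := charZero_of_injective_algebraMap (algebraMap ℂ K).injective
  have hsT : Transcendental ℂ s := transc_s σ (algebraMap ℂ K).injective (fun m => σ.commutes m) hs
  apply transc_of_family hinj _ (fun n => ((σ ^ n : K →ₐ[ℂ] K) : K →+* K))
  · intro n m
    exact sigma_pow_fix σ (hM m) n
  · intro a b hab
    have h1 : (σ ^ a) (q * s ^ N) = (σ ^ b) (q * s ^ N) := hab
    rw [map_mul, map_mul, map_pow, map_pow, sigma_pow σ hs, sigma_pow σ hs,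
      sigma_pow_fix σ hq, sigma_pow_fix σ hq] at h1
    have h2 := mul_left_cancel₀ hq0 h1
    have h3 : ((Polynomial.X + Polynomial.C (a : ℂ)) ^ N
        - (Polynomial.X + Polynomial.C (b : ℂ)) ^ N : Polynomial ℂ) = 0 := by
      by_contra hne
      apply hsT
      refine ⟨_, hne, ?_⟩
      simp [h2]
    have h4 := congrArg (Polynomial.eval (-(a : ℂ))) h3
    simp only [Polynomial.eval_sub, Polynomial.eval_pow, Polynomial.eval_add, Polynomial.eval_X,
      Polynomial.eval_C, neg_add_cancel, Polynomial.eval_zero, zero_pow hN, zero_sub,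
      neg_eq_zero] at h4
    have h5 := pow_eq_zero_iff hN |>.mp h4
    have h6 : (b : ℂ) = a := by linear_combination h5
    exact_mod_cast h6.symm

lemma Ktau_le (q s : K) (N : ℕ) (hs0 : s ≠ 0) (M : IntermediateField ℂ K)
    (hsτ : ∀ c, τ c s = (algebraMap ℂ K c) ^ (-1 : ℤ) * s)
    (hq : ∀ c, τ c q = (algebraMap ℂ K c) ^ (N : ℤ) * q) (hM : M ≤ Kτ τ)
    (hgen : adjoin ℂ ((M : Set K) ∪ {q, s}) = ⊤) :
    Kτ τ = adjoin ℂ ((M : Set K) ∪ {q * s ^ N}) := by
  have hgK : q * s ^ N ∈ Kτ τ := by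
    intro c
    have hc := algebraMap_unit_ne (K := K) c
    rw [map_mul, map_pow, hq, hsτ, mul_pow, zpow_neg_one, inv_pow, zpow_natCast]
    field_simp
  have hle : adjoin ℂ ((M : Set K) ∪ {q * s ^ N}) ≤ Kτ τ := by
    rw [adjoin_le_iff]
    rintro z (hz | rfl)
    · exact hM hz
    · exact hgK
  refine le_antisymm ?_ hle
  refine descend hle (transc_hom τ (algebraMap (Kτ τ) K).injective (fun m c => m.2 c) hs0
    (by norm_num) hsτ) ((M : Set K) ∪ {q * s ^ N}) (subset_adjoin _ _) ?_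
  rw [eq_top_iff, ← hgen, adjoin_le_iff]
  set T := adjoin ℂ ((M : Set K) ∪ {q * s ^ N} ∪ {s}) with hT
  have hsT : s ∈ T := subset_adjoin _ _ (Or.inr rfl)
  rintro z (hz | rfl | rfl)
  · exact subset_adjoin _ _ (Or.inl (Or.inl hz))
  · have : z = (z * s ^ N) * (s ^ N)⁻¹ := by
      rw [mul_inv_cancel_right₀ (pow_ne_zero _ hs0)]
    rw [this]
    exact mul_mem (subset_adjoin _ _ (Or.inl (Or.inr rfl))) (inv_mem (pow_mem hsT N))
  · exact hsT

/-- rational functions over `M` in a transcendental element -/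
lemma ratfunc_hom (M : IntermediateField ℂ K) (g : K) (hg : Transcendental M g) :
    ∃ F : RatFunc M →ₐ[ℂ] K, F.fieldRange = adjoin ℂ ((M : Set K) ∪ {g}) := by
  have hinj : Function.Injective (Polynomial.aeval g : Polynomial M →ₐ[M] K) :=
    transcendental_iff_injective.mp hg
  let φ : Polynomial M →ₐ[ℂ] K := (Polynomial.aeval g : Polynomial M →ₐ[M] K).restrictScalars ℂ
  have hφ : Function.Injective φ := hinj
  let F : RatFunc M →ₐ[ℂ] K := IsFractionRing.liftAlgHom hφ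
  have hF : ∀ p : Polynomial M, F (algebraMap _ (RatFunc M) p) = Polynomial.aeval g p := by
    intro p
    exact IsFractionRing.lift_algebraMap (g := (φ : Polynomial M →+* K)) hφ _
  refine ⟨F, ?_⟩
  apply le_antisymm
  · rintro _ ⟨z, rfl⟩
    obtain ⟨a, b, _, rfl⟩ := IsFractionRing.div_surjective (A := Polynomial M) z
    have hgT : g ∈ adjoin ℂ ((M : Set K) ∪ {g}) := subset_adjoin _ _ (Or.inr rfl)
    have hMT : ∀ m : M, (m : K) ∈ adjoin ℂ ((M : Set K) ∪ {g}) :=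
      fun m => subset_adjoin _ _ (Or.inl m.2)
    have key : ∀ p : Polynomial M, Polynomial.aeval g p ∈ adjoin ℂ ((M : Set K) ∪ {g}) := by
      intro p
      rw [Polynomial.aeval_eq_sum_range]
      refine sum_mem fun i _ => ?_
      rw [Algebra.smul_def]
      exact mul_mem (hMT _) (pow_mem hgT i)
    show F _ ∈ _
    rw [map_div₀, hF, hF]
    exact div_mem (key a) (key b)
  · rw [adjoin_le_iff]
    rintro z (hz | rfl)
    · refine ⟨algebraMap (Polynomial M) (RatFunc M) (Polynomial.C (⟨z, hz⟩ : M)), ?_⟩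
      show F _ = z
      rw [hF, Polynomial.aeval_C]; rfl
    · refine ⟨algebraMap (Polynomial M) (RatFunc M) Polynomial.X, ?_⟩
      show F _ = z
      rw [hF, Polynomial.aeval_X]

end Tg

section Part2

variable {n : ℕ} {K : Type} [Field K] [Algebra (MvPolynomial (Fin (n + 1)) ℂ) K]
    [IsFractionRing (MvPolynomial (Fin (n + 1)) ℂ) K] [Algebra ℂ K]
    [IsScalarTower ℂ (MvPolynomial (Fin (n + 1)) ℂ) K] (σ : K →ₐ[ℂ] K) (τ : ℂˣ → K →ₐ[ℂ] K)
    {Z : Type} [Field Z] [Algebra (MvPolynomial (Fin n) ℂ) Z]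
    [IsFractionRing (MvPolynomial (Fin n) ℂ) Z] [Algebra ℂ Z]
    [IsScalarTower ℂ (MvPolynomial (Fin n) ℂ) Z]

lemma range_eq_of_fieldRange {A B K : Type} [Field A] [Field B] [Field K] [Algebra ℂ A]
    [Algebra ℂ B] [Algebra ℂ K] (f : A →ₐ[ℂ] K) (g : B →ₐ[ℂ] K)
    (h : f.fieldRange = g.fieldRange) : f.range = g.range := by
  ext z
  have : z ∈ f.fieldRange ↔ z ∈ g.fieldRange := by rw [h]
  exact this

lemma fieldRange_val (M : IntermediateField ℂ K) : M.val.fieldRange = M := by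
  ext z
  constructor
  · rintro ⟨m, rfl⟩; exact m.2
  · intro hz; exact ⟨⟨z, hz⟩, rfl⟩

variable (Z) in
theorem part_two (hx : ∀ i c, τ c (xx (n + 1) K i) = algebraMap ℂ K c * xx (n + 1) K i) (s : K)
    (hs : σ s = s + 1) (hsτ : ∀ c, τ c s = (algebraMap ℂ K c) ^ (-1 : ℤ) * s)
    (hgen : adjoin ℂ ({s} ∪ ⋃ d, Hd σ τ d) = ⊤) :
    ({d : ℤ | ∃ f ≠ 0, f ∈ Hd σ τ d} = {0} ∧ Nonempty (L0 σ τ ≃ₐ[ℂ] Z)) ∨
    (∃ N : ℕ, 1 ≤ N ∧ {d : ℤ | ∃ f ≠ 0, f ∈ Hd σ τ d} = {d | (N : ℤ) ∣ d} ∧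
      Nonempty (RatFunc (L0 σ τ) ≃ₐ[ℂ] Z)) := by
  have hs0 : s ≠ 0 := by
    rintro rfl
    rw [map_zero, zero_add] at hs
    exact zero_ne_one hs
  obtain ⟨N, q, hq0, hq, hq1, hdiv, hgq⟩ := exists_N' σ τ s hgen
  obtain ⟨Fu, _, hFu⟩ := exists_Fu n K Z
  have hK := Ktau_le τ q s N hs0 (L0 σ τ) hsτ hq.2 (L0_le σ τ) hgq
  have hdeg : {d : ℤ | ∃ f ≠ 0, f ∈ Hd σ τ d} = {d | (N : ℤ) ∣ d} := by
    ext d
    constructor
    · rintro ⟨f, hf0, hf⟩
      exact hdiv d f hf0 hf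
    · rintro ⟨m, rfl⟩
      exact ⟨q ^ m, zpow_ne_zero _ hq0, by rw [mul_comm]; exact Hd_zpow σ τ hq m⟩
  by_cases hN : N = 0
  · left
    subst hN
    have := hq1 rfl
    subst this
    refine ⟨by rw [hdeg]; ext d; simp, ?_⟩
    apply equiv_of_range (L0 σ τ).val Fu
    apply range_eq_of_fieldRange
    rw [fieldRange_val, hFu, ← Ktau_eq τ hx, hK]
    apply le_antisymm
    · intro z hz
      exact subset_adjoin _ _ (Or.inl hz)
    · rw [adjoin_le_iff]
      rintro z (hz | rfl)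
      · exact hz
      · simp only [one_mul, pow_zero]
        exact one_mem _
  · right
    refine ⟨N, Nat.one_le_iff_ne_zero.mpr hN, hdeg, ?_⟩
    have hg := transc_g σ (algebraMap (L0 σ τ) K).injective (fun m => m.2.1) hN hq0 hq.1 hs
    obtain ⟨F, hF⟩ := ratfunc_hom (L0 σ τ) (q * s ^ N) hg
    apply equiv_of_range F Fu
    apply range_eq_of_fieldRange
    rw [hF, hFu, ← Ktau_eq τ hx, hK]

end Part2

end Pool.Agent.Helper460.Flow
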