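import Pool.Agent.Helper460.Cls2

set_option autoImplicit false
set_option linter.unusedSectionVars false

namespace Pool.Agent.Helper460.Flow

open IntermediateField

section Build

variable {K : Type} [Field K] [Algebra ℂ K] (τ : ℂˣ → K →ₐ[ℂ] K)

lemma adjoin_fix (M : IntermediateField ℂ K) (hM : M ≤ Kτ τ) (g : K) (hg : g ∈ Kτ τ)
    (m : Algebra.adjoin M {g}) (c : ℂˣ) : τ c (m : K) = m := by
  obtain ⟨m, hm⟩ := m
  induction hm using Algebra.adjoin_induction with
  | mem x hx => rw [Set.mem_singleton_iff] at hx; subst hx; exact hg c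
  | algebraMap r => exact hM r.2 c
  | add x y _ _ hx hy => simp only at *; rw [map_add, hx, hy]
  | mul x y _ _ hx hy => simp only at *; rw [map_mul, hx, hy]

lemma hgen_hom (σ : K →ₐ[ℂ] K) (M : IntermediateField ℂ K) (q s : K) (N : ℕ)
    (hM : M ≤ L0 σ τ) (hq : q ∈ Hd σ τ N) (hgen : adjoin ℂ ((M : Set K) ∪ {q, s}) = ⊤) :
    adjoin ℂ ({s} ∪ ⋃ d, Hd σ τ d) = ⊤ := by
  rw [eq_top_iff, ← hgen, adjoin_le_iff]
  rintro z (hz | rfl | rfl)
  · exact subset_adjoin _ _ (Or.inr (Set.mem_iUnion.mpr ⟨0, hM hz⟩))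
  · exact subset_adjoin _ _ (Or.inr (Set.mem_iUnion.mpr ⟨N, hq⟩))
  · exact subset_adjoin _ _ (Or.inl rfl)

/-- fixed field of sigma -/
def Kσ (σ : K →ₐ[ℂ] K) : IntermediateField ℂ K where
  carrier := {f | σ f = f}
  mul_mem' := fun {a b} ha hb => by
    show σ (a * b) = a * b
    rw [map_mul, show σ a = a from ha, show σ b = b from hb]
  add_mem' := fun {a b} ha hb => by
    show σ (a + b) = a + b
    rw [map_add, show σ a = a from ha, show σ b = b from hb]
  algebraMap_mem' := fun r => σ.commutes r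
  inv_mem' := fun f hf => by
    show σ f⁻¹ = f⁻¹
    rw [map_inv₀, show σ f = f from hf]

lemma divides (σ : K →ₐ[ℂ] K) (M : IntermediateField ℂ K) (q s : K) (N : ℕ) (hN : N ≠ 0)
    (hM : M ≤ L0 σ τ) (hq0 : q ≠ 0) (hq : q ∈ Hd σ τ N) (hs : σ s = s + 1)
    (hgen : adjoin ℂ ((M : Set K) ∪ {q, s}) = ⊤) (d : ℤ) (f : K) (hf0 : f ≠ 0)
    (hf : f ∈ Hd σ τ d) : (N : ℤ) ∣ d := by
  have : CharZero K := charZero_of_injective_algebraMap (algebraMap ℂ K).injective
  -- f lies in M(q)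
  have hle : adjoin ℂ ((M : Set K) ∪ {q}) ≤ Kσ σ := by
    rw [adjoin_le_iff]
    rintro z (hz | rfl)
    · exact (hM hz).1
    · exact hq.1
  have h1 : Kσ σ ≤ adjoin ℂ ((M : Set K) ∪ {q}) := by
    refine descend hle (transc_s σ (algebraMap (Kσ σ) K).injective (fun m => m.2) hs)
      ((M : Set K) ∪ {q}) (subset_adjoin _ _) ?_
    rw [Set.union_assoc]
    exact hgen
  have h2 : f ∈ adjoin ℂ ((M : Set K) ∪ {q}) := h1 hf.1
  have h3 : f ∈ (adjoin M {q} : IntermediateField M K) := by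
    have h2' : adjoin ℂ ((M : Set K) ∪ {q}) ≤ (adjoin M {q} : IntermediateField M K).restrictScalars ℂ := by
      rw [adjoin_le_iff]
      rintro z (hz | hz)
      · exact (adjoin M {q} : IntermediateField M K).algebraMap_mem ⟨z, hz⟩
      · exact subset_adjoin M {q} hz
    exact h2' h2
  obtain ⟨a, b, hab⟩ := (mem_adjoin_simple_iff M f).mp h3
  have hb : Polynomial.aeval q b ≠ 0 := by
    intro h; rw [h, div_zero] at hab; exact hf0 hab
  have ha : Polynomial.aeval q a ≠ 0 := by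
    intro h; rw [h, zero_div] at hab; exact hf0 hab
  have hb0 : b ≠ 0 := by rintro rfl; simp at hb
  have ha0 : a ≠ 0 := by rintro rfl; simp at ha
  have hqT : Transcendental M q := transc_hom τ (algebraMap M K).injective
      (fun m c => L0_le σ τ (hM m.2) c) hq0 (by exact_mod_cast hN) hq.2
  -- scaling by 2
  let c : ℂˣ := tw 1
  have hc : algebraMap ℂ K (c : ℂ) = 2 := by
    have := tw_val (K := K) 1
    rw [pow_one] at this; exact this
  let κ : M := (2 : M) ^ N
  have hκ : (κ : K) = 2 ^ N := by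
    simp only [κ]
    push_cast
    rfl
  have hτp : ∀ p : Polynomial M, τ c (Polynomial.aeval q p)
      = Polynomial.aeval q (p.comp (Polynomial.C κ * Polynomial.X)) := by
    intro p
    rw [Polynomial.aeval_comp, Polynomial.aeval_eq_sum_range, map_sum,
      Polynomial.aeval_eq_sum_range]
    refine Finset.sum_congr rfl fun i _ => ?_
    rw [Algebra.smul_def, Algebra.smul_def, map_mul, map_pow, hq.2, hc]
    have h4 : τ c (algebraMap M K (p.coeff i)) = algebraMap M K (p.coeff i) :=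
      L0_le σ τ (hM (p.coeff i).2) c
    have h5 : Polynomial.aeval q (Polynomial.C κ * Polynomial.X) = (2 : K) ^ N * q := by
      rw [map_mul, Polynomial.aeval_C, Polynomial.aeval_X]
      congr 1
    rw [h4, h5, zpow_natCast]
  have h6 := hf.2 c
  rw [hab, map_div₀, hτp, hτp, hc] at h6
  have hb' : Polynomial.aeval q (b.comp (Polynomial.C κ * Polynomial.X)) ≠ 0 := by
    rw [← hτp]; exact (map_ne_zero _).mpr hb
  rw [mul_div_assoc', div_eq_div_iff hb' hb] at h6
  have h2M : ((2 : M) : K) = 2 := rfl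
  have h7 : Polynomial.aeval q (a.comp (Polynomial.C κ * Polynomial.X) * b
      - Polynomial.C ((2 : M) ^ d) * a * b.comp (Polynomial.C κ * Polynomial.X)) = 0 := by
    rw [map_sub, map_mul, map_mul, map_mul, Polynomial.aeval_C, h6]
    have : algebraMap M K ((2 : M) ^ d) = (2 : K) ^ d := by
      rw [map_zpow₀]; rfl
    rw [this, sub_self]
  have h8 : a.comp (Polynomial.C κ * Polynomial.X) * b
      - Polynomial.C ((2 : M) ^ d) * a * b.comp (Polynomial.C κ * Polynomial.X) = 0 := by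
    by_contra hne
    exact hqT ⟨_, hne, h7⟩
  have h9 := congrArg Polynomial.leadingCoeff (sub_eq_zero.mp h8)
  have h2ne : (2 : M) ≠ 0 := by
    intro h
    have := congrArg (fun m : M => (m : K)) h
    simp at this
  have hκ0 : κ ≠ 0 := pow_ne_zero _ h2ne
  have hX1 : (Polynomial.C κ * Polynomial.X : Polynomial M).natDegree = 1 :=
    Polynomial.natDegree_C_mul_X κ hκ0
  rw [Polynomial.leadingCoeff_mul, Polynomial.leadingCoeff_mul, Polynomial.leadingCoeff_mul,
    Polynomial.leadingCoeff_comp (by rw [hX1]; norm_num),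
    Polynomial.leadingCoeff_comp (by rw [hX1]; norm_num), Polynomial.leadingCoeff_mul,
    Polynomial.leadingCoeff_C, Polynomial.leadingCoeff_C, Polynomial.leadingCoeff_X, mul_one] at h9
  have hla : a.leadingCoeff ≠ 0 := Polynomial.leadingCoeff_ne_zero.mpr ha0
  have hlb : b.leadingCoeff ≠ 0 := Polynomial.leadingCoeff_ne_zero.mpr hb0
  have h10 : κ ^ a.natDegree = (2 : M) ^ d * κ ^ b.natDegree := by
    apply mul_left_cancel₀ (mul_ne_zero hla hlb)
    linear_combination h9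
  have h11 : (2 : K) ^ (N * a.natDegree : ℤ) = (2 : K) ^ (d + N * b.natDegree : ℤ) := by
    have := congrArg (fun m : M => (m : K)) h10
    simp only [κ] at this
    push_cast at this
    rw [zpow_add₀ two_ne_zero, zpow_mul, zpow_mul, zpow_natCast, zpow_natCast, zpow_natCast]
    rw [h2M] at this
    exact this
  have h12 : (2 : ℚ) ^ (N * a.natDegree : ℤ) = (2 : ℚ) ^ (d + N * b.natDegree : ℤ) := by
    apply Rat.cast_injective (α := K)
    push_cast
    exact h11
  have h13 := zpow_right_injective₀ (by norm_num : (0 : ℚ) < 2) (by norm_num) h12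
  exact ⟨a.natDegree - b.natDegree, by linear_combination -h13⟩

end Build

section Realize

variable {n : ℕ} {K : Type} [Field K] [Algebra (MvPolynomial (Fin (n + 1)) ℂ) K]
    [IsFractionRing (MvPolynomial (Fin (n + 1)) ℂ) K] [Algebra ℂ K]
    [IsScalarTower ℂ (MvPolynomial (Fin (n + 1)) ℂ) K] (τ : ℂˣ → K →ₐ[ℂ] K)
    {Z : Type} [Field Z] [Algebra (MvPolynomial (Fin n) ℂ) Z]
    [IsFractionRing (MvPolynomial (Fin n) ℂ) Z] [Algebra ℂ Z]
    [IsScalarTower ℂ (MvPolynomial (Fin n) ℂ) Z]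

theorem realize_zero
    (hx : ∀ i c, τ c (xx (n + 1) K i) = algebraMap ℂ K c * xx (n + 1) K i) :
    ∃ (σ : K →ₐ[ℂ] K) (s : K), σ s = s + 1 ∧ (∀ c, τ c s = (algebraMap ℂ K c) ^ (-1 : ℤ) * s) ∧
      adjoin ℂ ({s} ∪ ⋃ d, Hd σ τ d) = ⊤ ∧
      {d : ℤ | ∃ f ≠ 0, f ∈ Hd σ τ d} = {0} := by
  have : CharZero K := charZero_of_injective_algebraMap (algebraMap ℂ K).injective
  set w := xx (n + 1) K (Fin.last n) with hw
  have hw0 : w ≠ 0 := xx_ne _
  set s : K := w⁻¹ with hsdef
  have hs0 : s ≠ 0 := inv_ne_zero hw0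
  have hsτ : ∀ c, τ c s = (algebraMap ℂ K c) ^ (-1 : ℤ) * s := by
    intro c; rw [hsdef, map_inv₀, hx, mul_inv, zpow_neg_one]
  have hT : Transcendental (Kτ τ) s := transc_hom τ (algebraMap (Kτ τ) K).injective
    (fun m c => m.2 c) hs0 (by norm_num) hsτ
  have hgen : adjoin ℂ ((Kτ τ : Set K) ∪ {s}) = ⊤ := by
    rw [eq_top_iff, ← adjoin_uu (n := n) (K := K), adjoin_le_iff]
    rintro z (⟨j, rfl⟩ | rfl)
    · exact subset_adjoin _ _ (Or.inl (uu_mem τ hx j))
    · have : w = s⁻¹ := by rw [hsdef, inv_inv]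
      show w ∈ _
      rw [this]
      exact inv_mem (subset_adjoin _ _ (Or.inr rfl))
  have hgen2 : ∀ t : K, (t = s ∨ t = s + 1) →
      (adjoin (Kτ τ) (Set.range (fun _ : Unit => t)) : IntermediateField (Kτ τ) K) = ⊤ := by
    intro t ht
    apply adjoin_over_top
    rw [eq_top_iff, ← hgen, adjoin_le_iff]
    rintro z (hz | rfl)
    · exact subset_adjoin _ _ (Or.inl hz)
    · rcases ht with rfl | ht
      · exact subset_adjoin _ _ (Or.inr ⟨(), rfl⟩)
      · have : s = t - 1 := by rw [ht]; ring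
        rw [this]
        exact sub_mem (subset_adjoin _ _ (Or.inr ⟨(), rfl⟩)) (one_mem _)
  have hI : AlgebraicIndependent (Kτ τ) (fun _ : Unit => s) := by
    rw [algebraicIndependent_unique_type_iff]; exact hT
  have hI' : AlgebraicIndependent (Kτ τ) (fun _ : Unit => s + 1) :=
    indep_of_gen _ _ hI (hgen2 s (Or.inl rfl)) (hgen2 (s + 1) (Or.inr rfl))
  obtain ⟨σ, hσ1, hσ2⟩ := extend_hom (Kτ τ) (fun _ : Unit => s) hI (by
    rw [Set.range_const]; exact hgen) (Kτ τ).val (fun _ : Unit => s + 1) hI'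
  have hs : σ s = s + 1 := hσ2 ()
  have hK0 : ∀ z ∈ Kτ τ, z ∈ Hd σ τ 0 := by
    intro z hz
    exact ⟨hσ1 ⟨z, hz⟩, fun c => by rw [zpow_zero, one_mul]; exact hz c⟩
  refine ⟨σ, s, hs, hsτ, ?_, ?_⟩
  · rw [eq_top_iff, ← hgen, adjoin_le_iff]
    rintro z (hz | rfl)
    · exact subset_adjoin _ _ (Or.inr (Set.mem_iUnion.mpr ⟨0, hK0 z hz⟩))
    · exact subset_adjoin _ _ (Or.inl rfl)
  · ext d
    constructor
    · rintro ⟨f, hf0, hf⟩
      have h1 : Kσ σ ≤ Kτ τ := by
        refine descend (fun z hz => (hK0 z hz).1) (transc_s σ (algebraMap (Kσ σ) K).injective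
          (fun m => m.2) hs) (Kτ τ : Set K) (le_refl _) hgen
      have h2 := h1 hf.1 (tw 1)
      rw [hf.2] at h2
      have h3 : algebraMap ℂ K (tw 1 : ℂ) ^ d = 1 := by
        have : algebraMap ℂ K (tw 1 : ℂ) ^ d * f = 1 * f := by rw [one_mul]; exact h2
        exact mul_right_cancel₀ hf0 this
      rw [tw_val, pow_one] at h3
      have h4 : (2 : ℚ) ^ d = (2 : ℚ) ^ (0 : ℤ) := by
        apply Rat.cast_injective (α := K)
        push_cast
        rw [h3]
      have h5 := zpow_right_injective₀ (by norm_num : (0 : ℚ) < 2) (by norm_num) h4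
      exact h5
    · rintro rfl
      exact ⟨1, one_ne_zero, Hd_one σ τ⟩

theorem realize_pos
    (hx : ∀ i c, τ c (xx (n + 1) K i) = algebraMap ℂ K c * xx (n + 1) K i)
    {E : Type} [Field E] [Algebra ℂ E] (e : RatFunc E ≃ₐ[ℂ] Z) (N : ℕ) (hN : N ≠ 0) :
    ∃ (σ : K →ₐ[ℂ] K) (s : K), σ s = s + 1 ∧ (∀ c, τ c s = (algebraMap ℂ K c) ^ (-1 : ℤ) * s) ∧
      adjoin ℂ ({s} ∪ ⋃ d, Hd σ τ d) = ⊤ ∧
      {d : ℤ | ∃ f ≠ 0, f ∈ Hd σ τ d} = {d | (N : ℤ) ∣ d} ∧ Nonempty (L0 σ τ ≃ₐ[ℂ] E) := by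
  obtain ⟨Fu, _, hFu⟩ := exists_Fu n K Z
  rw [← Ktau_eq τ hx] at hFu
  let ι0 : RatFunc E →ₐ[ℂ] K := Fu.comp (e : RatFunc E →ₐ[ℂ] Z)
  have hι0 : ∀ z, z ∈ Kτ τ ↔ ∃ r, ι0 r = z := by
    intro z
    rw [← hFu]
    constructor
    · rintro ⟨y, rfl⟩
      exact ⟨e.symm y, by simp [ι0]⟩
    · rintro ⟨r, rfl⟩
      exact ⟨e r, rfl⟩
  let j : E →ₐ[ℂ] K := ι0.comp (IsScalarTower.toAlgHom ℂ E (RatFunc E))
  let M : IntermediateField ℂ K := j.fieldRange
  let g : K := ι0 RatFunc.X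
  have hM : M ≤ Kτ τ := by
    rintro _ ⟨z, rfl⟩
    exact (hι0 _).mpr ⟨_, rfl⟩
  have hg : g ∈ Kτ τ := (hι0 _).mpr ⟨_, rfl⟩
  have hgT : Transcendental M g := by
    have h1 : Transcendental E (RatFunc.X : RatFunc E) := by
      apply RatFunc.transcendental_of_ne_C
      rintro ⟨c, hc⟩
      rw [← RatFunc.algebraMap_X, ← RatFunc.algebraMap_C] at hc
      have := IsFractionRing.injective (Polynomial E) (RatFunc E) hc
      exact Polynomial.X_ne_C c this
    let jM : E →+* M := (j : E →+* K).codRestrict M (fun x => ⟨x, rfl⟩)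
    refine h1.ringHom_of_comp_eq (S := M) (B := K) jM (ι0 : RatFunc E →+* K) ?_ ι0.injective ?_
    · rintro ⟨_, ⟨x, rfl⟩⟩
      exact ⟨x, rfl⟩
    · ext x
      rfl
  have hKg : Kτ τ ≤ adjoin ℂ ((M : Set K) ∪ {g}) := by
    intro z hz
    obtain ⟨r, rfl⟩ := (hι0 z).mp hz
    obtain ⟨a, b, _, rfl⟩ := IsFractionRing.div_surjective (A := Polynomial E) r
    have hgm : g ∈ adjoin ℂ ((M : Set K) ∪ {g}) := subset_adjoin _ _ (Or.inr rfl)
    have hMm : ∀ x : E, j x ∈ adjoin ℂ ((M : Set K) ∪ {g}) :=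
      fun x => subset_adjoin _ _ (Or.inl ⟨x, rfl⟩)
    have key : ∀ p : Polynomial E, ι0 (algebraMap _ (RatFunc E) p)
        ∈ adjoin ℂ ((M : Set K) ∪ {g}) := by
      intro p
      induction p using Polynomial.induction_on' with
      | add p q hp hq => rw [map_add, map_add]; exact add_mem hp hq
      | monomial i a =>
        rw [← Polynomial.C_mul_X_pow_eq_monomial, map_mul, map_mul, map_pow, map_pow,
          RatFunc.algebraMap_X]
        refine mul_mem ?_ (pow_mem hgm i)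
        exact hMm a
    rw [map_div₀]
    exact div_mem (key a) (key b)
  set w := xx (n + 1) K (Fin.last n) with hw
  have hw0 : w ≠ 0 := xx_ne _
  set s : K := w⁻¹ with hsdef
  have hs0 : s ≠ 0 := inv_ne_zero hw0
  have hg0 : g ≠ 0 := by
    intro h
    have : (RatFunc.X : RatFunc E) = 0 := ι0.injective (by rw [map_zero]; exact h)
    exact RatFunc.X_ne_zero this
  set q : K := g * w ^ N with hqdef
  have hq0 : q ≠ 0 := mul_ne_zero hg0 (pow_ne_zero _ hw0)
  have hqs : q * s ^ N = g := by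
    rw [hqdef, hsdef, inv_pow, mul_inv_cancel_right₀ (pow_ne_zero _ hw0)]
  have hsτ : ∀ c, τ c s = (algebraMap ℂ K c) ^ (-1 : ℤ) * s := by
    intro c; rw [hsdef, map_inv₀, hx, mul_inv, zpow_neg_one]
  have hqτ : ∀ c, τ c q = (algebraMap ℂ K c) ^ (N : ℤ) * q := by
    intro c
    rw [hqdef, map_mul, map_pow, hx, hg c, mul_pow, zpow_natCast]
    ring
  have hgen1 : adjoin ℂ ((M : Set K) ∪ {g, s}) = ⊤ := by
    rw [eq_top_iff, ← adjoin_uu (n := n) (K := K), adjoin_le_iff]
    have hle : adjoin ℂ ((M : Set K) ∪ {g}) ≤ adjoin ℂ ((M : Set K) ∪ {g, s}) := by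
      apply adjoin.mono
      rintro z (hz | rfl)
      · exact Or.inl hz
      · exact Or.inr (Or.inl rfl)
    rintro z (⟨i, rfl⟩ | rfl)
    · exact hle (hKg (uu_mem τ hx i))
    · have : w = s⁻¹ := by rw [hsdef, inv_inv]
      show w ∈ _
      rw [this]
      exact inv_mem (subset_adjoin _ _ (Or.inr (Or.inr rfl)))
  -- generation by (q, s) and (q, s + 1)
  have hgenq : ∀ t : K, (t = s ∨ t = s + 1) →
      adjoin ℂ ((M : Set K) ∪ Set.range (fun o : Option Unit => o.elim t (fun _ => q))) = ⊤ := by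
    intro t ht
    rw [eq_top_iff, ← hgen1, adjoin_le_iff]
    set T := adjoin ℂ ((M : Set K) ∪ Set.range (fun o : Option Unit => o.elim t (fun _ => q)))
      with hTdef
    have htT : t ∈ T := subset_adjoin _ _ (Or.inr ⟨none, rfl⟩)
    have hqT : q ∈ T := subset_adjoin _ _ (Or.inr ⟨some (), rfl⟩)
    have hsT : s ∈ T := by
      rcases ht with h | h
      · rw [← h]; exact htT
      · have : s = t - 1 := by rw [h]; ring
        rw [this]; exact sub_mem htT (one_mem _)
    rintro z (hz | rfl | rfl)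
    · exact subset_adjoin _ _ (Or.inl hz)
    · rw [← hqs]; exact mul_mem hqT (pow_mem hsT N)
    · exact hsT
  have hIg : AlgebraicIndependent M (fun o : Option Unit => o.elim s (fun _ => g)) := by
    rw [AlgebraicIndependent.option_iff]
    refine ⟨?_, ?_⟩
    · rw [algebraicIndependent_unique_type_iff]; exact hgT
    · rw [Set.range_const]
      exact transc_hom τ Subtype.val_injective (fun m c => adjoin_fix τ M hM g hg m c) hs0
        (by norm_num) hsτ
  have hgeng : adjoin ℂ ((M : Set K) ∪ Set.range (fun o : Option Unit => o.elim s (fun _ => g)))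
      = ⊤ := by
    rw [eq_top_iff, ← hgen1, adjoin_le_iff]
    rintro z (hz | rfl | rfl)
    · exact subset_adjoin _ _ (Or.inl hz)
    · exact subset_adjoin _ _ (Or.inr ⟨some (), rfl⟩)
    · exact subset_adjoin _ _ (Or.inr ⟨none, rfl⟩)
  have hI : ∀ t : K, (t = s ∨ t = s + 1) →
      AlgebraicIndependent M (fun o : Option Unit => o.elim t (fun _ => q)) := fun t ht =>
    indep_of_gen _ _ hIg (adjoin_over_top M _ hgeng) (adjoin_over_top M _ (hgenq t ht))
  obtain ⟨σ, hσ1, hσ2⟩ := extend_hom M _ (hI s (Or.inl rfl)) (hgenq s (Or.inl rfl)) M.val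
    (fun o : Option Unit => o.elim (s + 1) (fun _ => q)) (hI (s + 1) (Or.inr rfl))
  have hs : σ s = s + 1 := hσ2 none
  have hσq : σ q = q := hσ2 (some ())
  have hq : q ∈ Hd σ τ N := ⟨hσq, hqτ⟩
  have hML : M ≤ L0 σ τ := by
    intro z hz
    exact ⟨hσ1 ⟨z, hz⟩, fun c => by rw [zpow_zero, one_mul]; exact hM hz c⟩
  have hgen2 : adjoin ℂ ((M : Set K) ∪ {q, s}) = ⊤ := by
    rw [eq_top_iff, ← hgenq s (Or.inl rfl)]
    apply adjoin.mono
    rintro z (hz | ⟨o, rfl⟩)
    · exact Or.inl hz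
    · rcases o with _ | _
      · exact Or.inr (Or.inr rfl)
      · exact Or.inr (Or.inl rfl)
  refine ⟨σ, s, hs, hsτ, hgen_hom τ σ M q s N hML hq hgen2, ?_, ?_⟩
  · ext d
    constructor
    · rintro ⟨f, hf0, hf⟩
      exact divides τ σ M q s N hN hML hq0 hq hs hgen2 d f hf0 hf
    · rintro ⟨m, rfl⟩
      exact ⟨q ^ m, zpow_ne_zero _ hq0, by rw [mul_comm]; exact Hd_zpow σ τ hq m⟩
  · have hLM : L0 σ τ ≤ M := by
      have hgL : Transcendental (L0 σ τ) g := by
        rw [← hqs]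
        exact transc_g σ (algebraMap (L0 σ τ) K).injective (fun m => m.2.1) hN hq0 hσq hs
      exact descend' hML hgL (M : Set K) (le_refl _) ((L0_le σ τ).trans hKg)
    have hEq : L0 σ τ = M := le_antisymm hLM hML
    apply equiv_of_range (L0 σ τ).val j
    apply range_eq_of_fieldRange
    rw [fieldRange_val, hEq]

end Realize

end Pool.Agent.Helper460.Flow
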