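import Mathlib

set_option autoImplicit false

namespace Pool.Agent.Helper460.ProjFlow

open MvPolynomial Filter Topology

/-- The field of rational functions over the complex numbers in `k` variables. -/
abbrev RatFun (k : ℕ) : Type := FractionRing (MvPolynomial (Fin k) ℂ)

/-- A rational map from complex `k`-space to itself: `k` numerators over one common nonzero
denominator. -/
structure RatMap (k : ℕ) where
  num : Fin k → MvPolynomial (Fin k) ℂ
  den : MvPolynomial (Fin k) ℂ
  den_ne_zero : den ≠ 0

variable {k : ℕ}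

/-- The denominator of `f` does not vanish at `a`. -/
def RatMap.DefinedAt (f : RatMap k) (a : Fin k → ℂ) : Prop := eval a f.den ≠ 0

/-- The value of `f` at `a` (meaningful where `f` is defined). -/
noncomputable def RatMap.value (f : RatMap k) (a : Fin k → ℂ) : Fin k → ℂ :=
  fun i => eval a (f.num i) / eval a f.den

/-- `f` is the identity map. -/
def RatMap.IsIdentity (f : RatMap k) : Prop := ∀ i, f.num i = X i * f.den

/-- `p` holds on some nonempty open set. For an equality of rational functions this is the same as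
being an identity. -/
def OnOpen {T : Type} [TopologicalSpace T] (p : T → Prop) : Prop :=
  ∃ U : Set T, IsOpen U ∧ U.Nonempty ∧ ∀ t ∈ U, p t

/-- Rational projective flow: the projective translation equation
`(1 - z) f(x) = f(((1 - z) / z) f(z x))` holds as an identity of rational functions in `(x, z)`
and `f(z x) / z` tends to `x` as `z` tends to `0`. -/
def IsFlow (f : RatMap k) : Prop :=
  OnOpen (fun q : (Fin k → ℂ) × ℂ => q.2 ≠ 0 ∧ f.DefinedAt q.1 ∧ f.DefinedAt (q.2 • q.1) ∧
    f.DefinedAt (((1 - q.2) / q.2) • f.value (q.2 • q.1)) ∧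
    (1 - q.2) • f.value q.1 = f.value (((1 - q.2) / q.2) • f.value (q.2 • q.1))) ∧
  OnOpen (fun x : Fin k → ℂ =>
    Tendsto (fun z : ℂ => z⁻¹ • f.value (z • x)) (𝓝[≠] 0) (𝓝 x))

/-- `l` and `m` are mutually inverse rational maps. -/
def AreInverse (l m : RatMap k) : Prop :=
  OnOpen (fun x => l.DefinedAt x ∧ m.DefinedAt (l.value x) ∧ m.value (l.value x) = x) ∧
  OnOpen (fun x => m.DefinedAt x ∧ l.DefinedAt (m.value x) ∧ l.value (m.value x) = x)

/-- `l(t x) = t l(x)`. -/
def OneHomogenic (l : RatMap k) : Prop :=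
  OnOpen (fun q : (Fin k → ℂ) × ℂ => l.DefinedAt q.1 ∧ l.DefinedAt (q.2 • q.1) ∧
    l.value (q.2 • q.1) = q.2 • l.value q.1)

/-- `g` equals `l⁻¹ ∘ f ∘ l` for a 1-homogenic birational transformation `l`. -/
def Conjugate (f g : RatMap k) : Prop :=
  ∃ l m : RatMap k, AreInverse l m ∧ OneHomogenic l ∧
    OnOpen (fun x => l.DefinedAt x ∧ f.DefinedAt (l.value x) ∧ g.DefinedAt x ∧
      l.DefinedAt (g.value x) ∧ f.value (l.value x) = l.value (g.value x))

/-- The rational function `h = p / q` is homogeneous of degree `d` and invariant under `f`,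
that is `h(c x) = c ^ d h(x)` and `h(f(x)) = h(x)`. -/
def IsHomInvariant (f : RatMap k) (d : ℤ) (h : RatFun k) : Prop :=
  ∃ p q : MvPolynomial (Fin k) ℂ, q ≠ 0 ∧
    h = algebraMap _ (RatFun k) p / algebraMap _ (RatFun k) q ∧
    OnOpen (fun v : (Fin k → ℂ) × ℂ => v.2 ≠ 0 ∧ eval v.1 q ≠ 0 ∧ eval (v.2 • v.1) q ≠ 0 ∧
      eval (v.2 • v.1) p / eval (v.2 • v.1) q = v.2 ^ d * (eval v.1 p / eval v.1 q)) ∧
    OnOpen (fun x : Fin k → ℂ => f.DefinedAt x ∧ eval x q ≠ 0 ∧ eval (f.value x) q ≠ 0 ∧
      eval (f.value x) p / eval (f.value x) q = eval x p / eval x q)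

/-- The degrees of the nonzero homogeneous invariants of `f`. -/
def invDegrees (f : RatMap k) : Set ℤ := {d | ∃ h : RatFun k, h ≠ 0 ∧ IsHomInvariant f d h}

/-- The field of invariants of degree zero: the field generated over the complex numbers by the
invariant rational functions that are homogeneous of degree `0`. -/
noncomputable def invField (f : RatMap k) : IntermediateField ℂ (RatFun k) :=
  IntermediateField.adjoin ℂ {h | IsHomInvariant f 0 h}

end Pool.Agent.Helper460.ProjFlow
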