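import Pool.Agent.Helper460.Cls3
import Pool.Agent.Helper460.FlowDefs

set_option autoImplicit false
set_option linter.unusedSectionVars false

namespace Pool.Agent.Helper460.Flow

open MvPolynomial Filter Topology Pool.Agent.Helper460.ProjFlow

section Clear

variable {k : ℕ} {K : Type} [Field K] [Algebra (MvPolynomial (Fin k) ℂ) K]
    [IsFractionRing (MvPolynomial (Fin k) ℂ) K] [Algebra ℂ K]
    [IsScalarTower ℂ (MvPolynomial (Fin k) ℂ) K]

variable (K) in
lemma clear_den (L : Fin k → MvPolynomial (Fin k) ℂ) (E : MvPolynomial (Fin k) ℂ) (hE : E ≠ 0)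
    (f : MvPolynomial (Fin k) ℂ) : ∃ (N : ℕ) (G : MvPolynomial (Fin k) ℂ),
      algebraMap _ K G = (algebraMap _ K E) ^ N *
        aeval (fun i => algebraMap _ K (L i) / algebraMap _ K E) f ∧
      ∀ a, eval a E ≠ 0 → eval a G = (eval a E) ^ N * eval (fun i => eval a (L i) / eval a E) f := by
  induction f using MvPolynomial.induction_on with
  | C c =>
    refine ⟨0, C c, ?_, fun a _ => by simp⟩
    rw [pow_zero, one_mul, ← MvPolynomial.algebraMap_eq, AlgHom.commutes,
      ← IsScalarTower.algebraMap_apply]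
  | add p q hp hq =>
    obtain ⟨N, G, h1, h2⟩ := hp
    obtain ⟨N', G', h1', h2'⟩ := hq
    refine ⟨N + N', E ^ N' * G + E ^ N * G', ?_, fun a ha => ?_⟩
    · rw [map_add, map_mul, map_mul, h1, h1', map_pow, map_pow, map_add]; ring
    · rw [map_add, map_mul, map_mul, h2 a ha, h2' a ha, map_pow, map_pow, map_add]; ring
  | mul_X p i hp =>
    obtain ⟨N, G, h1, h2⟩ := hp
    refine ⟨N + 1, G * L i, ?_, fun a ha => ?_⟩
    · have hEK := am_ne (K := K) hE
      rw [map_mul, h1, map_mul, aeval_X, pow_succ]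
      field_simp
    · rw [map_mul, h2 a ha, map_mul, eval_X, pow_succ]
      field_simp

lemma zero_on_defined (L : Fin k → MvPolynomial (Fin k) ℂ) (E : MvPolynomial (Fin k) ℂ)
    (hE : E ≠ 0) (f : MvPolynomial (Fin k) ℂ)
    (hf : aeval (fun i => algebraMap _ K (L i) / algebraMap _ K E) f = 0) (a : Fin k → ℂ)
    (ha : eval a E ≠ 0) : eval (fun i => eval a (L i) / eval a E) f = 0 := by
  obtain ⟨N, G, h1, h2⟩ := clear_den K L E hE f
  rw [hf, mul_zero, FaithfulSMul.algebraMap_eq_zero_iff] at h1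
  have := h2 a ha
  rw [h1, map_zero] at this
  exact (mul_eq_zero.mp this.symm).resolve_left (pow_ne_zero _ ha)

/-- from homogeneity on an open set to homogeneity for all scalings -/
lemma hom_all (τ : ℂˣ → K →ₐ[ℂ] K) (hτ : ∀ (c : ℂˣ) (p : MvPolynomial (Fin k) ℂ),
        τ c (algebraMap _ K p) = algebraMap _ K (scaleR (c : ℂ) p))
    (p q : MvPolynomial (Fin k) ℂ) (hq : q ≠ 0) (d : ℤ) (V : Set ((Fin k → ℂ) × ℂ))
    (hV : IsOpen V) (hne : V.Nonempty)
    (h : ∀ v ∈ V, eval v.1 q ≠ 0 ∧ eval (v.2 • v.1) q ≠ 0 ∧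
      eval (v.2 • v.1) p / eval (v.2 • v.1) q = v.2 ^ d * (eval v.1 p / eval v.1 q)) (c : ℂˣ) :
    τ c (algebraMap _ K p / algebraMap _ K q)
      = (algebraMap ℂ K c) ^ d * (algebraMap _ K p / algebraMap _ K q) := by
  -- polynomial identity
  have hpoly : Polynomial.X ^ (-d).toNat * rho p * Polynomial.C q
      = Polynomial.X ^ d.toNat * Polynomial.C p * rho q := by
    rw [← sub_eq_zero]
    apply Polynomial.eq_zero_of_infinite_isRoot
    have hZ : (Prod.snd '' V \ {0}).Infinite := by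
      have : IsOpen (Prod.snd '' V) := isOpenMap_snd V hV
      obtain ⟨v0, hv0⟩ := hne
      exact (infinite_of_mem_nhds v0.2 (this.mem_nhds ⟨v0, hv0, rfl⟩)).sdiff
        (Set.finite_singleton 0)
    have hT : ((fun z : ℂ => (C z : MvPolynomial (Fin k) ℂ)) '' (Prod.snd '' V \ {0})).Infinite := by
      apply hZ.image
      intro z _ w _ hzw
      exact MvPolynomial.C_injective _ _ hzw
    refine hT.mono ?_
    rintro _ ⟨_, ⟨⟨⟨a0, z⟩, hv, rfl⟩, hz0⟩, rfl⟩
    have hz0 : z ≠ 0 := hz0
    show Polynomial.eval (C z) _ = 0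
    have hev : ∀ r : MvPolynomial (Fin k) ℂ, Polynomial.eval (C z) (rho r) = scaleR z r := by
      intro r
      have : (Polynomial.evalRingHom (C z : MvPolynomial (Fin k) ℂ)).comp (rho (k := k)).toRingHom
          = (scaleR z).toRingHom := by
        apply MvPolynomial.ringHom_ext
        · intro r
          simp [rho, scaleR, ← MvPolynomial.algebraMap_eq]
        · intro i
          simp [rho, scaleR]
          ring
      exact congrArg (fun f => f r) this
    rw [Polynomial.eval_sub, Polynomial.eval_mul, Polynomial.eval_mul, Polynomial.eval_mul,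
      Polynomial.eval_mul, Polynomial.eval_pow, Polynomial.eval_pow, Polynomial.eval_X,
      Polynomial.eval_C, Polynomial.eval_C, hev, hev]
    have hS : IsOpen {x : Fin k → ℂ | (x, z) ∈ V} := hV.preimage (Continuous.prodMk_left z)
    apply zero_of_open _ _ hS ⟨a0, hv⟩
    intro a ha
    obtain ⟨h1, h2, h3⟩ := h _ ha
    simp only at h1 h2 h3
    rw [map_sub, map_mul, map_mul, map_mul, map_mul, map_pow, map_pow, eval_C, eval_scaleR,
      eval_scaleR]
    have hd : z ^ d = z ^ d.toNat / z ^ (-d).toNat := by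
      rw [← zpow_natCast, ← zpow_natCast, ← zpow_sub₀ hz0]
      congr 1
      omega
    rw [hd, mul_div_assoc', div_mul_eq_mul_div, div_eq_div_iff h2 h1, div_mul_eq_mul_div,
      eq_div_iff (pow_ne_zero _ hz0)] at h3
    linear_combination h3
  -- evaluate at c
  have hc0 : (c : ℂ) ≠ 0 := c.ne_zero
  have hev : ∀ r : MvPolynomial (Fin k) ℂ, Polynomial.eval (C (c : ℂ)) (rho r)
      = scaleR (c : ℂ) r := by
    intro r
    have : (Polynomial.evalRingHom (C (c : ℂ) : MvPolynomial (Fin k) ℂ)).comp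
        (rho (k := k)).toRingHom = (scaleR (c : ℂ)).toRingHom := by
      apply MvPolynomial.ringHom_ext
      · intro r
        simp [rho, scaleR, ← MvPolynomial.algebraMap_eq]
      · intro i
        simp [rho, scaleR]
        ring
    exact congrArg (fun f => f r) this
  have h1 := congrArg (Polynomial.eval (C (c : ℂ))) hpoly
  rw [Polynomial.eval_mul, Polynomial.eval_mul, Polynomial.eval_mul,
      Polynomial.eval_mul, Polynomial.eval_pow, Polynomial.eval_pow, Polynomial.eval_X,
      Polynomial.eval_C, Polynomial.eval_C, hev, hev] at h1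
  have h2 := congrArg (algebraMap (MvPolynomial (Fin k) ℂ) K) h1
  simp only [map_mul, map_pow] at h2
  rw [← MvPolynomial.algebraMap_eq, ← IsScalarTower.algebraMap_apply] at h2
  have hcK := algebraMap_unit_ne (K := K) c
  have hd : (algebraMap ℂ K c) ^ d = (algebraMap ℂ K c) ^ d.toNat / (algebraMap ℂ K c) ^ (-d).toNat := by
    rw [← zpow_natCast, ← zpow_natCast, ← zpow_sub₀ hcK]
    congr 1
    omega
  have hqK := am_ne (K := K) hq
  have hsq : algebraMap (MvPolynomial (Fin k) ℂ) K (scaleR (c : ℂ) q) ≠ 0 := by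
    apply am_ne
    intro h0
    apply hq
    apply scaleR_inj c
    rw [map_zero]; exact h0
  rw [map_div₀, hτ, hτ, hd, mul_div_assoc', div_mul_eq_mul_div, div_eq_div_iff hsq hqK,
    div_mul_eq_mul_div, eq_div_iff (pow_ne_zero _ hcK)]
  linear_combination h2

/-- converse: pointwise homogeneity -/
lemma hom_open (τ : ℂˣ → K →ₐ[ℂ] K) (hτ : ∀ (c : ℂˣ) (p : MvPolynomial (Fin k) ℂ),
        τ c (algebraMap _ K p) = algebraMap _ K (scaleR (c : ℂ) p))
    (p q : MvPolynomial (Fin k) ℂ) (hq : q ≠ 0) (d : ℤ)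
    (h : ∀ c : ℂˣ, τ c (algebraMap _ K p / algebraMap _ K q)
      = (algebraMap ℂ K c) ^ d * (algebraMap _ K p / algebraMap _ K q)) :
    OnOpen (fun v : (Fin k → ℂ) × ℂ => v.2 ≠ 0 ∧ eval v.1 q ≠ 0 ∧ eval (v.2 • v.1) q ≠ 0 ∧
      eval (v.2 • v.1) p / eval (v.2 • v.1) q = v.2 ^ d * (eval v.1 p / eval v.1 q)) := by
  refine ⟨{v | v.2 ≠ 0 ∧ eval v.1 q ≠ 0 ∧ eval (v.2 • v.1) q ≠ 0}, ?_, ?_, ?_⟩
  · have h1 : IsOpen {q : (Fin k → ℂ) × ℂ | q.2 ≠ 0} :=
      isOpen_ne_fun continuous_snd continuous_const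
    have h2 : IsOpen {v : (Fin k → ℂ) × ℂ | eval v.1 q ≠ 0} :=
      isOpen_ne_fun ((continuous_eval' q).comp continuous_fst) continuous_const
    have h3 : IsOpen {v : (Fin k → ℂ) × ℂ | eval (v.2 • v.1) q ≠ 0} :=
      isOpen_ne_fun ((continuous_eval' q).comp (continuous_snd.smul continuous_fst))
        continuous_const
    exact h1.inter (h2.inter h3)
  · obtain ⟨U, _, ⟨a, ha⟩, hU⟩ := (Gen.of_ne hq).open
    refine ⟨(a, 1), one_ne_zero, hU a ha, ?_⟩
    show eval ((1 : ℂ) • a) q ≠ 0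
    rw [one_smul]
    exact hU a ha
  · rintro ⟨a, c⟩ ⟨hc, h1, h2⟩
    refine ⟨hc, h1, h2, ?_⟩
    have h := h (Units.mk0 c hc)
    have hsc : scaleR c q ≠ 0 := by
      intro h0
      apply hq
      apply scaleR_inj (Units.mk0 c hc)
      rw [map_zero]
      exact h0
    have hcK := algebraMap_unit_ne (K := K) (Units.mk0 c hc)
    rw [Units.val_mk0] at hcK
    have hd : (algebraMap ℂ K c) ^ d = (algebraMap ℂ K c) ^ d.toNat / (algebraMap ℂ K c) ^ (-d).toNat := by
      rw [← zpow_natCast, ← zpow_natCast, ← zpow_sub₀ hcK]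
      congr 1
      omega
    rw [map_div₀, hτ, hτ, Units.val_mk0, hd, mul_div_assoc', div_mul_eq_mul_div,
      div_eq_div_iff (am_ne hsc) (am_ne hq),
      div_mul_eq_mul_div, eq_div_iff (pow_ne_zero _ hcK),
      IsScalarTower.algebraMap_apply ℂ (MvPolynomial (Fin k) ℂ) K] at h
    simp only [← map_mul, ← map_pow] at h
    have h' := congrArg (eval a) (IsFractionRing.injective (MvPolynomial (Fin k) ℂ) K h)
    simp only [map_mul, map_pow, eval_scaleR, MvPolynomial.algebraMap_eq, eval_C] at h'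
    have hd' : c ^ d = c ^ d.toNat / c ^ (-d).toNat := by
      rw [← zpow_natCast, ← zpow_natCast, ← zpow_sub₀ hc]
      congr 1
      omega
    show eval (c • a) p / eval (c • a) q = c ^ d * (eval a p / eval a q)
    rw [hd', mul_div_assoc', div_mul_eq_mul_div, div_eq_div_iff h2 h1, div_mul_eq_mul_div,
      eq_div_iff (pow_ne_zero _ hc)]
    linear_combination h'

end Clear

end Pool.Agent.Helper460.Flow
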