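import Pool.Agent.Helper460.Cls4

set_option autoImplicit false
set_option linter.unusedSectionVars false

namespace Pool.Agent.Helper460.Flow

open MvPolynomial Filter Topology Pool.Agent.Helper460.ProjFlow

section Pull

variable {k : ℕ}

/-- coordinates of a rational map as field elements -/
noncomputable def co (f : RatMap k) (i : Fin k) : RatFun k :=
  algebraMap _ (RatFun k) (f.num i) / algebraMap _ (RatFun k) f.den

lemma rep_co (f : RatMap k) (i : Fin k) : Rep (co f i) (fun a => f.value a i) :=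
  rep_phi f.num f.den i

/-- `σ` is the pullback along `f` -/
def IsPull (f : RatMap k) (σ : RatFun k →ₐ[ℂ] RatFun k) : Prop :=
  ∀ i, σ (xx k (RatFun k) i) = co f i

lemma rep_pull {f : RatMap k} {σ : RatFun k →ₐ[ℂ] RatFun k} (h : IsPull f σ)
    (p : MvPolynomial (Fin k) ℂ) : Rep (σ (algebraMap _ _ p)) (fun a => eval (f.value a) p) := by
  refine rep_hom (γ := f.value) (fun i => ?_) p
  rw [h i]
  exact rep_co f i

lemma pull_unique {f : RatMap k} {σ σ' : RatFun k →ₐ[ℂ] RatFun k} (h : IsPull f σ)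
    (h' : IsPull f σ') : σ = σ' := algHom_ext_xx σ σ' (fun i => by rw [h i, h' i])

/-- the scaling property -/
def IsScal (τ : ℂˣ → RatFun k →ₐ[ℂ] RatFun k) : Prop :=
  ∀ (c : ℂˣ) (p : MvPolynomial (Fin k) ℂ),
    τ c (algebraMap _ _ p) = algebraMap _ (RatFun k) (scaleR (c : ℂ) p)

lemma scal_unique {τ τ' : ℂˣ → RatFun k →ₐ[ℂ] RatFun k} (h : IsScal τ) (h' : IsScal τ') :
    τ = τ' := by
  funext c
  apply algHom_ext_xx (k := k)
  intro i
  rw [xx, h, h']

lemma scal_xx {τ : ℂˣ → RatFun k →ₐ[ℂ] RatFun k} (hτ : IsScal τ) (i : Fin k) (c : ℂˣ) :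
    τ c (xx k (RatFun k) i) = algebraMap ℂ (RatFun k) c * xx k (RatFun k) i := by
  rw [xx, hτ, scaleR, aeval_X, map_mul, ← MvPolynomial.algebraMap_eq,
      ← IsScalarTower.algebraMap_apply]

lemma rep_scal {τ : ℂˣ → RatFun k →ₐ[ℂ] RatFun k} (hτ : IsScal τ) (c : ℂˣ)
    (p : MvPolynomial (Fin k) ℂ) :
    Rep (τ c (algebraMap _ _ p)) (fun a => eval ((c : ℂ) • a) p) := by
  rw [hτ]
  exact (Rep.poly _).congr (Gen.all fun a => eval_scaleR _ _ _)

theorem flow_package {f : RatMap k} (hf : IsFlow f) (hne : ¬ f.IsIdentity)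
    {τ : ℂˣ → RatFun k →ₐ[ℂ] RatFun k} (hτ : IsScal τ) :
    ∃ (σ : RatFun k →ₐ[ℂ] RatFun k) (s : RatFun k), IsPull f σ ∧ σ s = s + 1 ∧
      (∀ c, τ c s = (algebraMap ℂ (RatFun k) c) ^ (-1 : ℤ) * s) ∧
      IntermediateField.adjoin ℂ ({s} ∪ ⋃ d, Hd σ τ d) = ⊤ := by
  obtain ⟨⟨V, hVo, hVn, hV⟩, hU⟩ := hf
  obtain ⟨σ, τ', s, h1, h2, _, h4, h5, h6⟩ := slice_package (RatFun k) f.num f.den f.den_ne_zero
    hne ⟨V, hVo, hVn, fun q hq => ⟨(hV q hq).1, (hV q hq).2.1, (hV q hq).2.2.2.1,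
      (hV q hq).2.2.2.2⟩⟩ hU
  have := scal_unique hτ h2
  subst this
  exact ⟨σ, s, h1, h4, h5, h6⟩

lemma homInv_iff {f : RatMap k} {σ : RatFun k →ₐ[ℂ] RatFun k}
    {τ : ℂˣ → RatFun k →ₐ[ℂ] RatFun k} (hσ : IsPull f σ) (hτ : IsScal τ) (d : ℤ) (h : RatFun k) :
    IsHomInvariant f d h ↔ h ∈ Hd σ τ d := by
  constructor
  · rintro ⟨p, q, hq, rfl, ⟨V, hVo, hVn, hV⟩, ⟨U, hUo, hUn, hU⟩⟩
    refine ⟨?_, fun c => hom_all τ hτ p q hq d V hVo hVn (fun v hv => (hV v hv).2) c⟩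
    have r1 : Rep (σ (algebraMap _ _ p / algebraMap _ _ q))
        (fun a => eval (f.value a) p / eval (f.value a) q) := by
      rw [map_div₀]; exact (rep_pull hσ p).div (rep_pull hσ q)
    have r2 : Rep (algebraMap _ (RatFun k) p / algebraMap _ _ q)
        (fun a => eval a p / eval a q) := (Rep.poly p).div (Rep.poly q)
    exact r1.eq_of_open r2 U hUo hUn (fun a ha => (hU a ha).2.2.2)
  · rintro ⟨h1, h2⟩
    obtain ⟨p, q, hq0, rfl⟩ := IsFractionRing.div_surjective (A := MvPolynomial (Fin k) ℂ) h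
    have hq : q ≠ 0 := nonZeroDivisors.ne_zero hq0
    refine ⟨p, q, hq, rfl, hom_open τ hτ p q hq d h2, ?_⟩
    have r1 : Rep (σ (algebraMap _ _ p / algebraMap _ _ q))
        (fun a => eval (f.value a) p / eval (f.value a) q) := by
      rw [map_div₀]; exact (rep_pull hσ p).div (rep_pull hσ q)
    rw [h1] at r1
    have r2 : Rep (algebraMap _ (RatFun k) p / algebraMap _ _ q)
        (fun a => eval a p / eval a q) := (Rep.poly p).div (Rep.poly q)
    have g1 : Gen fun a => eval (f.value a) q ≠ 0 := by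
      apply (rep_pull hσ q).ne_zero
      rw [Ne, map_eq_zero]
      exact am_ne hq
    obtain ⟨U, hUo, hUn, hU⟩ := ((((Gen.of_ne f.den_ne_zero).and (Gen.of_ne hq)).and g1).and
      (r1.unique r2)).open
    exact ⟨U, hUo, hUn, fun a ha => ⟨(hU a ha).1.1.1, (hU a ha).1.1.2, (hU a ha).1.2,
      (hU a ha).2⟩⟩

lemma invDegrees_eq {f : RatMap k} {σ : RatFun k →ₐ[ℂ] RatFun k}
    {τ : ℂˣ → RatFun k →ₐ[ℂ] RatFun k} (hσ : IsPull f σ) (hτ : IsScal τ) :
    invDegrees f = {d : ℤ | ∃ h ≠ 0, h ∈ Hd σ τ d} := by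
  ext d
  simp only [invDegrees, Set.mem_ofPred_eq, homInv_iff hσ hτ]

lemma invField_eq {f : RatMap k} {σ : RatFun k →ₐ[ℂ] RatFun k}
    {τ : ℂˣ → RatFun k →ₐ[ℂ] RatFun k} (hσ : IsPull f σ) (hτ : IsScal τ) :
    invField f = L0 σ τ := by
  have : {h | IsHomInvariant f 0 h} = (L0 σ τ : Set (RatFun k)) := by
    ext h
    exact homInv_iff hσ hτ 0 h
  rw [invField, this]
  exact IntermediateField.adjoin_self ℂ (L0 σ τ)

/-- the pullback homomorphism of a dominant map -/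
lemma exists_pull {l m : RatMap k} (h : AreInverse l m) :
    ∃ θ : RatFun k →ₐ[ℂ] RatFun k, IsPull l θ := by
  obtain ⟨_, U, hUo, hUn, hU⟩ := h
  have hinj : Function.Injective (aeval (co l) : MvPolynomial (Fin k) ℂ →ₐ[ℂ] RatFun k) := by
    rw [injective_iff_map_eq_zero]
    intro p hp
    apply zero_of_open p U hUo hUn
    intro a ha
    obtain ⟨_, h2, h3⟩ := hU a ha
    have := zero_on_defined (K := RatFun k) l.num l.den l.den_ne_zero p hp (m.value a) h2
    have h4 : (fun i => eval (m.value a) (l.num i) / eval (m.value a) l.den) = a := h3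
    rw [h4] at this
    exact this
  obtain ⟨g, hg⟩ := exists_lift _ hinj
  exact ⟨g, fun i => by rw [xx, hg, aeval_X]⟩

lemma pull_comp {l m : RatMap k} {θ θ' : RatFun k →ₐ[ℂ] RatFun k} (hl : IsPull l θ)
    (hm : IsPull m θ')
    (h : OnOpen (fun x => l.DefinedAt x ∧ m.DefinedAt (l.value x) ∧ m.value (l.value x) = x)) :
    θ.comp θ' = AlgHom.id ℂ _ := by
  obtain ⟨U, hUo, hUn, hU⟩ := h
  apply algHom_ext_xx (k := k)
  intro i
  show θ (θ' (xx k _ i)) = xx k _ i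
  rw [hm i, co, map_div₀]
  refine Rep.eq_of_open ((rep_pull hl _).div (rep_pull hl _)) (Rep.x i) U hUo hUn ?_
  intro a ha
  exact congrFun (hU a ha).2.2 i

theorem conj_to_field {f g : RatMap k} {σ σ' : RatFun k →ₐ[ℂ] RatFun k}
    {τ : ℂˣ → RatFun k →ₐ[ℂ] RatFun k} (hσ : IsPull f σ) (hσ' : IsPull g σ') (hτ : IsScal τ)
    (h : Conjugate f g) : ∃ θ : RatFun k ≃ₐ[ℂ] RatFun k,
      (∀ c z, θ (τ c z) = τ c (θ z)) ∧ ∀ z, θ (σ z) = σ' (θ z) := by
  obtain ⟨l, m, hlm, ⟨V, hVo, ⟨v0, hv0⟩, hV⟩, ⟨U, hUo, hUn, hU⟩⟩ := h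
  obtain ⟨θ, hθ⟩ := exists_pull hlm
  obtain ⟨θ', hθ'⟩ := exists_pull (l := m) (m := l) ⟨hlm.2, hlm.1⟩
  refine ⟨AlgEquiv.ofAlgHom θ θ' (pull_comp hθ hθ' hlm.1) (pull_comp hθ' hθ hlm.2), ?_, ?_⟩
  · intro c
    have : θ.comp (τ c) = (τ c).comp θ := by
      apply algHom_ext_xx (k := k)
      intro i
      show θ (τ c (xx k _ i)) = τ c (θ (xx k _ i))
      rw [scal_xx hτ, map_mul, AlgHom.commutes, hθ i]
      have := hom_all τ hτ (l.num i) l.den l.den_ne_zero 1 V hVo ⟨v0, hv0⟩ (fun v hv => by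
        obtain ⟨h1, h2, h3⟩ := hV v hv
        refine ⟨h1, h2, ?_⟩
        rw [zpow_one]
        exact congrFun h3 i) c
      rw [zpow_one] at this
      exact this.symm
    intro z
    exact congrArg (fun F => F z) this
  · have : θ.comp σ = σ'.comp θ := by
      apply algHom_ext_xx (k := k)
      intro i
      show θ (σ (xx k _ i)) = σ' (θ (xx k _ i))
      rw [hσ i, hθ i, co, co, map_div₀, map_div₀]
      refine Rep.eq_of_open ((rep_pull hθ _).div (rep_pull hθ _))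
        ((rep_pull hσ' _).div (rep_pull hσ' _)) U hUo hUn ?_
      intro a ha
      exact congrFun (hU a ha).2.2.2.2 i
    intro z
    exact congrArg (fun F => F z) this

lemma exists_ratMap (g : Fin k → RatFun k) : ∃ f : RatMap k, ∀ i, co f i = g i := by
  obtain ⟨L, E, hE, hL⟩ := common_denom (k := k) g
  exact ⟨⟨L, E, hE⟩, fun i => (hL i).symm⟩

theorem field_to_conj {f g : RatMap k} {σ σ' : RatFun k →ₐ[ℂ] RatFun k}
    {τ : ℂˣ → RatFun k →ₐ[ℂ] RatFun k} (hσ : IsPull f σ) (hσ' : IsPull g σ') (hτ : IsScal τ)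
    (θ : RatFun k ≃ₐ[ℂ] RatFun k) (h1 : ∀ c z, θ (τ c z) = τ c (θ z))
    (h2 : ∀ z, θ (σ z) = σ' (θ z)) : Conjugate f g := by
  obtain ⟨l, hl⟩ := exists_ratMap (fun i => θ (xx k _ i))
  obtain ⟨m, hm⟩ := exists_ratMap (fun i => θ.symm (xx k _ i))
  have pl : IsPull l (θ : RatFun k →ₐ[ℂ] RatFun k) := fun i => (hl i).symm
  have b1 := birational θ.symm l.num m.num l.den m.den l.den_ne_zero m.den_ne_zero
    (fun i => by
      rw [AlgEquiv.symm_symm]; exact (hl i).symm) (fun i => (hm i).symm)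
  have b2 := birational θ m.num l.num m.den l.den m.den_ne_zero l.den_ne_zero
    (fun i => (hm i).symm) (fun i => (hl i).symm)
  refine ⟨l, m, ⟨b1.open, b2.open⟩, ?_, ?_⟩
  · refine homog τ hτ l.num l.den l.den_ne_zero ?_
    intro i c
    have h3 := h1 c (xx k _ i)
    rw [scal_xx hτ, map_mul, AlgEquiv.commutes, ← hl i] at h3
    exact h3.symm
  · have g1 : Gen fun a => eval (l.value a) f.den ≠ 0 := by
      apply (rep_pull pl f.den).ne_zero
      rw [Ne, map_eq_zero]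
      exact am_ne f.den_ne_zero
    have g2 : Gen fun a => eval (g.value a) l.den ≠ 0 := by
      apply (rep_pull hσ' l.den).ne_zero
      rw [Ne, map_eq_zero]
      exact am_ne l.den_ne_zero
    have g3 : Gen fun a => ∀ i, f.value (l.value a) i = l.value (g.value a) i := by
      apply Gen.forall
      intro i
      have r1 : Rep ((θ : RatFun k →ₐ[ℂ] RatFun k) (algebraMap _ _ (f.num i))
          / (θ : RatFun k →ₐ[ℂ] RatFun k) (algebraMap _ _ f.den))
          (fun a => f.value (l.value a) i) := (rep_pull pl _).div (rep_pull pl _)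
      have r2 : Rep (σ' (algebraMap _ _ (l.num i)) / σ' (algebraMap _ _ l.den))
          (fun a => l.value (g.value a) i) := (rep_pull hσ' _).div (rep_pull hσ' _)
      rw [← map_div₀] at r1 r2
      have e1 : (θ : RatFun k →ₐ[ℂ] RatFun k) (algebraMap _ _ (f.num i) / algebraMap _ _ f.den)
          = σ' (algebraMap _ _ (l.num i) / algebraMap _ _ l.den) := by
        have h3 := h2 (xx k _ i)
        rw [hσ i, ← hl i] at h3
        exact h3
      rw [e1] at r1
      exact r1.unique r2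
    obtain ⟨U, hUo, hUn, hU⟩ := ((((Gen.of_ne l.den_ne_zero).and g1).and
      ((Gen.of_ne g.den_ne_zero).and g2)).and g3).open
    exact ⟨U, hUo, hUn, fun a ha => ⟨(hU a ha).1.1.1, (hU a ha).1.1.2, (hU a ha).1.2.1,
      (hU a ha).1.2.2, funext (hU a ha).2⟩⟩

end Pull

end Pool.Agent.Helper460.Flow
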