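import Pool.Agent.Helper460.Cls5

set_option autoImplicit false
set_option linter.unusedSectionVars false

namespace Pool.Agent.Helper460.Flow

open MvPolynomial Filter Topology Pool.Agent.Helper460.ProjFlow

section FlowOf

variable {k : ℕ} {f : RatMap k} {σ : RatFun k →ₐ[ℂ] RatFun k}
    {τ : ℂˣ → RatFun k →ₐ[ℂ] RatFun k}

lemma pte_hom (s : RatFun k) (hs : σ s = s + 1)
    (hsτ : ∀ c, τ c s = (algebraMap ℂ (RatFun k) c) ^ (-1 : ℤ) * s)
    (hgen : IntermediateField.adjoin ℂ ({s} ∪ ⋃ d, Hd σ τ d) = ⊤) (c c1 c2 : ℂˣ)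
    (h1 : (c1 : ℂ) = 1 - c) (h2 : (c2 : ℂ) = (1 - c) / c) :
    (τ c).comp (σ.comp ((τ c2).comp σ)) = σ.comp (τ c1) := by
  have hc := algebraMap_unit_ne (K := RatFun k) c
  have hc1 := algebraMap_unit_ne (K := RatFun k) c1
  have hc2 := algebraMap_unit_ne (K := RatFun k) c2
  have e1 : algebraMap ℂ (RatFun k) c1 = 1 - algebraMap ℂ (RatFun k) c := by
    rw [h1, map_sub, map_one]
  have e2 : algebraMap ℂ (RatFun k) c2 = algebraMap ℂ (RatFun k) c1 / algebraMap ℂ (RatFun k) c := by
    rw [h2, map_div₀, ← h1]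
  apply algHom_ext_adjoin hgen
  rintro z (rfl | hz)
  · show τ c (σ (τ c2 (σ z))) = σ (τ c1 z)
    rw [hs, map_add, map_one, hsτ, hsτ, map_add, map_one, map_mul, map_mul, map_zpow₀, map_zpow₀,
      AlgHom.commutes, AlgHom.commutes, hs, map_add, map_mul, map_zpow₀, AlgHom.commutes, map_add,
      map_one, hsτ, e2]
    simp only [zpow_neg_one]
    have h3 : algebraMap ℂ (RatFun k) c = 1 - algebraMap ℂ (RatFun k) c1 := by rw [e1]; ring
    field_simp
    rw [h3]
    ring
  · obtain ⟨d, hd⟩ := Set.mem_iUnion.mp hz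
    show τ c (σ (τ c2 (σ z))) = σ (τ c1 z)
    rw [hd.1, hd.2, hd.2, map_mul, map_mul, map_zpow₀, map_zpow₀, AlgHom.commutes,
      AlgHom.commutes, hd.1, map_mul, map_zpow₀, AlgHom.commutes, hd.2, e2, div_zpow,
      ← mul_assoc, div_mul_cancel₀ _ (zpow_ne_zero _ hc), hd.1]

lemma pte_gen (hσ : IsPull f σ) (hτ : IsScal τ) (s : RatFun k) (hs : σ s = s + 1)
    (hsτ : ∀ c, τ c s = (algebraMap ℂ (RatFun k) c) ^ (-1 : ℤ) * s)
    (hgen : IntermediateField.adjoin ℂ ({s} ∪ ⋃ d, Hd σ τ d) = ⊤) (z : ℂ) (hz0 : z ≠ 0)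
    (hz1 : z ≠ 1) :
    Gen (fun a => f.DefinedAt (((1 - z) / z) • f.value (z • a))) ∧
    Gen (fun a => f.DefinedAt (z • a)) ∧
    ∀ i, Gen (fun a => (1 - z) * f.value a i = f.value (((1 - z) / z) • f.value (z • a)) i) := by
  have hz1' : 1 - z ≠ 0 := sub_ne_zero.mpr (Ne.symm hz1)
  let c := Units.mk0 z hz0
  let c1 := Units.mk0 (1 - z) hz1'
  let c2 := Units.mk0 ((1 - z) / z) (div_ne_zero hz1' hz0)
  have hhom := pte_hom s hs hsτ hgen c c1 c2 rfl rfl
  let A : RatFun k →ₐ[ℂ] RatFun k := (τ c).comp (σ.comp (τ c2))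
  have hA : ∀ i, A (xx k (RatFun k) i) = algebraMap ℂ (RatFun k) ((1 - z) / z) *
      (τ c (algebraMap _ _ (f.num i)) / τ c (algebraMap _ _ f.den)) := by
    intro i
    show τ c (σ (τ c2 (xx k (RatFun k) i))) = _
    rw [scal_xx hτ, map_mul, AlgHom.commutes, hσ i, co, map_mul, AlgHom.commutes, map_div₀]
    rfl
  have hrep : ∀ i, Rep (A (xx k (RatFun k) i)) (fun a => (((1 - z) / z) • f.value (z • a)) i) := by
    intro i
    rw [hA]
    exact (Rep.const _).mul ((rep_scal hτ c _).div (rep_scal hτ c _))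
  have hrepA : ∀ p : MvPolynomial (Fin k) ℂ, Rep (A (algebraMap _ _ p))
      (fun a => eval (((1 - z) / z) • f.value (z • a)) p) := fun p =>
    rep_hom (γ := fun a => ((1 - z) / z) • f.value (z • a)) hrep p
  refine ⟨?_, ?_, fun i => ?_⟩
  · apply (hrepA f.den).ne_zero
    rw [Ne, map_eq_zero]
    exact am_ne f.den_ne_zero
  · apply (rep_scal hτ c f.den).ne_zero
    rw [Ne, map_eq_zero]
    exact am_ne f.den_ne_zero
  · have e1 : A (co f i) = algebraMap ℂ (RatFun k) (1 - z) * co f i := by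
      have := congrArg (fun F => F (xx k (RatFun k) i)) hhom
      have h3 : τ c (σ (τ c2 (σ (xx k (RatFun k) i)))) = σ (τ c1 (xx k (RatFun k) i)) := this
      rw [hσ i, scal_xx hτ, map_mul, AlgHom.commutes, hσ i] at h3
      exact h3
    have r1 : Rep (A (co f i)) (fun a => f.value (((1 - z) / z) • f.value (z • a)) i) := by
      rw [co, map_div₀]
      exact (hrepA _).div (hrepA _)
    rw [e1] at r1
    exact ((Rep.const (1 - z)).mul (rep_co f i)).unique r1

lemma pte_open (hσ : IsPull f σ) (hτ : IsScal τ) (s : RatFun k) (hs : σ s = s + 1)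
    (hsτ : ∀ c, τ c s = (algebraMap ℂ (RatFun k) c) ^ (-1 : ℤ) * s)
    (hgen : IntermediateField.adjoin ℂ ({s} ∪ ⋃ d, Hd σ τ d) = ⊤) :
    OnOpen (fun q : (Fin k → ℂ) × ℂ => q.2 ≠ 0 ∧ f.DefinedAt q.1 ∧ f.DefinedAt (q.2 • q.1) ∧
    f.DefinedAt (((1 - q.2) / q.2) • f.value (q.2 • q.1)) ∧
    (1 - q.2) • f.value q.1 = f.value (((1 - q.2) / q.2) • f.value (q.2 • q.1))) := by
  let D : Set ((Fin k → ℂ) × ℂ) :=
    {q | q.2 ≠ 0 ∧ q.2 ≠ 1 ∧ eval q.1 f.den ≠ 0 ∧ eval (q.2 • q.1) f.den ≠ 0}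
  have hD : IsOpen D := by
    have h1 : IsOpen {q : (Fin k → ℂ) × ℂ | q.2 ≠ 0} :=
      isOpen_ne_fun continuous_snd continuous_const
    have h1' : IsOpen {q : (Fin k → ℂ) × ℂ | q.2 ≠ 1} :=
      isOpen_ne_fun continuous_snd continuous_const
    have h2 : IsOpen {v : (Fin k → ℂ) × ℂ | eval v.1 f.den ≠ 0} :=
      isOpen_ne_fun ((continuous_eval' _).comp continuous_fst) continuous_const
    have h3 : IsOpen {v : (Fin k → ℂ) × ℂ | eval (v.2 • v.1) f.den ≠ 0} :=
      isOpen_ne_fun ((continuous_eval' _).comp (continuous_snd.smul continuous_fst))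
        continuous_const
    exact h1.inter (h1'.inter (h2.inter h3))
  have hγ : ContinuousOn (fun q : (Fin k → ℂ) × ℂ => ((1 - q.2) / q.2) • f.value (q.2 • q.1)) D := by
    rw [continuousOn_pi]
    intro i
    show ContinuousOn (fun q : (Fin k → ℂ) × ℂ =>
      ((1 - q.2) / q.2) * (eval (q.2 • q.1) (f.num i) / eval (q.2 • q.1) f.den)) D
    refine ContinuousOn.mul ?_ ?_
    · exact ((continuous_const.sub continuous_snd).continuousOn).div continuous_snd.continuousOn
        (fun q hq => hq.1)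
    · exact ((continuous_eval' _).comp (continuous_snd.smul continuous_fst)).continuousOn.div
        ((continuous_eval' _).comp (continuous_snd.smul continuous_fst)).continuousOn
        (fun q hq => hq.2.2.2)
  have hcont : ContinuousOn (fun q : (Fin k → ℂ) × ℂ =>
      eval (((1 - q.2) / q.2) • f.value (q.2 • q.1)) f.den) D :=
    (continuous_eval' f.den).comp_continuousOn hγ
  let V : Set ((Fin k → ℂ) × ℂ) := D ∩ (fun q : (Fin k → ℂ) × ℂ =>
      eval (((1 - q.2) / q.2) • f.value (q.2 • q.1)) f.den) ⁻¹' {0}ᶜ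
  have hV : IsOpen V := hcont.isOpen_inter_preimage hD isOpen_compl_singleton
  refine ⟨V, hV, ?_, ?_⟩
  · obtain ⟨g1, g2, _⟩ := pte_gen hσ hτ s hs hsτ hgen 2 two_ne_zero (by norm_num)
    obtain ⟨U, _, ⟨a, ha⟩, hU⟩ := (((Gen.of_ne f.den_ne_zero).and g1).and g2).open
    obtain ⟨⟨h1, h2⟩, h3⟩ := hU a ha
    exact ⟨(a, 2), ⟨two_ne_zero, by norm_num, h1, h3⟩, h2⟩
  · rintro ⟨a0, z⟩ hq
    obtain ⟨⟨hz0, hz1, h1, h2⟩, h3⟩ := hq
    refine ⟨hz0, h1, h2, h3, ?_⟩
    funext i
    by_contra hne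
    obtain ⟨_, _, g3⟩ := pte_gen hσ hτ s hs hsτ hgen z hz0 hz1
    obtain ⟨r, hr, hr'⟩ := g3 i
    apply hr
    have hcz : Continuous fun a : Fin k → ℂ => ((a, z) : (Fin k → ℂ) × ℂ) :=
      Continuous.prodMk_left z
    have hS : IsOpen {a : Fin k → ℂ | (a, z) ∈ V} := hV.preimage hcz
    have hmaps : Set.MapsTo (fun a : Fin k → ℂ => ((a, z) : (Fin k → ℂ) × ℂ))
        {a : Fin k → ℂ | (a, z) ∈ V} D := fun a ha => ha.1
    have hγz : ContinuousOn (fun a : Fin k → ℂ => ((1 - z) / z) • f.value (z • a))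
        {a : Fin k → ℂ | (a, z) ∈ V} := by
      have h := ContinuousOn.comp hγ hcz.continuousOn hmaps
      simpa only [Function.comp_def] using h
    have hF : ContinuousOn (fun a : Fin k → ℂ => (1 - z) * f.value a i
        - f.value (((1 - z) / z) • f.value (z • a)) i) {a : Fin k → ℂ | (a, z) ∈ V} := by
      have c1 : ContinuousOn (fun a : Fin k → ℂ => eval a (f.num i) / eval a f.den)
          {a : Fin k → ℂ | (a, z) ∈ V} :=
        ContinuousOn.div (continuous_eval' (f.num i)).continuousOn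
          (continuous_eval' f.den).continuousOn (fun a ha => ha.1.2.2.1)
      have c2 : ContinuousOn (fun a : Fin k → ℂ =>
          eval (((1 - z) / z) • f.value (z • a)) (f.num i))
          {a : Fin k → ℂ | (a, z) ∈ V} := (continuous_eval' (f.num i)).comp_continuousOn hγz
      have c3 : ContinuousOn (fun a : Fin k → ℂ =>
          eval (((1 - z) / z) • f.value (z • a)) f.den)
          {a : Fin k → ℂ | (a, z) ∈ V} := (continuous_eval' f.den).comp_continuousOn hγz
      have c4 := ContinuousOn.div c2 c3 (fun a ha => ha.2)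
      exact (continuousOn_const.mul c1).sub c4
    have hW := hF.isOpen_inter_preimage hS (isOpen_compl_singleton (x := (0 : ℂ)))
    apply zero_of_open r _ hW
    · refine ⟨a0, ⟨⟨hz0, hz1, h1, h2⟩, h3⟩, ?_⟩
      intro h0
      exact hne (sub_eq_zero.mp h0)
    · rintro a ⟨_, ha⟩
      by_contra hra
      exact ha (sub_eq_zero.mpr (hr' a hra))

lemma common_poly (A B : Polynomial (RatFun k)) :
    ∃ (c : MvPolynomial (Fin k) ℂ) (A' B' : Polynomial (MvPolynomial (Fin k) ℂ)), c ≠ 0 ∧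
      A'.map (algebraMap _ (RatFun k)) = Polynomial.C (algebraMap _ _ c) * A ∧
      B'.map (algebraMap _ (RatFun k)) = Polynomial.C (algebraMap _ _ c) * B := by
  obtain ⟨a, ha⟩ := IsLocalization.integerNormalization_map_to_map
    (nonZeroDivisors (MvPolynomial (Fin k) ℂ)) A
  obtain ⟨b, hb⟩ := IsLocalization.integerNormalization_map_to_map
    (nonZeroDivisors (MvPolynomial (Fin k) ℂ)) B
  refine ⟨(a : MvPolynomial (Fin k) ℂ) * b, Polynomial.C (b : MvPolynomial (Fin k) ℂ) *
    IsLocalization.integerNormalization (nonZeroDivisors (MvPolynomial (Fin k) ℂ)) A,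
    Polynomial.C (a : MvPolynomial (Fin k) ℂ) *
    IsLocalization.integerNormalization (nonZeroDivisors (MvPolynomial (Fin k) ℂ)) B,
    mul_ne_zero (nonZeroDivisors.coe_ne_zero a) (nonZeroDivisors.coe_ne_zero b), ?_, ?_⟩
  · rw [Polynomial.map_mul, Polynomial.map_C, ha, map_mul, Polynomial.C_mul, Algebra.smul_def]
    show _ * (Polynomial.C (algebraMap _ (RatFun k) (a : MvPolynomial (Fin k) ℂ)) * A) = _
    ring
  · rw [Polynomial.map_mul, Polynomial.map_C, hb, map_mul, Polynomial.C_mul, Algebra.smul_def]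
    show _ * (Polynomial.C (algebraMap _ (RatFun k) (b : MvPolynomial (Fin k) ℂ)) * B) = _
    ring

lemma evz_evalC (a : Fin k → ℂ) (z : ℂ) (g : Polynomial (MvPolynomial (Fin k) ℂ)) :
    eval a (Polynomial.eval (C z) g) = evz a z g := by
  rw [evz, RingHom.comp_apply, Polynomial.coe_mapRingHom, Polynomial.coe_evalRingHom,
    Polynomial.eval_map, ← Polynomial.eval₂_at_apply, eval_C]

lemma bd_coord (hσ : IsPull f σ) (hτ : IsScal τ) (s : RatFun k) (hs : σ s = s + 1)
    (hsτ : ∀ c, τ c s = (algebraMap ℂ (RatFun k) c) ^ (-1 : ℤ) * s)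
    (hgen : IntermediateField.adjoin ℂ ({s} ∪ ⋃ d, Hd σ τ d) = ⊤) (i : Fin k) :
    Gen (fun a => Tendsto (fun z : ℂ => z⁻¹ * f.value (z • a) i) (𝓝[≠] 0) (𝓝 (a i))) := by
  let M : IntermediateField ℂ (RatFun k) := IntermediateField.adjoin ℂ (⋃ d, Hd σ τ d)
  have htop : (IntermediateField.adjoin M {s} : IntermediateField M (RatFun k)) = ⊤ := by
    apply adjoin_over_top
    rw [eq_top_iff, ← hgen, IntermediateField.adjoin_le_iff]
    rintro z (rfl | hz)
    · exact IntermediateField.subset_adjoin _ _ (Or.inr rfl)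
    · exact IntermediateField.subset_adjoin _ _ (Or.inl (IntermediateField.subset_adjoin _ _ hz))
  have hxi : xx k (RatFun k) i ≠ 0 := by
    rw [xx, Ne, FaithfulSMul.algebraMap_eq_zero_iff]; exact MvPolynomial.X_ne_zero i
  obtain ⟨p, q, hpq⟩ := (IntermediateField.mem_adjoin_simple_iff M (xx k (RatFun k) i)).mp
    (by rw [htop]; trivial)
  have hq0 : Polynomial.aeval s q ≠ 0 := by
    intro h; rw [h, div_zero] at hpq; exact hxi hpq
  -- the conjugated pullbacks
  have hM : ∀ (c : ℂˣ) (m : M), τ c (σ (τ c⁻¹ (m : RatFun k))) = m := by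
    intro c
    have hle : M ≤ IntermediateField.adjoin ℂ (⋃ d, Hd σ τ d) := le_refl _
    rintro ⟨m, hm⟩
    induction hm using IntermediateField.adjoin_induction with
    | mem x hx =>
      obtain ⟨d, hd⟩ := Set.mem_iUnion.mp hx
      have hc := algebraMap_unit_ne (K := RatFun k) c
      show τ c (σ (τ c⁻¹ x)) = x
      rw [hd.2, map_mul, map_zpow₀, AlgHom.commutes, hd.1, map_mul, map_zpow₀, AlgHom.commutes,
        hd.2, Units.val_inv_eq_inv_val, map_inv₀, inv_zpow, inv_mul_cancel_left₀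
        (zpow_ne_zero _ hc)]
    | algebraMap r => simp
    | add x y hx hy h1 h2 => simp only [map_add] at *; rw [h1, h2]
    | inv x hx h1 => simp only [map_inv₀] at *; rw [h1]
    | mul x y hx hy h1 h2 => simp only [map_mul] at *; rw [h1, h2]
  have hsz : ∀ c : ℂˣ, τ c (σ (τ c⁻¹ s)) = s + algebraMap ℂ (RatFun k) c := by
    intro c
    have hc := algebraMap_unit_ne (K := RatFun k) c
    rw [hsτ, map_mul, map_zpow₀, AlgHom.commutes, hs, map_mul, map_zpow₀, AlgHom.commutes,
      map_add, map_one, hsτ, Units.val_inv_eq_inv_val, map_inv₀, zpow_neg_one, inv_inv,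
      zpow_neg_one, mul_add, mul_one, mul_inv_cancel_left₀ hc]
  have hpoly : ∀ (c : ℂˣ) (r : Polynomial M), τ c (σ (τ c⁻¹ (Polynomial.aeval s r)))
      = Polynomial.aeval (s + algebraMap ℂ (RatFun k) c) r := by
    intro c r
    rw [Polynomial.aeval_eq_sum_range, Polynomial.aeval_eq_sum_range, map_sum, map_sum, map_sum]
    refine Finset.sum_congr rfl fun j _ => ?_
    rw [Algebra.smul_def, Algebra.smul_def, map_mul, map_mul, map_mul, map_pow, map_pow, map_pow,
      hsz]
    congr 1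
    exact hM c _
  have hkey : ∀ c : ℂˣ, τ c (algebraMap _ _ (f.num i)) *
      Polynomial.aeval (s + algebraMap ℂ (RatFun k) c) q
      = algebraMap ℂ (RatFun k) c * τ c (algebraMap _ _ f.den) *
        Polynomial.aeval (s + algebraMap ℂ (RatFun k) c) p := by
    intro c
    have hc := algebraMap_unit_ne (K := RatFun k) c
    have h1 := congrArg (fun z => τ c (σ (τ c⁻¹ z))) hpq
    simp only [map_div₀] at h1
    rw [hpoly, hpoly, scal_xx hτ, map_mul, AlgHom.commutes, hσ i, map_mul, AlgHom.commutes, co,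
      map_div₀] at h1
    have hq1 : Polynomial.aeval (s + algebraMap ℂ (RatFun k) c) q ≠ 0 := by
      rw [← hpoly]
      intro h
      have := (map_eq_zero (τ c)).mp h
      have := (map_eq_zero σ).mp this
      exact hq0 ((map_eq_zero (τ c⁻¹)).mp this)
    have hd : τ c (algebraMap _ _ f.den) ≠ 0 := by
      intro h
      exact am_ne (K := RatFun k) f.den_ne_zero ((map_eq_zero (τ c)).mp h)
    rw [Units.val_inv_eq_inv_val, map_inv₀] at h1
    field_simp at h1
    linear_combination h1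
  -- clear denominators
  obtain ⟨c0, A', B', hc0, hA', hB'⟩ := common_poly
    ((p.map (algebraMap M (RatFun k))).comp (Polynomial.C s + Polynomial.X))
    ((q.map (algebraMap M (RatFun k))).comp (Polynomial.C s + Polynomial.X))
  have hc0K := am_ne (K := RatFun k) hc0
  have hevC : ∀ (z : ℂ) (G' : Polynomial (MvPolynomial (Fin k) ℂ)),
      algebraMap _ (RatFun k) (Polynomial.eval (C z) G')
      = Polynomial.eval (algebraMap ℂ (RatFun k) z) (G'.map (algebraMap _ (RatFun k))) := by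
    intro z G'
    rw [Polynomial.eval_map, IsScalarTower.algebraMap_apply ℂ (MvPolynomial (Fin k) ℂ) (RatFun k),
      Polynomial.eval₂_at_apply, MvPolynomial.algebraMap_eq]
  have hev : ∀ (z : ℂ) (r : Polynomial M) (G' : Polynomial (MvPolynomial (Fin k) ℂ)),
      G'.map (algebraMap _ (RatFun k)) = Polynomial.C (algebraMap _ _ c0) *
        ((r.map (algebraMap M (RatFun k))).comp (Polynomial.C s + Polynomial.X)) →
      algebraMap _ (RatFun k) (Polynomial.eval (C z) G') = algebraMap _ _ c0 *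
        Polynomial.aeval (s + algebraMap ℂ (RatFun k) z) r := by
    intro z r G' hG
    rw [hevC, hG, Polynomial.eval_mul, Polynomial.eval_C, Polynomial.eval_comp,
      Polynomial.eval_add, Polynomial.eval_C, Polynomial.eval_X, Polynomial.aeval_def,
      Polynomial.eval_map]
  have hB0 : B'.coeff 0 ≠ 0 := by
    intro h
    have h1 := hev 0 q B' hB'
    rw [map_zero (algebraMap ℂ (RatFun k)), add_zero, map_zero, ← Polynomial.coeff_zero_eq_eval_zero,
      h, map_zero] at h1
    exact (mul_ne_zero hc0K hq0) h1.symm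
  have hA0 : A'.coeff 0 = X i * B'.coeff 0 := by
    have h1 := hev 0 q B' hB'
    have h2 := hev 0 p A' hA'
    rw [map_zero (algebraMap ℂ (RatFun k)), add_zero, map_zero,
      ← Polynomial.coeff_zero_eq_eval_zero] at h1 h2
    apply IsFractionRing.injective (MvPolynomial (Fin k) ℂ) (RatFun k)
    rw [map_mul, h1, h2]
    have h3 : Polynomial.aeval s p = xx k (RatFun k) i * Polynomial.aeval s q := by
      rw [eq_div_iff hq0] at hpq; exact hpq.symm
    rw [h3, xx]; ring
  have hid : ∀ (a : Fin k → ℂ) (z : ℂ), z ≠ 0 →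
      eval (z • a) (f.num i) * evz a z B' = z * eval (z • a) f.den * evz a z A' := by
    intro a z hz
    have h1 := hkey (Units.mk0 z hz)
    rw [hτ, hτ, Units.val_mk0] at h1
    have h2 := hev z q B' hB'
    have h3 := hev z p A' hA'
    have h4 : scaleR z (f.num i) * Polynomial.eval (C z) B'
        = C z * scaleR z f.den * Polynomial.eval (C z) A' := by
      apply IsFractionRing.injective (MvPolynomial (Fin k) ℂ) (RatFun k)
      rw [map_mul, map_mul, map_mul, h2, h3, ← MvPolynomial.algebraMap_eq,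
        ← IsScalarTower.algebraMap_apply]
      linear_combination (algebraMap _ (RatFun k) c0) * h1
    have h5 := congrArg (eval a) h4
    rw [map_mul, map_mul, map_mul, eval_scaleR, eval_scaleR, eval_C, evz_evalC, evz_evalC] at h5
    exact h5
  obtain ⟨m, Qh, hQh, hQh0⟩ := exists_trailing _ (rho_ne_zero f.den_ne_zero)
  refine ((Gen.of_ne hB0).and (Gen.of_ne hQh0)).mono fun a ha => ?_
  have hcont : ∀ G' : Polynomial (MvPolynomial (Fin k) ℂ),
      Tendsto (fun z : ℂ => evz a z G') (𝓝 0) (𝓝 (evz a 0 G')) := fun G' =>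
    ((evz_continuous G').comp (Continuous.prodMk_right a)).tendsto 0
  have hB1 : evz a 0 B' ≠ 0 := by rw [evz_zero]; exact ha.1
  have hlim : Tendsto (fun z : ℂ => evz a z A' / evz a z B') (𝓝[≠] 0) (𝓝 (a i)) := by
    have h1 := ((hcont A').div (hcont B') hB1).mono_left
      (nhdsWithin_le_nhds (s := {0}ᶜ))
    have h2 : evz a 0 A' / evz a 0 B' = a i := by
      rw [evz_zero, evz_zero, hA0, map_mul, eval_X, mul_div_assoc, div_self ha.1, mul_one]
    rw [h2] at h1
    exact h1
  refine hlim.congr' ?_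
  have hne := ((hcont B').eventually_ne hB1).filter_mono (nhdsWithin_le_nhds (s := {0}ᶜ))
  filter_upwards [eventually_mem_nhdsWithin, small_ne hQh ha.2, hne] with z hz h1 h2
  have hz : z ≠ 0 := hz
  have h3 := hid a z hz
  show evz a z A' / evz a z B' = z⁻¹ * (eval (z • a) (f.num i) / eval (z • a) f.den)
  field_simp
  linear_combination -h3

theorem flow_of_package (hσ : IsPull f σ) (hτ : IsScal τ) (s : RatFun k) (hs : σ s = s + 1)
    (hsτ : ∀ c, τ c s = (algebraMap ℂ (RatFun k) c) ^ (-1 : ℤ) * s)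
    (hgen : IntermediateField.adjoin ℂ ({s} ∪ ⋃ d, Hd σ τ d) = ⊤) : IsFlow f := by
  refine ⟨pte_open hσ hτ s hs hsτ hgen, ?_⟩
  have := Gen.forall (fun i => bd_coord hσ hτ s hs hsτ hgen i)
  obtain ⟨U, hUo, hUn, hU⟩ := this.open
  refine ⟨U, hUo, hUn, fun a ha => ?_⟩
  exact tendsto_pi_nhds.mpr (fun i => hU a ha i)

end FlowOf

end Pool.Agent.Helper460.Flow
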