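import Pool.Agent.Helper460.Cls6

set_option autoImplicit false
set_option linter.unusedSectionVars false

namespace Pool.Agent.Helper460.Flow

open MvPolynomial Filter Topology Pool.Agent.Helper460.ProjFlow

section Final

variable {k : ℕ}

lemma exists_scal (k : ℕ) : ∃ τ : ℂˣ → RatFun k →ₐ[ℂ] RatFun k, IsScal τ :=
  exists_tau k (RatFun k)

/-- transport of homogeneous invariants along an equivalence of flows -/
lemma map_Hd {σ σ' : RatFun k →ₐ[ℂ] RatFun k} {τ : ℂˣ → RatFun k →ₐ[ℂ] RatFun k}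
    (θ : RatFun k ≃ₐ[ℂ] RatFun k) (h1 : ∀ c z, θ (τ c z) = τ c (θ z))
    (h2 : ∀ z, θ (σ z) = σ' (θ z)) (d : ℤ) (z : RatFun k) :
    z ∈ Hd σ τ d ↔ θ z ∈ Hd σ' τ d := by
  constructor
  · rintro ⟨ha, hb⟩
    refine ⟨?_, fun c => ?_⟩
    · show σ' (θ z) = θ z
      rw [← h2, show σ z = z from ha]
    · rw [← h1, hb c, map_mul, map_zpow₀, AlgEquiv.commutes]
  · rintro ⟨ha, hb⟩
    refine ⟨?_, fun c => ?_⟩
    · show σ z = z
      apply θ.injective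
      rw [h2]; exact ha
    · apply θ.injective
      rw [h1, hb c, map_mul, map_zpow₀, AlgEquiv.commutes]

theorem conj_iff {f g : RatMap k} (hf : IsFlow f) (hg : IsFlow g) (hf' : ¬ f.IsIdentity)
    (hg' : ¬ g.IsIdentity) :
    Conjugate f g ↔ invDegrees f = invDegrees g ∧ Nonempty (invField f ≃ₐ[ℂ] invField g) := by
  obtain ⟨τ, hτ⟩ := exists_scal k
  obtain ⟨σ, s, hσ, hs, hsτ, hgen⟩ := flow_package hf hf' hτ
  obtain ⟨σ', s', hσ', hs', hsτ', hgen'⟩ := flow_package hg hg' hτ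
  rw [invDegrees_eq hσ hτ, invDegrees_eq hσ' hτ, invField_eq hσ hτ, invField_eq hσ' hτ]
  constructor
  · intro h
    obtain ⟨θ, h1, h2⟩ := conj_to_field hσ hσ' hτ h
    have key := map_Hd θ h1 h2
    refine ⟨?_, ?_⟩
    · ext d
      constructor
      · rintro ⟨z, hz0, hz⟩
        exact ⟨θ z, (map_ne_zero θ).mpr hz0, (key d z).mp hz⟩
      · rintro ⟨z, hz0, hz⟩
        refine ⟨θ.symm z, (map_ne_zero θ.symm).mpr hz0, (key d _).mpr ?_⟩
        rw [AlgEquiv.apply_symm_apply]; exact hz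
    · apply equiv_of_range ((θ : RatFun k →ₐ[ℂ] RatFun k).comp (L0 σ τ).val) (L0 σ' τ).val
      ext z
      constructor
      · rintro ⟨⟨m, hm⟩, rfl⟩
        exact ⟨⟨θ m, (key 0 m).mp hm⟩, rfl⟩
      · rintro ⟨⟨m, hm⟩, rfl⟩
        refine ⟨⟨θ.symm m, (key 0 _).mpr ?_⟩, ?_⟩
        · rw [AlgEquiv.apply_symm_apply]; exact hm
        · show θ (θ.symm m) = m
          rw [AlgEquiv.apply_symm_apply]
  · rintro ⟨hdeg, ⟨e⟩⟩
    obtain ⟨θ, h1, h2⟩ := equiv_of_data σ σ' τ s s' hs hsτ hgen hs' hsτ' hgen' hdeg e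
    exact field_to_conj hσ hσ' hτ θ h1 h2

/-- existence of flows from field data -/
lemma flow_exists {τ : ℂˣ → RatFun k →ₐ[ℂ] RatFun k} (hτ : IsScal τ)
    (σ : RatFun k →ₐ[ℂ] RatFun k) (s : RatFun k) (hs : σ s = s + 1)
    (hsτ : ∀ c, τ c s = (algebraMap ℂ (RatFun k) c) ^ (-1 : ℤ) * s)
    (hgen : IntermediateField.adjoin ℂ ({s} ∪ ⋃ d, Hd σ τ d) = ⊤) :
    ∃ f : RatMap k, IsPull f σ ∧ IsFlow f ∧ ¬ f.IsIdentity := by
  obtain ⟨f, hf⟩ := exists_ratMap (fun i => σ (xx k _ i))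
  have hσ : IsPull f σ := fun i => (hf i).symm
  refine ⟨f, hσ, flow_of_package hσ hτ s hs hsτ hgen, ?_⟩
  intro hid
  have : σ = AlgHom.id ℂ _ := by
    apply algHom_ext_xx (k := k)
    intro i
    rw [hσ i, co, hid i, map_mul, mul_div_assoc, div_self (am_ne f.den_ne_zero), mul_one]
    rfl
  rw [this] at hs
  have h3 : (0 : RatFun k) = 1 := by
    have : s + 0 = s + 1 := by rw [add_zero]; exact hs
    exact add_left_cancel this
  exact zero_ne_one h3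

theorem classification (n : ℕ) :
    (∀ f g : RatMap (n + 1), IsFlow f → IsFlow g → ¬ f.IsIdentity → ¬ g.IsIdentity →
      (Conjugate f g ↔
        invDegrees f = invDegrees g ∧ Nonempty (invField f ≃ₐ[ℂ] invField g))) ∧
    (∀ f : RatMap (n + 1), IsFlow f → ¬ f.IsIdentity →
      (invDegrees f = {0} ∧ Nonempty (invField f ≃ₐ[ℂ] RatFun n)) ∨
      ∃ N : ℕ, 1 ≤ N ∧ invDegrees f = {d | (N : ℤ) ∣ d} ∧
        Nonempty (RatFunc (invField f) ≃ₐ[ℂ] RatFun n)) ∧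
    (∃ f : RatMap (n + 1), IsFlow f ∧ ¬ f.IsIdentity ∧ invDegrees f = {0}) ∧
    (∀ (N : ℕ) (E : Type) [Field E] [Algebra ℂ E], 1 ≤ N →
      Nonempty (RatFunc E ≃ₐ[ℂ] RatFun n) →
      ∃ f : RatMap (n + 1), IsFlow f ∧ ¬ f.IsIdentity ∧ invDegrees f = {d | (N : ℤ) ∣ d} ∧
        Nonempty (invField f ≃ₐ[ℂ] E)) := by
  obtain ⟨τ, hτ⟩ := exists_scal (n + 1)
  have hx : ∀ i c, τ c (xx (n + 1) (RatFun (n + 1)) i)
      = algebraMap ℂ (RatFun (n + 1)) c * xx (n + 1) (RatFun (n + 1)) i := fun i c => scal_xx hτ i c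
  refine ⟨fun f g hf hg hf' hg' => conj_iff hf hg hf' hg', ?_, ?_, ?_⟩
  · intro f hf hf'
    obtain ⟨σ, s, hσ, hs, hsτ, hgen⟩ := flow_package hf hf' hτ
    rw [invDegrees_eq hσ hτ, invField_eq hσ hτ]
    exact part_two σ τ (RatFun n) hx s hs hsτ hgen
  · obtain ⟨σ, s, hs, hsτ, hgen, hdeg⟩ := realize_zero (K := RatFun (n + 1)) τ hx
    obtain ⟨f, hσ, hf, hf'⟩ := flow_exists hτ σ s hs hsτ hgen
    exact ⟨f, hf, hf', by rw [invDegrees_eq hσ hτ]; exact hdeg⟩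
  · intro N E _ _ hN ⟨e⟩
    obtain ⟨σ, s, hs, hsτ, hgen, hdeg, hE⟩ := realize_pos (K := RatFun (n + 1)) τ hx e N
      (Nat.one_le_iff_ne_zero.mp hN)
    obtain ⟨f, hσ, hf, hf'⟩ := flow_exists hτ σ s hs hsτ hgen
    refine ⟨f, hf, hf', by rw [invDegrees_eq hσ hτ]; exact hdeg, ?_⟩
    rw [invField_eq hσ hτ]
    exact hE

end Final

end Pool.Agent.Helper460.Flow
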