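import Mathlib

set_option autoImplicit false

namespace Pool.Agent.Helper460.Flow

open Polynomial IntermediateField

/-- homogenised substitution: `b ^ D * c (a / b)` -/
noncomputable def cl {F R : Type*} [CommRing F] [CommRing R] [Algebra F R] (a b : R) (D : ℕ)
    (c : F[X]) : R := ∑ j ∈ Finset.range (D + 1), algebraMap F R (c.coeff j) * a ^ j * b ^ (D - j)

lemma map_cl {F R L : Type*} [Field F] [CommRing R] [Algebra F R] [Field L] [Algebra F L]
    (f : R →ₐ[F] L) (a b : R) (D : ℕ) (c : F[X]) (hD : c.natDegree ≤ D) (hb : f b ≠ 0) :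
    f (cl a b D c) = (f b) ^ D * aeval (f a / f b) c := by
  rw [cl, map_sum, aeval_eq_sum_range' (Nat.lt_succ_of_le hD), Finset.mul_sum]
  refine Finset.sum_congr rfl fun j hj => ?_
  have hj' : j ≤ D := Nat.lt_succ_iff.mp (Finset.mem_range.mp hj)
  rw [map_mul, map_mul, AlgHom.commutes, map_pow, map_pow, Algebra.smul_def, div_pow]
  have : (f b) ^ D = (f b) ^ j * (f b) ^ (D - j) := by rw [← pow_add, Nat.add_sub_cancel' hj']
  rw [this]
  have hbj : (f b) ^ j ≠ 0 := pow_ne_zero _ hb
  field_simp

section GI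

variable {F : Type*} [Field F] [Infinite F] {n : ℕ}

lemma exists_two_points {K : Type*} [Field K] [Algebra (MvPolynomial (Fin n) F) K]
    [IsFractionRing (MvPolynomial (Fin n) F) K] [Algebra F K]
    [IsScalarTower F (MvPolynomial (Fin n) F) K] (a b : MvPolynomial (Fin n) F) (hb : b ≠ 0)
    (hab : (algebraMap _ K a / algebraMap _ K b) ∉ (⊥ : IntermediateField F K)) :
    ∃ P1 P2 : Fin n → F, MvPolynomial.eval P1 b ≠ 0 ∧ MvPolynomial.eval P2 b ≠ 0 ∧
      MvPolynomial.eval P1 a * MvPolynomial.eval P2 b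
        ≠ MvPolynomial.eval P2 a * MvPolynomial.eval P1 b := by
  by_contra hcon
  push Not at hcon
  obtain ⟨P0, hP0⟩ : ∃ P0, MvPolynomial.eval P0 b ≠ 0 := by
    by_contra h
    push Not at h
    exact hb (MvPolynomial.funext fun x => by rw [h x, map_zero])
  have h1 : (MvPolynomial.C (MvPolynomial.eval P0 b) * a
      - MvPolynomial.C (MvPolynomial.eval P0 a) * b) * b = 0 := by
    apply MvPolynomial.funext
    intro x
    by_cases hx : MvPolynomial.eval x b = 0
    · simp [hx]
    · have := hcon x P0 hx hP0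
      simp only [map_mul, map_sub, MvPolynomial.eval_C, map_zero]
      rw [mul_comm (MvPolynomial.eval P0 b), this, sub_self, zero_mul]
  have h2 : MvPolynomial.C (MvPolynomial.eval P0 b) * a
      = MvPolynomial.C (MvPolynomial.eval P0 a) * b := by
    rcases mul_eq_zero.mp h1 with h | h
    · exact sub_eq_zero.mp h
    · exact absurd h hb
  apply hab
  rw [IntermediateField.mem_bot]
  refine ⟨MvPolynomial.eval P0 a / MvPolynomial.eval P0 b, ?_⟩
  have hbK : algebraMap (MvPolynomial (Fin n) F) K b ≠ 0 := by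
    rw [Ne, FaithfulSMul.algebraMap_eq_zero_iff]; exact hb
  have h3 := congrArg (algebraMap (MvPolynomial (Fin n) F) K) h2
  rw [map_mul, map_mul, ← MvPolynomial.algebraMap_eq, ← IsScalarTower.algebraMap_apply,
    ← IsScalarTower.algebraMap_apply] at h3
  have hP0K : algebraMap F K (MvPolynomial.eval P0 b) ≠ 0 := by
    rw [Ne, FaithfulSMul.algebraMap_eq_zero_iff]; exact hP0
  rw [map_div₀, div_eq_div_iff hP0K hbK]
  rw [← h3]; ring

/-- A field extension of transcendence degree one inside `F(x_1..x_n)` is generated by one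
element. -/
theorem gordan_luroth {K : Type*} [Field K] [Algebra (MvPolynomial (Fin n) F) K]
    [IsFractionRing (MvPolynomial (Fin n) F) K] [Algebra F K]
    [IsScalarTower F (MvPolynomial (Fin n) F) K] (E : IntermediateField F K)
    (hE : ∀ h ∈ E, Transcendental F h → ∀ g ∈ E, IsAlgebraic (Algebra.adjoin F {h}) g) :
    ∃ p : K, E = adjoin F {p} := by
  by_cases hbot : E = ⊥
  · exact ⟨0, by rw [hbot, adjoin_zero]⟩
  obtain ⟨h, hhE, hh⟩ : ∃ h ∈ E, h ∉ (⊥ : IntermediateField F K) := by
    by_contra hcon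
    push Not at hcon
    exact hbot (le_antisymm hcon bot_le)
  obtain ⟨a, b, hb0, hab⟩ := IsFractionRing.div_surjective (A := MvPolynomial (Fin n) F) h
  have hb : b ≠ 0 := nonZeroDivisors.ne_zero hb0
  obtain ⟨P1, P2, hP1, hP2, hP12⟩ := exists_two_points (K := K) a b hb (by rw [hab]; exact hh)
  let ℓ : MvPolynomial (Fin n) F →ₐ[F] F[X] :=
    MvPolynomial.aeval (fun i => C (P1 i) + X * C (P2 i - P1 i))
  have hℓ0 : ∀ p, (ℓ p).eval 0 = MvPolynomial.eval P1 p := by
    intro p
    have : (Polynomial.evalRingHom 0).comp (ℓ : MvPolynomial (Fin n) F →+* F[X])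
        = MvPolynomial.eval P1 := by
      apply MvPolynomial.ringHom_ext
      · intro r; simp [ℓ, ← MvPolynomial.algebraMap_eq]
      · intro i; simp [ℓ]
    exact congrArg (fun f => f p) this
  have hℓ1 : ∀ p, (ℓ p).eval 1 = MvPolynomial.eval P2 p := by
    intro p
    have : (Polynomial.evalRingHom 1).comp (ℓ : MvPolynomial (Fin n) F →+* F[X])
        = MvPolynomial.eval P2 := by
      apply MvPolynomial.ringHom_ext
      · intro r; simp [ℓ, ← MvPolynomial.algebraMap_eq]
      · intro i; simp [ℓ]
    exact congrArg (fun f => f p) this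
  let ℓ' : MvPolynomial (Fin n) F →ₐ[F] RatFunc F :=
    (IsScalarTower.toAlgHom F F[X] (RatFunc F)).comp ℓ
  have hℓ' : ∀ p, ℓ' p = algebraMap F[X] (RatFunc F) (ℓ p) := fun p => rfl
  have hℓ'0 : ∀ p, ℓ' p = 0 ↔ ℓ p = 0 := by
    intro p; rw [hℓ', FaithfulSMul.algebraMap_eq_zero_iff]
  have hℓb : ℓ' b ≠ 0 := by
    rw [Ne, hℓ'0]; intro h0
    apply hP1; rw [← hℓ0, h0, eval_zero]
  have hbar : Transcendental F (ℓ' a / ℓ' b) := by
    apply RatFunc.transcendental_of_ne_C
    rintro ⟨c, hc⟩
    rw [div_eq_iff hℓb, hℓ', hℓ', ← RatFunc.algebraMap_C, ← map_mul] at hc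
    have hc' := IsFractionRing.injective F[X] (RatFunc F) hc
    apply hP12
    have e0 := congrArg (eval 0) hc'
    have e1 := congrArg (eval 1) hc'
    rw [eval_mul, eval_C, hℓ0, hℓ0] at e0
    rw [eval_mul, eval_C, hℓ1, hℓ1] at e1
    rw [e0, e1]; ring
  let ι : MvPolynomial (Fin n) F →ₐ[F] K := IsScalarTower.toAlgHom F _ K
  have hι : ∀ p, ι p = algebraMap _ K p := fun p => rfl
  have hιb : ι b ≠ 0 := by
    rw [hι, Ne, FaithfulSMul.algebraMap_eq_zero_iff]; exact hb
  have hhT : Transcendental F h := by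
    rintro ⟨c, hc0, hc⟩
    apply hbar
    refine ⟨c, hc0, ?_⟩
    have e1 := map_cl ι a b c.natDegree c le_rfl hιb
    rw [hι a, hι b, hab, hc, mul_zero, hι, FaithfulSMul.algebraMap_eq_zero_iff] at e1
    have e2 := map_cl ℓ' a b c.natDegree c le_rfl hℓb
    rw [e1, map_zero] at e2
    exact (mul_eq_zero.mp e2.symm).resolve_left (pow_ne_zero _ hℓb)
  -- denominators of elements of E do not vanish on the line
  have hden : ∀ g ∈ E, ℓ' (IsFractionRing.den (MvPolynomial (Fin n) F) g) ≠ 0 := by
    intro g hg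
    obtain ⟨p, hp0, hp⟩ := hE h hhE hhT g hg
    have hc : ∀ i, ∃ c : F[X], aeval h c = (p.coeff i : K) := by
      intro i
      have hmem : (p.coeff i : K) ∈ (aeval h : F[X] →ₐ[F] K).range := by
        rw [← Algebra.adjoin_singleton_eq_range_aeval]; exact (p.coeff i).2
      obtain ⟨c, hc⟩ := hmem
      exact ⟨c, hc⟩
    choose c hc using hc
    let D := (Finset.range (p.natDegree + 1)).sup fun i => (c i).natDegree
    have hD : ∀ i ∈ Finset.range (p.natDegree + 1), (c i).natDegree ≤ D :=
      fun i hi => Finset.le_sup (f := fun i => (c i).natDegree) hi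
    let P : (MvPolynomial (Fin n) F)[X] :=
      ∑ i ∈ Finset.range (p.natDegree + 1), C (cl a b D (c i)) * X ^ i
    have hPcoeff : P.coeff p.natDegree = cl a b D (c p.natDegree) := by
      simp only [P, finsetSum_coeff, coeff_C_mul_X_pow]
      rw [Finset.sum_eq_single p.natDegree]
      · simp
      · intro i _ hi; simp [hi.symm]
      · intro h; simp at h
    have hcn : c p.natDegree ≠ 0 := by
      intro h0
      have := hc p.natDegree
      rw [h0, map_zero] at this
      apply hp0
      rw [← leadingCoeff_eq_zero, leadingCoeff]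
      exact Subtype.ext this.symm
    have hlast : p.natDegree ∈ Finset.range (p.natDegree + 1) := by simp
    have hℓlead : ℓ' (cl a b D (c p.natDegree)) ≠ 0 := by
      rw [map_cl ℓ' a b D _ (hD _ hlast) hℓb]
      refine mul_ne_zero (pow_ne_zero _ hℓb) ?_
      intro h0
      exact hbar ⟨_, hcn, h0⟩
    have hPne : P.coeff p.natDegree ≠ 0 := by
      rw [hPcoeff]; intro h0; rw [h0, map_zero] at hℓlead; exact hℓlead rfl
    have hPdeg : P.natDegree = p.natDegree := by
      apply le_antisymm
      · apply natDegree_sum_le_of_forall_le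
        intro i hi
        refine (natDegree_C_mul_X_pow_le _ _).trans ?_
        simpa [Nat.lt_succ_iff] using hi
      · exact le_natDegree_of_ne_zero hPne
    have hroot : aeval g P = 0 := by
      have h1 : aeval g P = (ι b) ^ D * aeval g p := by
        simp only [P, map_sum, map_mul, aeval_C, map_pow, aeval_X]
        rw [aeval_eq_sum_range, Finset.mul_sum]
        refine Finset.sum_congr rfl fun i hi => ?_
        rw [← hι, map_cl ι a b D _ (hD i hi) hιb, hι a, hι b, hab, hc i]
        rw [Subalgebra.smul_def, smul_eq_mul]; ring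
      rw [h1, hp, mul_zero]
    have hdvd := den_dvd_of_is_root hroot
    rw [leadingCoeff, hPdeg, hPcoeff] at hdvd
    intro h0
    obtain ⟨w, hw⟩ := hdvd
    rw [hw, map_mul, h0, zero_mul] at hℓlead
    exact hℓlead rfl
  -- value function
  let val : K → RatFunc F := fun z => ℓ' (IsFractionRing.num (MvPolynomial (Fin n) F) z)
    / ℓ' (IsFractionRing.den (MvPolynomial (Fin n) F) z)
  have hval : ∀ z ∈ E, ∀ x y : MvPolynomial (Fin n) F, ℓ' y ≠ 0 → z = ι x / ι y →
      val z = ℓ' x / ℓ' y := by
    intro z hz x y hy hxy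
    have hy0 : ι y ≠ 0 := by
      rw [hι, Ne, FaithfulSMul.algebraMap_eq_zero_iff]; rintro rfl; rw [map_zero] at hy; exact hy rfl
    have hd := hden z hz
    have hd0 : ι (IsFractionRing.den (MvPolynomial (Fin n) F) z) ≠ 0 := by
      rw [hι, Ne, FaithfulSMul.algebraMap_eq_zero_iff]; exact nonZeroDivisors.coe_ne_zero _
    have h1 := IsFractionRing.mk'_num_den' (A := MvPolynomial (Fin n) F) z
    rw [← hι, ← hι] at h1
    rw [← h1, div_eq_div_iff hd0 hy0, ← map_mul, ← map_mul] at hxy
    have h2 := IsFractionRing.injective (MvPolynomial (Fin n) F) K hxy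
    show ℓ' _ / ℓ' _ = _
    rw [div_eq_div_iff hd hy, ← map_mul, ← map_mul, h2]
  have hrep : ∀ z ∈ E, ∃ x y : MvPolynomial (Fin n) F, ℓ' y ≠ 0 ∧ z = ι x / ι y := by
    intro z hz
    exact ⟨_, _, hden z hz, (IsFractionRing.mk'_num_den' (A := MvPolynomial (Fin n) F) z).symm⟩
  have hιne : ∀ y, ℓ' y ≠ 0 → ι y ≠ 0 := by
    intro y hy
    rw [hι, Ne, FaithfulSMul.algebraMap_eq_zero_iff]; rintro rfl; rw [map_zero] at hy; exact hy rfl
  let f : E →ₐ[F] RatFunc F :=
    { toFun := fun z => val z
      map_one' := by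
        show val ((1 : E) : K) = 1
        rw [hval _ (1 : E).2 1 1 (by simp) (by simp)]; simp
      map_mul' := by
        rintro ⟨z, hz⟩ ⟨w, hw⟩
        obtain ⟨x, y, hy, hxy⟩ := hrep z hz
        obtain ⟨x', y', hy', hxy'⟩ := hrep w hw
        show val (z * w) = val z * val w
        rw [hval z hz x y hy hxy, hval w hw x' y' hy' hxy',
          hval (z * w) (E.mul_mem hz hw) (x * x') (y * y') (by rw [map_mul]; exact mul_ne_zero hy hy')
            (by rw [hxy, hxy', map_mul, map_mul, div_mul_div_comm])]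
        rw [map_mul, map_mul, div_mul_div_comm]
      map_zero' := by
        show val ((0 : E) : K) = 0
        rw [hval _ (0 : E).2 0 1 (by simp) (by simp)]; simp
      map_add' := by
        rintro ⟨z, hz⟩ ⟨w, hw⟩
        obtain ⟨x, y, hy, hxy⟩ := hrep z hz
        obtain ⟨x', y', hy', hxy'⟩ := hrep w hw
        show val (z + w) = val z + val w
        rw [hval z hz x y hy hxy, hval w hw x' y' hy' hxy',
          hval (z + w) (E.add_mem hz hw) (x * y' + y * x') (y * y')
            (by rw [map_mul]; exact mul_ne_zero hy hy')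
            (by rw [hxy, hxy', map_mul, map_add, map_mul, map_mul,
              div_add_div _ _ (hιne y hy) (hιne y' hy')])]
        rw [map_mul, map_add, map_mul, map_mul, div_add_div _ _ hy hy']
      commutes' := by
        intro r
        show val ((algebraMap F E r : E) : K) = _
        rw [hval _ (algebraMap F E r).2 (algebraMap F _ r) 1 (by simp) ?_]
        · simp only [AlgHom.commutes, map_one, div_one]
        · rw [AlgHom.commutes, map_one, div_one]; rfl }
  have hgen := RatFunc.Luroth.eq_adjoin_generator (E := f.fieldRange)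
  set γ := RatFunc.Luroth.generator f.fieldRange with hγ
  have hγmem : γ ∈ f.fieldRange := by
    rw [hgen]; exact mem_adjoin_simple_self F γ
  obtain ⟨p, hp⟩ := hγmem
  refine ⟨(p : K), le_antisymm ?_ ?_⟩
  · intro z hz
    have h1 : f ⟨z, hz⟩ ∈ adjoin F {γ} := by rw [← hgen]; exact ⟨_, rfl⟩
    obtain ⟨r, t, hrt⟩ := (mem_adjoin_simple_iff F _).mp h1
    have h2 : f ⟨z, hz⟩ = f (aeval p r / aeval p t) := by
      rw [hrt, map_div₀, ← hp]
      congr 1
      · exact (aeval_algHom_apply f p r)
      · exact (aeval_algHom_apply f p t)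
    have h3 := f.injective h2
    have h4 := congrArg (fun w : E => (w : K)) h3
    rw [mem_adjoin_simple_iff]
    refine ⟨r, t, ?_⟩
    have h5 : ∀ u : F[X], ((aeval p u : E) : K) = aeval (p : K) u := by
      intro u
      exact (aeval_algHom_apply E.val p u).symm
    rw [← h5, ← h5]
    simpa using h4
  · rw [adjoin_le_iff]
    rintro _ rfl
    exact p.2

end GI

end Pool.Agent.Helper460.Flow
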