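import Pool.Agent.Helper460.FlowDeg
import Pool.Agent.Helper460.Gordan

set_option autoImplicit false
set_option linter.unusedSectionVars false

namespace Pool.Agent.Helper460.Flow

open Polynomial IntermediateField

section Indep

variable {K : Type*} [Field K] [Algebra ℂ K] (σ : K →ₐ[ℂ] K) (τ : ℂˣ → K →ₐ[ℂ] K)

lemma sigma_pow {s : K} (hs : σ s = s + 1) (n : ℕ) : (σ ^ n) s = s + n := by
  induction n with
  | zero => simp
  | succ n ih =>
    rw [pow_succ', AlgHom.mul_apply, ih, map_add, hs, map_natCast]; push_cast; ring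

lemma sigma_pow_fix {f : K} (hf : σ f = f) (n : ℕ) : (σ ^ n) f = f := by
  induction n with
  | zero => simp
  | succ n ih => rw [pow_succ', AlgHom.mul_apply, ih, hf]

/-- two to the n as a unit -/
noncomputable def tw (n : ℕ) : ℂˣ := (Units.mk0 (2 : ℂ) two_ne_zero) ^ n

lemma tw_val (n : ℕ) : algebraMap ℂ K (tw n : ℂ) = 2 ^ n := by
  simp only [tw, Units.val_pow_eq_pow_val, Units.val_mk0, map_pow]
  rw [show (algebraMap ℂ K) 2 = 2 from map_ofNat _ 2]

lemma transc_s {M : Type*} [CommRing M] [Algebra M K] (hinj : Function.Injective (algebraMap M K))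
    (hM : ∀ m, σ (algebraMap M K m) = algebraMap M K m) {s : K} (hs : σ s = s + 1) :
    Transcendental M s := by
  have : CharZero K := charZero_of_injective_algebraMap (algebraMap ℂ K).injective
  apply transc_of_family hinj s (fun n => ((σ ^ n : K →ₐ[ℂ] K) : K →+* K))
  · intro n m
    exact sigma_pow_fix σ (hM m) n
  · intro a b hab
    have : (σ ^ a) s = (σ ^ b) s := hab
    rw [sigma_pow σ hs, sigma_pow σ hs] at this
    exact_mod_cast add_left_cancel this

lemma transc_hom {M : Type*} [CommRing M] [Algebra M K]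
    (hinj : Function.Injective (algebraMap M K))
    (hM : ∀ m c, τ c (algebraMap M K m) = algebraMap M K m) {y : K} (hy0 : y ≠ 0) {d : ℤ}
    (hd : d ≠ 0) (hy : ∀ c, τ c y = (algebraMap ℂ K c) ^ d * y) :
    Transcendental M y := by
  have : CharZero K := charZero_of_injective_algebraMap (algebraMap ℂ K).injective
  apply transc_of_family hinj y (fun n => ((τ (tw n) : K →ₐ[ℂ] K) : K →+* K))
  · intro n m
    exact hM m _
  · intro a b hab
    have h1 : τ (tw a) y = τ (tw b) y := hab
    rw [hy, hy, tw_val, tw_val] at h1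
    have h2 := mul_right_cancel₀ hy0 h1
    have h3 : ((2 : ℚ) ^ a) ^ d = ((2 : ℚ) ^ b) ^ d := by
      apply Rat.cast_injective (α := K)
      push_cast
      exact h2
    rw [← zpow_natCast, ← zpow_natCast, ← zpow_mul, ← zpow_mul] at h3
    have h4 := zpow_right_injective₀ (by norm_num : (0 : ℚ) < 2) (by norm_num) h3
    have h5 := mul_right_cancel₀ hd h4
    exact_mod_cast h5

lemma extend_indep {ι : Type*} {z : ι → K} (hz : AlgebraicIndependent ℂ z)
    (hzL : ∀ i, z i ∈ L0 σ τ) {q s : K} {N : ℕ} (hN : N ≠ 0) (hq0 : q ≠ 0)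
    (hq : q ∈ Hd σ τ N) (hs : σ s = s + 1) :
    AlgebraicIndependent ℂ (fun o : Option (Option ι) => o.elim s (fun o' => o'.elim q z)) := by
  rw [AlgebraicIndependent.option_iff, AlgebraicIndependent.option_iff]
  refine ⟨⟨hz, ?_⟩, ?_⟩
  · apply transc_hom τ Subtype.val_injective ?_ hq0 (by exact_mod_cast hN) hq.2
    rintro ⟨m, hm⟩ c
    have hle : Algebra.adjoin ℂ (Set.range z) ≤ (Kτ τ).toSubalgebra := by
      apply Algebra.adjoin_le
      rintro _ ⟨i, rfl⟩
      exact L0_le σ τ (hzL i)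
    exact hle hm c
  · apply transc_s σ Subtype.val_injective ?_ hs
    rintro ⟨m, hm⟩
    have hle : Algebra.adjoin ℂ (Set.range fun o' : Option ι => o'.elim q z)
        ≤ AlgHom.equalizer σ (AlgHom.id ℂ K) := by
      apply Algebra.adjoin_le
      rintro _ ⟨i, rfl⟩
      rcases i with _ | i
      · exact hq.1
      · exact (hzL i).1
    exact hle hm

end Indep

section Main

variable {k : ℕ} {K : Type} [Field K] [Algebra (MvPolynomial (Fin k) ℂ) K]
    [IsFractionRing (MvPolynomial (Fin k) ℂ) K] [Algebra ℂ K]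
    [IsScalarTower ℂ (MvPolynomial (Fin k) ℂ) K]

variable (k K) in
/-- the coordinate functions -/
noncomputable def xx (i : Fin k) : K := algebraMap (MvPolynomial (Fin k) ℂ) K (MvPolynomial.X i)

variable (k K) in
lemma trdeg_K : Algebra.trdeg ℂ K = k := by
  have : Algebra.IsAlgebraic (MvPolynomial (Fin k) ℂ) K :=
    IsLocalization.isAlgebraic (R := MvPolynomial (Fin k) ℂ) (S := K) (M := nonZeroDivisors (MvPolynomial (Fin k) ℂ))
  have h := (IsTranscendenceBasis.mvPolynomial (Fin k) ℂ).algebraMap_comp (A := K)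
  have := h.cardinalMk_eq_trdeg
  rw [← this]; simp

lemma adjoin_xx : adjoin ℂ (Set.range (xx k K)) = ⊤ := by
  rw [eq_top_iff]
  intro f _
  obtain ⟨a, b, _, hab⟩ := IsFractionRing.div_surjective (A := MvPolynomial (Fin k) ℂ) f
  have h : ∀ a : MvPolynomial (Fin k) ℂ,
      algebraMap _ K a ∈ adjoin ℂ (Set.range (xx k K)) := by
    intro a
    induction a using MvPolynomial.induction_on with
    | C r =>
      rw [← MvPolynomial.algebraMap_eq, ← IsScalarTower.algebraMap_apply]
      exact IntermediateField.algebraMap_mem _ r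
    | add p q hp hq => rw [map_add]; exact add_mem hp hq
    | mul_X p i hp =>
      rw [map_mul]
      exact mul_mem hp (subset_adjoin _ _ ⟨i, rfl⟩)
  rw [← hab]
  exact div_mem (h a) (h b)

variable (σ : K →ₐ[ℂ] K) (τ : ℂˣ → K →ₐ[ℂ] K)

lemma card_le {ι : Type} {z : ι → K} (hz : AlgebraicIndependent ℂ z)
    (hzL : ∀ i, z i ∈ L0 σ τ) {q s : K} {N : ℕ} (hN : N ≠ 0) (hq0 : q ≠ 0)
    (hq : q ∈ Hd σ τ N) (hs : σ s = s + 1) : Cardinal.mk ι + 2 ≤ k := by
  have h1 := (extend_indep σ τ hz hzL hN hq0 hq hs).cardinalMk_le_trdeg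
  rw [trdeg_K k K] at h1
  refine le_trans (le_of_eq ?_) h1
  rw [Cardinal.mk_option, Cardinal.mk_option, add_assoc, one_add_one_eq_two]

lemma ne_bot_three (hx : ∀ i c, τ c (xx k K i) = algebraMap ℂ K c * xx k K i) (i : Fin k) :
    Transcendental (Kτ τ) (xx k K i) := by
  apply transc_hom τ (algebraMap (Kτ τ) K).injective (fun m c => m.2 c) ?_ one_ne_zero ?_
  · rw [xx, Ne, FaithfulSMul.algebraMap_eq_zero_iff]; exact MvPolynomial.X_ne_zero i
  · intro c; rw [hx, zpow_one]

end Main

section Three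

variable {K : Type} [Field K] [Algebra (MvPolynomial (Fin 3) ℂ) K]
    [IsFractionRing (MvPolynomial (Fin 3) ℂ) K] [Algebra ℂ K]
    [IsScalarTower ℂ (MvPolynomial (Fin 3) ℂ) K]
    (σ : K →ₐ[ℂ] K) (τ : ℂˣ → K →ₐ[ℂ] K)

theorem exists_pqs (hx : ∀ (i : Fin 3) c, τ c (xx 3 K i) = algebraMap ℂ K c * xx 3 K i) (s : K)
    (hs : σ s = s + 1) (hs' : ∀ c, τ c s = (algebraMap ℂ K c) ^ (-1 : ℤ) * s)
    (hgen : adjoin ℂ ({s} ∪ ⋃ d, Hd σ τ d) = ⊤) :
    ∃ (N : ℕ) (p q : K), p ∈ Hd σ τ 0 ∧ q ∈ Hd σ τ N ∧ adjoin ℂ {p, q, s} = ⊤ := by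
  have hs0 : s ≠ 0 := by
    rintro rfl
    rw [map_zero, zero_add] at hs
    exact zero_ne_one hs
  have hx0 : ∀ i : Fin 3, xx 3 K i ≠ 0 := fun i => by
    rw [xx, Ne, FaithfulSMul.algebraMap_eq_zero_iff]; exact MvPolynomial.X_ne_zero i
  obtain ⟨N, q, hq0, hq, hq1, hgen2⟩ := exists_N σ τ s hgen
  by_cases hN : N = 0
  · have hq1' := hq1 hN
    subst hN hq1'
    have hgen3 : adjoin ℂ ((L0 σ τ : Set K) ∪ {s}) = ⊤ := by
      rw [eq_top_iff, ← hgen2, adjoin_le_iff]
      rintro z (hz | rfl | rfl)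
      · exact subset_adjoin _ _ (Or.inl hz)
      · exact one_mem _
      · exact subset_adjoin _ _ (Or.inr rfl)
    have h1 : Kτ τ ≤ L0 σ τ := by
      refine descend (L0_le σ τ) ?_ _ (le_refl _) hgen3
      exact transc_hom τ (algebraMap (Kτ τ) K).injective (fun m c => m.2 c) hs0
        (by norm_num) hs'
    set p : K := xx 3 K 0 / xx 3 K 2 with hp
    set q : K := xx 3 K 1 / xx 3 K 2 with hq
    have hpK : p ∈ Kτ τ := by
      intro c
      rw [hp, map_div₀, hx, hx, mul_div_mul_left _ _ (algebraMap_unit_ne c)]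
    have hqK : q ∈ Kτ τ := by
      intro c
      rw [hq, map_div₀, hx, hx, mul_div_mul_left _ _ (algebraMap_unit_ne c)]
    have h2 : Kτ τ ≤ adjoin ℂ {p, q} := by
      refine descend (s := xx 3 K 2) ?_ (ne_bot_three τ hx 2) {p, q} (subset_adjoin _ _) ?_
      · rw [adjoin_le_iff]
        rintro z (rfl | rfl)
        · exact hpK
        · exact hqK
      · rw [eq_top_iff, ← adjoin_xx (k := 3), adjoin_le_iff]
        set T := adjoin ℂ ({p, q} ∪ {xx 3 K 2}) with hT
        have hpT : p ∈ T := subset_adjoin _ _ (Or.inl (Or.inl rfl))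
        have hqT : q ∈ T := subset_adjoin _ _ (Or.inl (Or.inr rfl))
        have h2T : xx 3 K 2 ∈ T := subset_adjoin _ _ (Or.inr rfl)
        rintro _ ⟨i, rfl⟩
        fin_cases i
        · have : xx 3 K 0 = p * xx 3 K 2 := by rw [hp, div_mul_cancel₀ _ (hx0 2)]
          show xx 3 K 0 ∈ T
          rw [this]; exact mul_mem hpT h2T
        · have : xx 3 K 1 = q * xx 3 K 2 := by rw [hq, div_mul_cancel₀ _ (hx0 2)]
          show xx 3 K 1 ∈ T
          rw [this]; exact mul_mem hqT h2T
        · exact h2T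
    refine ⟨0, p, q, h1 hpK, h1 hqK, ?_⟩
    rw [eq_top_iff, ← hgen3, adjoin_le_iff]
    have hle : adjoin ℂ {p, q} ≤ adjoin ℂ {p, q, s} := by
      apply adjoin.mono
      rintro z (rfl | rfl)
      · exact Or.inl rfl
      · exact Or.inr (Or.inl rfl)
    rintro z (hz | rfl)
    · exact hle (h2 (L0_le σ τ hz))
    · exact subset_adjoin _ _ (Or.inr (Or.inr rfl))
  · obtain ⟨p, hp⟩ := gordan_luroth (n := 3) (L0 σ τ) (by
      intro h hh hhT g hg
      by_contra hcon
      have hz : AlgebraicIndependent ℂ (fun o : Option Unit => o.elim g (fun _ => h)) := by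
        rw [AlgebraicIndependent.option_iff]
        refine ⟨algebraicIndependent_unique_type_iff.mpr hhT, ?_⟩
        rw [Set.range_const]
        exact hcon
      have := card_le (k := 3) σ τ hz (by
        rintro (_ | _)
        · exact hg
        · exact hh) hN hq0 hq hs
      rw [Cardinal.mk_option, Cardinal.mk_unit] at this
      norm_num at this)
    refine ⟨N, p, q, ?_, hq, ?_⟩
    · have : p ∈ L0 σ τ := by rw [hp]; exact subset_adjoin _ _ rfl
      exact this
    · rw [eq_top_iff, ← hgen2, adjoin_le_iff]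
      rintro z (hz | rfl | rfl)
      · have hz' : z ∈ L0 σ τ := hz
        rw [hp] at hz'
        exact (adjoin.mono ℂ {p} _ (by rintro _ rfl; exact Or.inl rfl)) hz'
      · exact subset_adjoin _ _ (Or.inr (Or.inl rfl))
      · exact subset_adjoin _ _ (Or.inr (Or.inr rfl))

end Three

end Pool.Agent.Helper460.Flow
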