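import Mathlib

set_option autoImplicit false
set_option linter.unusedSectionVars false

namespace Pool.Agent.Helper460.Flow

open Polynomial

section Uniq
variable {F : Type*} [Field F]

lemma coprime_monic_unique {A B A' B' : F[X]} (h : IsCoprime A B) (h' : IsCoprime A' B')
    (hB : B.Monic) (hB' : B'.Monic) (e : A * B' = A' * B) : A = A' ∧ B = B' := by
  have h1 : B ∣ B' := by
    have : B ∣ A * B' := ⟨A', by rw [e]; ring⟩
    exact h.symm.dvd_of_dvd_mul_left this
  have h2 : B' ∣ B := by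
    have : B' ∣ A' * B := ⟨A, by rw [← e]; ring⟩
    exact h'.symm.dvd_of_dvd_mul_left this
  have hBB : B = B' := Polynomial.eq_of_monic_of_associated hB hB' (associated_of_dvd_dvd h1 h2)
  subst hBB
  exact ⟨mul_right_cancel₀ hB.ne_zero e, rfl⟩

lemma exists_reduced (P Q : F[X]) (hQ : Q ≠ 0) :
    ∃ A B : F[X], IsCoprime A B ∧ B.Monic ∧ A * Q = P * B := by
  classical
  set g := EuclideanDomain.gcd P Q with hg
  have hg0 : g ≠ 0 := fun h => hQ (EuclideanDomain.gcd_eq_zero_iff.mp h).2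
  obtain ⟨P', hP'⟩ := EuclideanDomain.gcd_dvd_left P Q
  obtain ⟨Q', hQ'⟩ := EuclideanDomain.gcd_dvd_right P Q
  rw [← hg] at hP' hQ'
  have hQ'0 : Q' ≠ 0 := by rintro rfl; exact hQ (by rw [hQ', mul_zero])
  have hcop : IsCoprime P' Q' := by
    obtain ⟨u, v, huv⟩ := (⟨_, _, (EuclideanDomain.gcd_eq_gcd_ab P Q).symm⟩ :
      ∃ u v, P * u + Q * v = EuclideanDomain.gcd P Q)
    refine ⟨u, v, mul_left_cancel₀ hg0 ?_⟩
    rw [← hg] at huv
    calc g * (u * P' + v * Q') = (g * P') * u + (g * Q') * v := by ring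
      _ = P * u + Q * v := by rw [← hP', ← hQ']
      _ = g * 1 := by rw [huv, mul_one]
  have hlc : Q'.leadingCoeff ≠ 0 := leadingCoeff_ne_zero.mpr hQ'0
  have hu : IsUnit (C (Q'.leadingCoeff⁻¹) : F[X]) := isUnit_C.mpr (isUnit_iff_ne_zero.mpr (inv_ne_zero hlc))
  refine ⟨C (Q'.leadingCoeff⁻¹) * P', C (Q'.leadingCoeff⁻¹) * Q', ?_, ?_, ?_⟩
  · exact (isCoprime_mul_unit_left hu P' Q').mpr hcop
  · rw [Monic, leadingCoeff_mul, leadingCoeff_C, inv_mul_cancel₀ hlc]
  · rw [hP', hQ']; ring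

end Uniq

section Red
variable {K : Type*} [Field K]

/-- `A(l t)` scaling law for a polynomial. -/
def HomP (τ : K →+* K) (l : K) (e : ℤ) (A : K[X]) : Prop :=
  A.map τ = C (l ^ e) * A.comp (C l * X)

lemma HomP.coeff {τ : K →+* K} {l : K} {e : ℤ} {A : K[X]} (h : HomP τ l e A) (hl : l ≠ 0)
    (j : ℕ) : τ (A.coeff j) = l ^ (e + j) * A.coeff j := by
  have := congrArg (fun p => p.coeff j) h
  simp only [coeff_map, coeff_C_mul, comp_C_mul_X_coeff] at this
  rw [this, zpow_add₀ hl, zpow_natCast]; ring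

lemma isCoprime_comp {A B : K[X]} (h : IsCoprime A B) (q : K[X]) :
    IsCoprime (A.comp q) (B.comp q) := by
  simpa using h.map (compRingHom q)

lemma isCoprime_map {A B : K[X]} (h : IsCoprime A B) (τ : K →+* K) :
    IsCoprime (A.map τ) (B.map τ) := by
  simpa using h.map (mapRingHom τ)

lemma comp_ne_zero' {A : K[X]} (h : A ≠ 0) {q : K[X]} (hq : q.natDegree ≠ 0) : A.comp q ≠ 0 := by
  intro h0
  have := congrArg natDegree h0
  rw [natDegree_comp] at this
  simp [hq] at this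
  rw [eq_C_of_natDegree_eq_zero this] at h0 h
  simp at h0
  simp [h0] at h

lemma red_cocycle {σ : K →+* K} {P Q A B : K[X]} (hQ : Q ≠ 0) (hcop : IsCoprime A B)
    (hB : B.Monic) (hAB : A * Q = P * B)
    (hc : P.map σ * Q.comp (X + 1) = P.comp (X + 1) * Q.map σ) :
    A.map σ = A.comp (X + 1) ∧ B.map σ = B.comp (X + 1) := by
  have hX1 : (X + 1 : K[X]).natDegree = 1 := by
    have : (X + 1 : K[X]) = X + C 1 := by simp
    rw [this, natDegree_X_add_C]
  have hQσ : Q.map σ ≠ 0 := (Polynomial.map_ne_zero_iff σ.injective).mpr hQ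
  have hQc : Q.comp (X + 1) ≠ 0 := comp_ne_zero' hQ (by rw [hX1]; norm_num)
  have e1 : A.map σ * Q.map σ = P.map σ * B.map σ := by
    rw [← Polynomial.map_mul, ← Polynomial.map_mul, hAB]
  have e2 : A.comp (X + 1) * Q.comp (X + 1) = P.comp (X + 1) * B.comp (X + 1) := by
    rw [← mul_comp, ← mul_comp, hAB]
  apply coprime_monic_unique (isCoprime_map hcop σ) (isCoprime_comp hcop _) (hB.map σ)
  · have : (X + 1 : K[X]) = X + C 1 := by simp
    rw [this]
    exact hB.comp_X_add_C 1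
  · apply mul_right_cancel₀ (mul_ne_zero hQσ hQc)
    calc A.map σ * B.comp (X + 1) * (Q.map σ * Q.comp (X + 1))
        = (A.map σ * Q.map σ) * B.comp (X + 1) * Q.comp (X + 1) := by ring
      _ = (P.map σ * Q.comp (X + 1)) * B.map σ * B.comp (X + 1) := by rw [e1]; ring
      _ = (P.comp (X + 1) * B.comp (X + 1)) * Q.map σ * B.map σ := by rw [hc]; ring
      _ = A.comp (X + 1) * B.map σ * (Q.map σ * Q.comp (X + 1)) := by rw [← e2]; ring

lemma red_hom {τ : K →+* K} {l : K} (hl : l ≠ 0) {P Q A B : K[X]} (hQ : Q ≠ 0)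
    (hcop : IsCoprime A B) (hB : B.Monic) (hAB : A * Q = P * B) (d : ℤ)
    (hc : P.map τ * Q.comp (C l * X) = C (l ^ d) * P.comp (C l * X) * Q.map τ) :
    HomP τ l (d - B.natDegree) A ∧ HomP τ l (-B.natDegree) B := by
  have hX1 : (C l * X : K[X]).natDegree = 1 := natDegree_C_mul_X l hl
  have hQσ : Q.map τ ≠ 0 := (Polynomial.map_ne_zero_iff τ.injective).mpr hQ
  have hQc : Q.comp (C l * X) ≠ 0 := comp_ne_zero' hQ (by rw [hX1]; norm_num)
  have e1 : A.map τ * Q.map τ = P.map τ * B.map τ := by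
    rw [← Polynomial.map_mul, ← Polynomial.map_mul, hAB]
  have e2 : A.comp (C l * X) * Q.comp (C l * X) = P.comp (C l * X) * B.comp (C l * X) := by
    rw [← mul_comp, ← mul_comp, hAB]
  have hu : ∀ e : ℤ, IsUnit (C (l ^ e) : K[X]) := fun e =>
    isUnit_C.mpr (isUnit_iff_ne_zero.mpr (zpow_ne_zero _ hl))
  have hcop2 : IsCoprime (C (l ^ (d - B.natDegree : ℤ)) * A.comp (C l * X))
      (C (l ^ (-B.natDegree : ℤ)) * B.comp (C l * X)) := by
    rw [isCoprime_mul_unit_left_left (hu _), isCoprime_mul_unit_left_right (hu _)]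
    exact isCoprime_comp hcop _
  have hmon : (C (l ^ (-B.natDegree : ℤ)) * B.comp (C l * X)).Monic := by
    rw [Monic, leadingCoeff_mul, leadingCoeff_C, leadingCoeff_comp (by rw [hX1]; norm_num),
      hB.leadingCoeff, leadingCoeff_mul, leadingCoeff_C, leadingCoeff_X, mul_one, one_mul,
      zpow_neg, zpow_natCast]
    exact inv_mul_cancel₀ (pow_ne_zero _ hl)
  have := coprime_monic_unique (isCoprime_map hcop τ) hcop2 (hB.map τ) hmon ?_
  · exact this
  · apply mul_right_cancel₀ (mul_ne_zero hQσ hQc)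
    have e3 : (C (l ^ (d - B.natDegree : ℤ)) : K[X]) = C (l ^ (-B.natDegree : ℤ)) * C (l ^ d) := by
      rw [← C_mul, ← zpow_add₀ hl]; congr 2; ring
    calc A.map τ * (C (l ^ (-B.natDegree : ℤ)) * B.comp (C l * X)) * (Q.map τ * Q.comp (C l * X))
        = (A.map τ * Q.map τ) * C (l ^ (-B.natDegree : ℤ)) * B.comp (C l * X) * Q.comp (C l * X) := by ring
      _ = (P.map τ * Q.comp (C l * X)) * C (l ^ (-B.natDegree : ℤ)) * B.map τ * B.comp (C l * X) := by
          rw [e1]; ring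
      _ = C (l ^ (-B.natDegree : ℤ)) * C (l ^ d) * (P.comp (C l * X) * B.comp (C l * X)) * Q.map τ * B.map τ := by
          rw [hc]; ring
      _ = C (l ^ (d - B.natDegree : ℤ)) * A.comp (C l * X) * B.map τ * (Q.map τ * Q.comp (C l * X)) := by
          rw [← e2, e3]; ring


lemma X_add_one_eq : (X + 1 : K[X]) = X + C 1 := by simp

lemma coeff_comp_top (A : K[X]) : (A.comp (X + 1)).coeff A.natDegree = A.leadingCoeff := by
  have h := leadingCoeff_comp (p := A) (q := X + 1) (by rw [X_add_one_eq, natDegree_X_add_C]; norm_num)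
  have h2 : (A.comp (X + 1)).natDegree = A.natDegree := by
    rw [natDegree_comp, X_add_one_eq, natDegree_X_add_C, mul_one]
  rw [← h2, coeff_natDegree, h, X_add_one_eq, leadingCoeff_X_add_C]; simp

lemma coeff_comp_pred (A : K[X]) (hn : A.natDegree ≠ 0) :
    (A.comp (X + 1)).coeff (A.natDegree - 1)
      = A.coeff (A.natDegree - 1) + A.natDegree * A.leadingCoeff := by
  obtain ⟨n, hn'⟩ := Nat.exists_eq_succ_of_ne_zero hn
  have h1 : (A.comp (X + 1)) = taylor 1 A := by rw [taylor_apply, X_add_one_eq]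
  rw [h1, taylor_coeff, hn', Nat.succ_sub_one]
  have hdeg : (hasseDeriv n A).natDegree < 2 := by
    have := natDegree_hasseDeriv_le A n
    omega
  rw [eval_eq_sum_range' hdeg]
  simp only [Finset.sum_range_succ, Finset.sum_range_zero, hasseDeriv_coeff, one_pow, mul_one,
    zero_add]
  rw [leadingCoeff, hn']
  simp [add_comm 1 n, Nat.choose_self]

lemma slice_of_poly [CharZero K] {σ : K →+* K} {A : K[X]} (hA : A.map σ = A.comp (X + 1))
    (hn : A.natDegree ≠ 0) :
    σ (A.coeff (A.natDegree - 1) / (A.natDegree * A.leadingCoeff))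
      = A.coeff (A.natDegree - 1) / (A.natDegree * A.leadingCoeff) + 1 := by
  have hlc : A.leadingCoeff ≠ 0 := leadingCoeff_ne_zero.mpr (by rintro rfl; simp at hn)
  have hn' : (A.natDegree : K) ≠ 0 := Nat.cast_ne_zero.mpr hn
  have h1 : σ A.leadingCoeff = A.leadingCoeff := by
    have := congrArg (fun p => p.coeff A.natDegree) hA
    simp only [coeff_map, coeff_comp_top] at this
    exact this
  have h2 : σ (A.coeff (A.natDegree - 1)) = A.coeff (A.natDegree - 1) + A.natDegree * A.leadingCoeff := by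
    have := congrArg (fun p => p.coeff (A.natDegree - 1)) hA
    simp only [coeff_map, coeff_comp_pred A hn] at this
    exact this
  rw [map_div₀, map_mul, map_natCast, h1, h2]
  field_simp

lemma slice_hom {τ : K →+* K} {l : K} (hl : l ≠ 0) {e : ℤ} {A : K[X]} (h : HomP τ l e A)
    (hn : A.natDegree ≠ 0) :
    τ (A.coeff (A.natDegree - 1) / (A.natDegree * A.leadingCoeff))
      = l ^ (-1 : ℤ) * (A.coeff (A.natDegree - 1) / (A.natDegree * A.leadingCoeff)) := by
  have h1 := h.coeff hl A.natDegree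
  have h2 := h.coeff hl (A.natDegree - 1)
  rw [coeff_natDegree] at h1
  rw [map_div₀, map_mul, map_natCast, h1, h2]
  have h3 : (e + ((A.natDegree - 1 : ℕ) : ℤ)) = (e + (A.natDegree : ℤ)) + (-1) := by
    rw [Nat.cast_sub (Nat.one_le_iff_ne_zero.mpr hn)]; push_cast; ring
  rw [h3, zpow_add₀ hl]
  have h4 : l ^ (e + (A.natDegree : ℤ)) ≠ 0 := zpow_ne_zero _ hl
  rw [mul_assoc, mul_left_comm (A.natDegree : K), mul_div_mul_left _ _ h4, mul_div_assoc]

lemma tilde_inv {σ : K →+* K} {A : K[X]} {s : K} (hs : σ s = s + 1)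
    (hA : A.map σ = A.comp (X + 1)) :
    (A.comp (X - C s)).map σ = A.comp (X - C s) := by
  rw [Polynomial.map_comp, hA, comp_assoc]
  congr 1
  simp only [Polynomial.map_sub, map_X, map_C, hs, add_comp, X_comp, one_comp, C_add, C_1]
  ring

lemma tilde_hom {τ : K →+* K} {l : K} (hl : l ≠ 0) {e : ℤ} {A : K[X]} {s : K}
    (hs : τ s = l ^ (-1 : ℤ) * s) (h : HomP τ l e A) : HomP τ l e (A.comp (X - C s)) := by
  unfold HomP at *
  rw [Polynomial.map_comp, h, mul_comp, C_comp, comp_assoc, comp_assoc]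
  congr 2
  simp only [Polynomial.map_sub, map_X, map_C, mul_comp, C_comp, X_comp, sub_comp, hs]
  rw [mul_sub, ← C_mul]
  congr 2
  rw [zpow_neg_one, mul_inv_cancel_left₀ hl]

end Red

section Alg

variable {K : Type*} [Field K] [Algebra ℂ K]

/-- `sigma`-invariant elements that are homogeneous of degree `d` for the scalings `tau`. -/
def Hd (σ : K →ₐ[ℂ] K) (τ : ℂˣ → K →ₐ[ℂ] K) (d : ℤ) : Set K :=
  {f | σ f = f ∧ ∀ c : ℂˣ, τ c f = (algebraMap ℂ K c) ^ d * f}

lemma algebraMap_unit_ne (c : ℂˣ) : algebraMap ℂ K c ≠ 0 := by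
  rw [Ne, FaithfulSMul.algebraMap_eq_zero_iff]; exact c.ne_zero

theorem exists_slice_gen {ι : Type*} (σ : K →ₐ[ℂ] K) (τ : ℂˣ → K →ₐ[ℂ] K) (x : ι → K)
    (P : ι → K[X]) (Q : K[X]) (hQ0 : Q.coeff 0 ≠ 0)
    (hP0 : ∀ i, (P i).coeff 0 = x i * Q.coeff 0)
    (hσ : ∀ i, (P i).map (σ : K →+* K) * Q.comp (X + 1)
      = (P i).comp (X + 1) * Q.map (σ : K →+* K))
    (hτ : ∀ i (c : ℂˣ), (P i).map (τ c : K →+* K) * Q.comp (C (algebraMap ℂ K c) * X)
      = C ((algebraMap ℂ K c) ^ (1 : ℤ)) * (P i).comp (C (algebraMap ℂ K c) * X)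
        * Q.map (τ c : K →+* K))
    (hne : ∃ i, σ (x i) ≠ x i) :
    ∃ s : K, σ s = s + 1 ∧ (∀ c, τ c s = (algebraMap ℂ K c) ^ (-1 : ℤ) * s) ∧
      ∀ i, x i ∈ IntermediateField.adjoin ℂ ({s} ∪ ⋃ d, Hd σ τ d) := by
  have : CharZero K := charZero_of_injective_algebraMap (algebraMap ℂ K).injective
  have hQ : Q ≠ 0 := by rintro rfl; simp at hQ0
  choose A B hcop hB hAB using fun i => exists_reduced (P i) Q hQ
  have hcoc := fun i => red_cocycle hQ (hcop i) (hB i) (hAB i) (hσ i)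
  have hhom := fun i (c : ℂˣ) => red_hom (algebraMap_unit_ne c) hQ (hcop i) (hB i) (hAB i) 1 (hτ i c)
  have h00 : ∀ i, (A i).coeff 0 * Q.coeff 0 = x i * Q.coeff 0 * (B i).coeff 0 := by
    intro i
    have := congrArg (fun p => p.coeff 0) (hAB i)
    simp only [mul_coeff_zero] at this
    rw [this, hP0]
  have hA0 : ∀ i, (A i).coeff 0 = x i * (B i).coeff 0 := by
    intro i
    apply mul_right_cancel₀ hQ0
    rw [h00]; ring
  have hB0 : ∀ i, (B i).coeff 0 ≠ 0 := by
    intro i h0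
    have h1 := hA0 i
    rw [h0, mul_zero] at h1
    obtain ⟨u, v, huv⟩ := hcop i
    have := congrArg (fun p => p.coeff 0) huv
    simp [h0, h1] at this
  -- the slice
  obtain ⟨i, hi⟩ := hne
  have hslice : ∃ s : K, σ s = s + 1 ∧ (∀ c, τ c s = (algebraMap ℂ K c) ^ (-1 : ℤ) * s) := by
    by_cases hBd : (B i).natDegree = 0
    · by_cases hAd : (A i).natDegree = 0
      · exfalso
        apply hi
        have hb : B i = 1 := by
          exact (hB i).natDegree_eq_zero.mp hBd
        have ha := eq_C_of_natDegree_eq_zero hAd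
        have hx : (A i).coeff 0 = x i := by rw [hA0 i, hb]; simp
        have h1 := (hcoc i).1
        rw [ha, hx] at h1
        simp only [map_C, C_comp] at h1
        exact C_injective h1
      · exact ⟨_, slice_of_poly (hcoc i).1 hAd,
          fun c => slice_hom (algebraMap_unit_ne c) (hhom i c).1 hAd⟩
    · exact ⟨_, slice_of_poly (hcoc i).2 hBd,
          fun c => slice_hom (algebraMap_unit_ne c) (hhom i c).2 hBd⟩
  obtain ⟨s, hs1, hs2⟩ := hslice
  refine ⟨s, hs1, hs2, fun j => ?_⟩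
  set M := IntermediateField.adjoin ℂ ({s} ∪ ⋃ d, Hd σ τ d) with hM
  have hsM : s ∈ M := IntermediateField.subset_adjoin _ _ (Or.inl rfl)
  have key : ∀ (G : K[X]) (e : ℤ), G.map (σ : K →+* K) = G.comp (X + 1) →
      (∀ c : ℂˣ, HomP (τ c : K →+* K) (algebraMap ℂ K c) e G) → G.coeff 0 ∈ M := by
    intro G e hG1 hG2
    have h1 : G.coeff 0 = (G.comp (X - C s)).eval s := by
      rw [eval_comp]; simp [coeff_zero_eq_eval_zero]
    rw [h1, eval_eq_sum_range]
    refine sum_mem fun k _ => mul_mem ?_ (pow_mem hsM k)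
    apply IntermediateField.subset_adjoin
    refine Or.inr (Set.mem_iUnion.mpr ⟨e + k, ?_, fun c => ?_⟩)
    · have := congrArg (fun p => p.coeff k) (tilde_inv hs1 hG1)
      simpa using this
    · exact (tilde_hom (algebraMap_unit_ne c) (hs2 c) (hG2 c)).coeff (algebraMap_unit_ne c) k
  have hx : x j = (A j).coeff 0 / (B j).coeff 0 := by
    rw [hA0, mul_div_cancel_right₀ _ (hB0 j)]
  rw [hx]
  exact div_mem (key _ _ (hcoc j).1 fun c => (hhom j c).1) (key _ _ (hcoc j).2 fun c => (hhom j c).2)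

end Alg

end Pool.Agent.Helper460.Flow
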