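import Pool.Agent.Helper460.FlowCore

set_option autoImplicit false
set_option linter.unusedSectionVars false

namespace Pool.Agent.Helper460.Flow

open Polynomial IntermediateField

section Transc

lemma transc_of_family {M K : Type*} [CommRing M] [Field K] [Algebra M K]
    (hinj : Function.Injective (algebraMap M K)) (y : K) (α : ℕ → K →+* K)
    (hM : ∀ n m, α n (algebraMap M K m) = algebraMap M K m)
    (hy : Function.Injective fun n => α n y) : Transcendental M y := by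
  rintro ⟨p, hp0, hp⟩
  apply hp0
  have hroot : ∀ n, (p.map (algebraMap M K)).IsRoot (α n y) := by
    intro n
    have h1 : (p.map (algebraMap M K)).map (α n) = p.map (algebraMap M K) := by
      rw [Polynomial.map_map]
      congr 1
      ext m
      exact hM n m
    rw [IsRoot.def, ← h1, eval_map_apply]
    rw [aeval_def, ← eval_map] at hp
    rw [hp, map_zero]
  have h0 : p.map (algebraMap M K) = 0 := by
    apply eq_zero_of_infinite_isRoot
    exact (Set.infinite_range_of_injective hy).mono (by rintro _ ⟨n, rfl⟩; exact hroot n)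
  exact (Polynomial.map_eq_zero_iff hinj).mp h0

lemma descend {F K : Type*} [Field F] [Field K] [Algebra F K] {M M' : IntermediateField F K}
    {s : K} (hMM : M ≤ M') (hs : Transcendental M' s) (S : Set K) (hS : S ⊆ M)
    (hgen : adjoin F (S ∪ {s}) = ⊤) : M' ≤ M := by
  intro f hf
  have h1 : f ∈ (adjoin M {s} : IntermediateField M K) := by
    have h2 : adjoin F (S ∪ {s}) ≤ (adjoin M {s} : IntermediateField M K).restrictScalars F := by
      rw [adjoin_le_iff]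
      rintro z (hz | hz)
      · exact (adjoin M {s} : IntermediateField M K).algebraMap_mem ⟨z, hS hz⟩
      · exact subset_adjoin M {s} hz
    exact h2 (by rw [hgen]; trivial)
  obtain ⟨a, b, hab⟩ := (mem_adjoin_simple_iff M f).mp h1
  by_cases hb : aeval s b = 0
  · rw [hb, div_zero] at hab; rw [hab]; exact M.zero_mem
  have hb0 : b ≠ 0 := by rintro rfl; simp at hb
  rw [eq_div_iff hb] at hab
  -- polynomial over M'
  let i : M →+* M' := (inclusion hMM : M →ₐ[F] M')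
  have hi : ∀ p : M[X], aeval s (p.map i) = aeval s p := by
    intro p
    rw [aeval_def, aeval_def, eval₂_map]
    rfl
  have hz : aeval s (C (⟨f, hf⟩ : M') * b.map i - a.map i) = 0 := by
    rw [map_sub, map_mul, aeval_C, hi, hi, ← hab]
    exact sub_self _
  have hz2 : C (⟨f, hf⟩ : M') * b.map i - a.map i = 0 := by
    by_contra hne
    exact hs ⟨_, hne, hz⟩
  obtain ⟨j, hj⟩ : ∃ j, b.coeff j ≠ 0 := by
    by_contra hcon
    push Not at hcon
    exact hb0 (Polynomial.ext (by simpa using hcon))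
  have h3 := congrArg (fun p => ((p.coeff j : M') : K)) hz2
  simp only [coeff_sub, coeff_C_mul, coeff_map, coeff_zero] at h3
  have h4 : f * (b.coeff j : K) - (a.coeff j : K) = 0 := h3
  have h5 : (b.coeff j : K) ≠ 0 := by simpa using hj
  have h6 : f = (a.coeff j : K) / (b.coeff j : K) := by
    rw [eq_div_iff h5]; exact sub_eq_zero.mp h4
  rw [h6]
  exact M.div_mem (a.coeff j).2 (b.coeff j).2

end Transc

section Deg

variable {K : Type*} [Field K] [Algebra ℂ K] (σ : K →ₐ[ℂ] K) (τ : ℂˣ → K →ₐ[ℂ] K)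

lemma Hd_mul {d e : ℤ} {f g : K} (hf : f ∈ Hd σ τ d) (hg : g ∈ Hd σ τ e) :
    f * g ∈ Hd σ τ (d + e) := by
  refine ⟨by rw [map_mul, hf.1, hg.1], fun c => ?_⟩
  rw [map_mul, hf.2, hg.2, zpow_add₀ (algebraMap_unit_ne c)]; ring

lemma Hd_inv {d : ℤ} {f : K} (hf : f ∈ Hd σ τ d) : f⁻¹ ∈ Hd σ τ (-d) := by
  refine ⟨by rw [map_inv₀, hf.1], fun c => ?_⟩
  rw [map_inv₀, hf.2, mul_inv, zpow_neg]

lemma Hd_one : (1 : K) ∈ Hd σ τ 0 := by
  refine ⟨map_one _, fun c => by simp⟩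

lemma Hd_zpow {d : ℤ} {f : K} (hf : f ∈ Hd σ τ d) (n : ℤ) : f ^ n ∈ Hd σ τ (n * d) := by
  refine ⟨by rw [map_zpow₀, hf.1], fun c => ?_⟩
  rw [map_zpow₀, hf.2, mul_zpow, ← zpow_mul, mul_comm d n]

/-- Fixed field of the scalings. -/
def Kτ : IntermediateField ℂ K where
  carrier := {f | ∀ c, τ c f = f}
  mul_mem' := fun ha hb c => by rw [map_mul, ha, hb]
  add_mem' := fun ha hb c => by rw [map_add, ha, hb]
  algebraMap_mem' := fun r c => by rw [AlgHom.commutes]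
  inv_mem' := fun f hf c => by rw [map_inv₀, hf]

/-- Invariants of degree zero. -/
def L0 : IntermediateField ℂ K where
  carrier := Hd σ τ 0
  mul_mem' := fun ha hb => by simpa using Hd_mul σ τ ha hb
  add_mem' := fun ha hb => ⟨by rw [map_add, ha.1, hb.1], fun c => by rw [map_add, ha.2, hb.2]; ring⟩
  algebraMap_mem' := fun r => ⟨by rw [AlgHom.commutes], fun c => by rw [AlgHom.commutes]; simp⟩
  inv_mem' := fun f hf => by simpa using Hd_inv σ τ hf

lemma mem_L0 {f : K} : f ∈ L0 σ τ ↔ f ∈ Hd σ τ 0 := Iff.rfl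

lemma L0_le : L0 σ τ ≤ Kτ τ := by
  intro f hf c
  have := hf.2 c
  simpa using this

theorem exists_N' (s : K) (hgen : adjoin ℂ ({s} ∪ ⋃ d, Hd σ τ d) = ⊤) :
    ∃ (N : ℕ) (q : K), q ≠ 0 ∧ q ∈ Hd σ τ N ∧ (N = 0 → q = 1) ∧
      (∀ (d : ℤ) (f : K), f ≠ 0 → f ∈ Hd σ τ d → (N : ℤ) ∣ d) ∧
      adjoin ℂ ((L0 σ τ : Set K) ∪ {q, s}) = ⊤ := by
  let D : AddSubgroup ℤ :=
    { carrier := {d | ∃ f ≠ 0, f ∈ Hd σ τ d}
      zero_mem' := ⟨1, one_ne_zero, Hd_one σ τ⟩
      add_mem' := by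
        rintro a b ⟨f, hf0, hf⟩ ⟨g, hg0, hg⟩
        exact ⟨f * g, mul_ne_zero hf0 hg0, Hd_mul σ τ hf hg⟩
      neg_mem' := by
        rintro a ⟨f, hf0, hf⟩
        exact ⟨f⁻¹, inv_ne_zero hf0, Hd_inv σ τ hf⟩ }
  obtain ⟨a, ha⟩ := Int.subgroup_cyclic D
  have haD : a ∈ D := by rw [ha]; exact AddSubgroup.mem_closure_singleton_self a
  have hN : ((a.natAbs : ℕ) : ℤ) ∈ D := by
    rcases Int.natAbs_eq a with h | h
    · rw [← h]; exact haD
    · have : ((a.natAbs : ℕ) : ℤ) = -a := by omega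
      rw [this]; exact D.neg_mem haD
  have hdiv : ∀ d ∈ D, ((a.natAbs : ℕ) : ℤ) ∣ d := by
    intro d hd
    rw [ha, AddSubgroup.mem_closure_singleton] at hd
    obtain ⟨n, rfl⟩ := hd
    rw [Int.natAbs_dvd, smul_eq_mul]
    exact Dvd.intro_left n rfl
  obtain ⟨q, hq0, hq, hq1⟩ : ∃ q : K, q ≠ 0 ∧ q ∈ Hd σ τ (a.natAbs : ℕ) ∧ (a.natAbs = 0 → q = 1) := by
    by_cases h0 : a.natAbs = 0
    · refine ⟨1, one_ne_zero, ?_, fun _ => rfl⟩
      rw [h0]; exact Hd_one σ τ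
    · obtain ⟨q, hq0, hq⟩ := hN
      exact ⟨q, hq0, hq, fun h => absurd h h0⟩
  refine ⟨a.natAbs, q, hq0, hq, hq1, fun d f hf0 hf => hdiv d ⟨f, hf0, hf⟩, ?_⟩
  rw [eq_top_iff, ← hgen, adjoin_le_iff]
  set T := adjoin ℂ ((L0 σ τ : Set K) ∪ {q, s}) with hT
  have hqT : q ∈ T := subset_adjoin _ _ (Or.inr (Or.inl rfl))
  have hsT : s ∈ T := subset_adjoin _ _ (Or.inr (Or.inr rfl))
  rintro f (rfl | hf)
  · exact hsT
  obtain ⟨d, hd⟩ := Set.mem_iUnion.mp hf
  by_cases hf0 : f = 0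
  · rw [hf0]; exact T.zero_mem
  obtain ⟨n, hn⟩ := hdiv d ⟨f, hf0, hd⟩
  have h1 : f * q ^ (-n) ∈ Hd σ τ 0 := by
    have := Hd_mul σ τ hd (Hd_zpow σ τ hq (-n))
    have h2 : d + -n * ((a.natAbs : ℕ) : ℤ) = 0 := by rw [hn]; ring
    rwa [h2] at this
  have h3 : f = (f * q ^ (-n)) * q ^ n := by
    rw [mul_assoc, ← zpow_add₀ hq0]; simp
  rw [h3]
  exact T.mul_mem (subset_adjoin _ _ (Or.inl h1)) (zpow_mem hqT n)

theorem exists_N (s : K) (hgen : adjoin ℂ ({s} ∪ ⋃ d, Hd σ τ d) = ⊤) :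
    ∃ (N : ℕ) (q : K), q ≠ 0 ∧ q ∈ Hd σ τ N ∧ (N = 0 → q = 1) ∧
      adjoin ℂ ((L0 σ τ : Set K) ∪ {q, s}) = ⊤ := by
  obtain ⟨N, q, h1, h2, h3, _, h4⟩ := exists_N' σ τ s hgen
  exact ⟨N, q, h1, h2, h3, h4⟩

end Deg

end Pool.Agent.Helper460.Flow
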