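import Pool.Agent.Helper460.FlowTheta

set_option autoImplicit false
set_option linter.unusedSectionVars false

namespace Pool.Agent.Helper460.Flow

open MvPolynomial

section Gen

variable {k : ℕ}

lemma zero_of_open (p : MvPolynomial (Fin k) ℂ) (U : Set (Fin k → ℂ)) (hU : IsOpen U)
    (hne : U.Nonempty) (h : ∀ a ∈ U, eval a p = 0) : p = 0 := by
  obtain ⟨a, ha⟩ := hne
  obtain ⟨ε, hε, hball⟩ := Metric.isOpen_iff.mp hU a ha
  apply MvPolynomial.funext_set (fun i => Metric.ball (a i) ε)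
  · intro i
    exact (infinite_of_mem_nhds (a i) (Metric.ball_mem_nhds (a i) hε))
  · intro x hx
    rw [map_zero]
    apply h
    apply hball
    rw [ball_pi _ hε]
    exact hx

/-- a property holds off a proper algebraic subset -/
def Gen (S : (Fin k → ℂ) → Prop) : Prop :=
  ∃ r : MvPolynomial (Fin k) ℂ, r ≠ 0 ∧ ∀ a, eval a r ≠ 0 → S a

lemma Gen.and {S T : (Fin k → ℂ) → Prop} (hS : Gen S) (hT : Gen T) : Gen fun a => S a ∧ T a := by
  obtain ⟨r, hr, h⟩ := hS
  obtain ⟨r', hr', h'⟩ := hT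
  refine ⟨r * r', mul_ne_zero hr hr', fun a ha => ?_⟩
  rw [map_mul] at ha
  exact ⟨h a (left_ne_zero_of_mul ha), h' a (right_ne_zero_of_mul ha)⟩

lemma Gen.mono {S T : (Fin k → ℂ) → Prop} (hS : Gen S) (h : ∀ a, S a → T a) : Gen T := by
  obtain ⟨r, hr, h'⟩ := hS
  exact ⟨r, hr, fun a ha => h a (h' a ha)⟩

lemma Gen.of_ne {r : MvPolynomial (Fin k) ℂ} (hr : r ≠ 0) : Gen fun a => eval a r ≠ 0 :=
  ⟨r, hr, fun _ h => h⟩

lemma Gen.all {S : (Fin k → ℂ) → Prop} (h : ∀ a, S a) : Gen S := ⟨1, one_ne_zero, fun a _ => h a⟩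

lemma Gen.forall {ι : Type*} [Finite ι] {S : ι → (Fin k → ℂ) → Prop} (h : ∀ i, Gen (S i)) :
    Gen fun a => ∀ i, S i a := by
  classical
  have := Fintype.ofFinite ι
  choose r hr h using h
  refine ⟨∏ i, r i, Finset.prod_ne_zero_iff.mpr fun i _ => hr i, fun a ha i => ?_⟩
  rw [map_prod] at ha
  exact h i a (Finset.prod_ne_zero_iff.mp ha i (Finset.mem_univ _))

lemma continuous_eval' (r : MvPolynomial (Fin k) ℂ) : Continuous fun a => eval a r :=
  MvPolynomial.continuous_eval r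

lemma Gen.open {S : (Fin k → ℂ) → Prop} (hS : Gen S) :
    ∃ U : Set (Fin k → ℂ), IsOpen U ∧ U.Nonempty ∧ ∀ a ∈ U, S a := by
  obtain ⟨r, hr, h⟩ := hS
  refine ⟨{a | eval a r ≠ 0}, ?_, ?_, h⟩
  · exact isOpen_ne_fun (continuous_eval' r) continuous_const
  · by_contra hcon
    rw [Set.not_nonempty_iff_eq_empty] at hcon
    apply hr
    apply MvPolynomial.funext
    intro x
    rw [map_zero]
    by_contra hx
    have : x ∈ {a | eval a r ≠ 0} := hx
    rw [hcon] at this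
    exact this

end Gen

section Rep

variable {k : ℕ} {K : Type} [Field K] [Algebra (MvPolynomial (Fin k) ℂ) K]
    [IsFractionRing (MvPolynomial (Fin k) ℂ) K] [Algebra ℂ K]
    [IsScalarTower ℂ (MvPolynomial (Fin k) ℂ) K]

/-- the rational function `z` is represented generically by the function `η` -/
def Rep (z : K) (η : (Fin k → ℂ) → ℂ) : Prop :=
  ∃ p q : MvPolynomial (Fin k) ℂ, q ≠ 0 ∧ z = algebraMap _ K p / algebraMap _ K q ∧
    Gen fun a => η a = eval a p / eval a q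

omit [Algebra ℂ K] [IsScalarTower ℂ (MvPolynomial (Fin k) ℂ) K] in
lemma am_ne {q : MvPolynomial (Fin k) ℂ} (hq : q ≠ 0) : algebraMap _ K q ≠ 0 := by
  rw [Ne, FaithfulSMul.algebraMap_eq_zero_iff]; exact hq

lemma Rep.congr {z : K} {η η' : (Fin k → ℂ) → ℂ} (h : Rep z η) (h' : Gen fun a => η a = η' a) :
    Rep z η' := by
  obtain ⟨p, q, hq, hz, hg⟩ := h
  exact ⟨p, q, hq, hz, (hg.and h').mono fun a ha => by rw [← ha.2, ha.1]⟩

lemma Rep.poly (p : MvPolynomial (Fin k) ℂ) : Rep (algebraMap _ K p) (fun a => eval a p) :=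
  ⟨p, 1, one_ne_zero, by simp, Gen.all fun a => by simp⟩

lemma Rep.ne_zero {z : K} {η : (Fin k → ℂ) → ℂ} (h : Rep z η) (hz : z ≠ 0) :
    Gen fun a => η a ≠ 0 := by
  obtain ⟨p, q, hq, hzz, hg⟩ := h
  have hp : p ≠ 0 := by rintro rfl; apply hz; rw [hzz]; simp
  refine ((hg.and (Gen.of_ne hp)).and (Gen.of_ne hq)).mono fun a ha => ?_
  rw [ha.1.1]
  exact div_ne_zero ha.1.2 ha.2

lemma Rep.unique {z : K} {η η' : (Fin k → ℂ) → ℂ} (h : Rep z η) (h' : Rep z η') :
    Gen fun a => η a = η' a := by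
  obtain ⟨p, q, hq, hz, hg⟩ := h
  obtain ⟨p', q', hq', hz', hg'⟩ := h'
  refine (((hg.and hg').and (Gen.of_ne hq)).and (Gen.of_ne hq')).mono fun a ha => ?_
  rw [ha.1.1.1, ha.1.1.2, div_eq_div_iff ha.1.2 ha.2, ← map_mul, ← map_mul]
  congr 1
  apply IsFractionRing.injective (MvPolynomial (Fin k) ℂ) K
  rw [map_mul, map_mul, ← div_eq_div_iff (am_ne hq) (am_ne hq'), ← hz, ← hz']

lemma Rep.eq_of_open {z z' : K} {η η' : (Fin k → ℂ) → ℂ} (h : Rep z η) (h' : Rep z' η')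
    (U : Set (Fin k → ℂ)) (hU : IsOpen U) (hne : U.Nonempty) (he : ∀ a ∈ U, η a = η' a) :
    z = z' := by
  obtain ⟨p, q, hq, hz, r, hr, hg⟩ := h
  obtain ⟨p', q', hq', hz', r', hr', hg'⟩ := h'
  have h0 : (p * q' - p' * q) * (q * q' * r * r') = 0 := by
    apply zero_of_open _ U hU hne
    intro a ha
    by_cases h1 : eval a (q * q' * r * r') = 0
    · rw [map_mul, h1, mul_zero]
    · simp only [map_mul, mul_ne_zero_iff] at h1
      obtain ⟨⟨⟨h1, h2⟩, h3⟩, h4⟩ := h1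
      have := he a ha
      rw [hg a h3, hg' a h4, div_eq_div_iff h1 h2] at this
      simp only [map_mul, map_sub]
      rw [this, sub_self, zero_mul]
  have h1 : p * q' - p' * q = 0 := by
    rcases mul_eq_zero.mp h0 with h | h
    · exact h
    · exact absurd h (mul_ne_zero (mul_ne_zero (mul_ne_zero hq hq') hr) hr')
  rw [hz, hz', div_eq_div_iff (am_ne hq) (am_ne hq'), ← map_mul, ← map_mul, sub_eq_zero.mp h1]

lemma Rep.add {z w : K} {η ω : (Fin k → ℂ) → ℂ} (h : Rep z η) (h' : Rep w ω) :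
    Rep (z + w) (fun a => η a + ω a) := by
  obtain ⟨p, q, hq, hz, hg⟩ := h
  obtain ⟨p', q', hq', hz', hg'⟩ := h'
  refine ⟨p * q' + q * p', q * q', mul_ne_zero hq hq', ?_, ?_⟩
  · rw [hz, hz', div_add_div _ _ (am_ne hq) (am_ne hq')]; simp
  · refine (((hg.and hg').and (Gen.of_ne hq)).and (Gen.of_ne hq')).mono fun a ha => ?_
    show η a + ω a = _
    rw [ha.1.1.1, ha.1.1.2, div_add_div _ _ ha.1.2 ha.2]; simp

lemma Rep.mul {z w : K} {η ω : (Fin k → ℂ) → ℂ} (h : Rep z η) (h' : Rep w ω) :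
    Rep (z * w) (fun a => η a * ω a) := by
  obtain ⟨p, q, hq, hz, hg⟩ := h
  obtain ⟨p', q', hq', hz', hg'⟩ := h'
  refine ⟨p * p', q * q', mul_ne_zero hq hq', ?_, ?_⟩
  · rw [hz, hz', div_mul_div_comm]; simp
  · refine (hg.and hg').mono fun a ha => ?_
    show η a * ω a = _
    rw [ha.1, ha.2, div_mul_div_comm]; simp

lemma Rep.inv {z : K} {η : (Fin k → ℂ) → ℂ} (h : Rep z η) :
    Rep z⁻¹ (fun a => (η a)⁻¹) := by
  obtain ⟨p, q, hq, hz, hg⟩ := h
  by_cases hp : p = 0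
  · refine ⟨0, 1, one_ne_zero, ?_, ?_⟩
    · rw [hz, hp]; simp
    · refine hg.mono fun a ha => ?_
      show (η a)⁻¹ = _
      rw [ha, hp]; simp
  · refine ⟨q, p, hp, ?_, ?_⟩
    · rw [hz, inv_div]
    · refine hg.mono fun a ha => ?_
      show (η a)⁻¹ = _
      rw [ha, inv_div]

lemma Rep.div {z w : K} {η ω : (Fin k → ℂ) → ℂ} (h : Rep z η) (h' : Rep w ω) :
    Rep (z / w) (fun a => η a / ω a) := by
  simp only [div_eq_mul_inv]
  exact h.mul h'.inv

lemma Rep.const (c : ℂ) : Rep (algebraMap ℂ K c) (fun _ : Fin k → ℂ => c) := by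
  have := Rep.poly (K := K) (C c : MvPolynomial (Fin k) ℂ)
  rw [← MvPolynomial.algebraMap_eq, ← IsScalarTower.algebraMap_apply] at this
  simpa using this

lemma Rep.one : Rep (1 : K) (fun _ : Fin k → ℂ => 1) := by
  simpa using Rep.const (K := K) (k := k) 1

lemma Rep.pow {z : K} {η : (Fin k → ℂ) → ℂ} (h : Rep z η) (n : ℕ) :
    Rep (z ^ n) (fun a => η a ^ n) := by
  induction n with
  | zero => simpa using Rep.one
  | succ n ih => simp only [pow_succ]; exact ih.mul h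

lemma Rep.zpow {z : K} {η : (Fin k → ℂ) → ℂ} (h : Rep z η) (n : ℤ) :
    Rep (z ^ n) (fun a => η a ^ n) := by
  cases n with
  | ofNat n => simpa using h.pow n
  | negSucc n => simp only [zpow_negSucc]; exact (h.pow (n + 1)).inv

lemma Rep.x (i : Fin k) : Rep (xx k K i) (fun a => a i) := by
  simpa [xx] using Rep.poly (K := K) (X i : MvPolynomial (Fin k) ℂ)

lemma Rep.aeval {ι : Type*} {g : ι → K} {γ : (Fin k → ℂ) → ι → ℂ}
    (h : ∀ i, Rep (g i) (fun a => γ a i)) (f : MvPolynomial ι ℂ) :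
    Rep (MvPolynomial.aeval g f) (fun a => eval (γ a) f) := by
  induction f using MvPolynomial.induction_on with
  | C c => simpa using Rep.const c
  | add p q hp hq => simpa using hp.add hq
  | mul_X p i hp => simpa using hp.mul (h i)

end Rep

end Pool.Agent.Helper460.Flow
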