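import Pool.Agent.Helper460.FlowMain

set_option autoImplicit false
set_option linter.unusedSectionVars false

namespace Pool.Agent.Helper460.Flow

open MvPolynomial Filter Topology

section General

variable {k : ℕ} {K : Type} [Field K] [Algebra (MvPolynomial (Fin k) ℂ) K]
    [IsFractionRing (MvPolynomial (Fin k) ℂ) K] [Algebra ℂ K]
    [IsScalarTower ℂ (MvPolynomial (Fin k) ℂ) K]

lemma common_denom (g : Fin k → K) : ∃ (L : Fin k → MvPolynomial (Fin k) ℂ)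
    (E : MvPolynomial (Fin k) ℂ), E ≠ 0 ∧ ∀ i, g i = algebraMap _ K (L i) / algebraMap _ K E := by
  obtain ⟨b, hb⟩ := IsLocalization.exist_integer_multiples_of_finite
    (nonZeroDivisors (MvPolynomial (Fin k) ℂ)) g
  choose L hL using hb
  refine ⟨L, b, nonZeroDivisors.coe_ne_zero b, fun i => ?_⟩
  rw [hL i, eq_div_iff (am_ne (nonZeroDivisors.coe_ne_zero b)), Algebra.smul_def, mul_comm]

lemma aeval_eq (f : K →ₐ[ℂ] K) (p : MvPolynomial (Fin k) ℂ) :
    aeval (fun i => f (xx k K i)) p = f (algebraMap _ K p) := by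
  have : (aeval (fun i => f (xx k K i)) : MvPolynomial (Fin k) ℂ →ₐ[ℂ] K)
      = f.comp (IsScalarTower.toAlgHom ℂ (MvPolynomial (Fin k) ℂ) K) := by
    apply MvPolynomial.algHom_ext
    intro i
    simp [xx]
  exact congrArg (fun g => g p) this

lemma algHom_ext_xx (f g : K →ₐ[ℂ] K) (h : ∀ i, f (xx k K i) = g (xx k K i)) : f = g := by
  have h' : (fun i => f (xx k K i)) = fun i => g (xx k K i) := funext h
  apply AlgHom.ext
  intro z
  obtain ⟨a, b, _, rfl⟩ := IsFractionRing.div_surjective (A := MvPolynomial (Fin k) ℂ) z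
  rw [map_div₀, map_div₀, ← aeval_eq, ← aeval_eq, ← aeval_eq, ← aeval_eq, h']

lemma rep_hom {f : K →ₐ[ℂ] K} {γ : (Fin k → ℂ) → Fin k → ℂ}
    (h : ∀ i, Rep (f (xx k K i)) (fun a => γ a i)) (p : MvPolynomial (Fin k) ℂ) :
    Rep (f (algebraMap _ K p)) (fun a => eval (γ a) p) := by
  rw [← aeval_eq]
  exact Rep.aeval h p

lemma birational (θ : K ≃ₐ[ℂ] K) (L M : Fin k → MvPolynomial (Fin k) ℂ)
    (E F : MvPolynomial (Fin k) ℂ) (hE : E ≠ 0) (hF : F ≠ 0)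
    (hL : ∀ i, θ.symm (xx k K i) = algebraMap _ K (L i) / algebraMap _ K E)
    (hM : ∀ i, θ (xx k K i) = algebraMap _ K (M i) / algebraMap _ K F) :
    Gen fun a => eval a E ≠ 0 ∧ eval (Phi L E a) F ≠ 0 ∧ Phi M F (Phi L E a) = a := by
  have hrep : ∀ p, Rep (θ.symm (algebraMap _ K p)) (fun a => eval (Phi L E a) p) := by
    intro p
    refine rep_hom (f := (θ.symm : K →ₐ[ℂ] K)) (γ := Phi L E) (fun i => ?_) p
    show Rep (θ.symm (xx k K i)) _
    rw [hL]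
    exact rep_phi L E i
  have h2 : Gen fun a => eval (Phi L E a) F ≠ 0 := by
    apply (hrep F).ne_zero
    rw [Ne, EmbeddingLike.map_eq_zero_iff]
    exact am_ne hF
  have h3 : Gen fun a => ∀ i, Phi M F (Phi L E a) i = a i := by
    apply Gen.forall
    intro i
    have h4 : Rep (θ.symm (algebraMap _ K (M i)) / θ.symm (algebraMap _ K F))
        (fun a => Phi M F (Phi L E a) i) := (hrep (M i)).div (hrep F)
    rw [← map_div₀, ← hM, AlgEquiv.symm_apply_apply] at h4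
    exact h4.unique (Rep.x i)
  refine (((Gen.of_ne hE).and h2).and h3).mono fun a ha => ⟨ha.1.1, ha.1.2, funext ha.2⟩

lemma homog (τ : ℂˣ → K →ₐ[ℂ] K) (hτ : ∀ (c : ℂˣ) (p : MvPolynomial (Fin k) ℂ),
        τ c (algebraMap _ K p) = algebraMap _ K (scaleR (c : ℂ) p))
    (L : Fin k → MvPolynomial (Fin k) ℂ) (E : MvPolynomial (Fin k) ℂ) (hE : E ≠ 0)
    (hL : ∀ i (c : ℂˣ), τ c (algebraMap _ K (L i) / algebraMap _ K E)
      = algebraMap ℂ K c * (algebraMap _ K (L i) / algebraMap _ K E)) :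
    ∃ V : Set ((Fin k → ℂ) × ℂ), IsOpen V ∧ V.Nonempty ∧ ∀ q ∈ V,
          eval q.1 E ≠ 0 ∧ eval (q.2 • q.1) E ≠ 0 ∧
          Phi L E (q.2 • q.1) = q.2 • Phi L E q.1 := by
  refine ⟨{q | q.2 ≠ 0 ∧ eval q.1 E ≠ 0 ∧ eval (q.2 • q.1) E ≠ 0}, ?_, ?_, ?_⟩
  · have h1 : IsOpen {q : (Fin k → ℂ) × ℂ | q.2 ≠ 0} :=
      isOpen_ne_fun continuous_snd continuous_const
    have h2 : IsOpen {q : (Fin k → ℂ) × ℂ | eval q.1 E ≠ 0} :=
      isOpen_ne_fun ((continuous_eval' E).comp continuous_fst) continuous_const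
    have h3 : IsOpen {q : (Fin k → ℂ) × ℂ | eval (q.2 • q.1) E ≠ 0} :=
      isOpen_ne_fun ((continuous_eval' E).comp (continuous_snd.smul continuous_fst))
        continuous_const
    exact h1.inter (h2.inter h3)
  · obtain ⟨U, _, ⟨a, ha⟩, hU⟩ := (Gen.of_ne hE).open
    refine ⟨(a, 1), one_ne_zero, hU a ha, ?_⟩
    show eval ((1 : ℂ) • a) E ≠ 0
    rw [one_smul]
    exact hU a ha
  · rintro ⟨a, c⟩ ⟨hc, h1, h2⟩
    refine ⟨h1, h2, ?_⟩
    funext i
    have h := hL i (Units.mk0 c hc)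
    have hsc : scaleR c E ≠ 0 := by
      intro h0
      apply hE
      apply scaleR_inj (Units.mk0 c hc)
      rw [map_zero]
      exact h0
    rw [map_div₀, hτ, hτ, Units.val_mk0, mul_div_assoc', div_eq_div_iff (am_ne hsc) (am_ne hE),
      IsScalarTower.algebraMap_apply ℂ (MvPolynomial (Fin k) ℂ) K, ← map_mul, ← map_mul,
      ← map_mul] at h
    have h' := congrArg (eval a) (IsFractionRing.injective (MvPolynomial (Fin k) ℂ) K h)
    rw [map_mul, map_mul, map_mul, eval_scaleR, eval_scaleR, MvPolynomial.algebraMap_eq,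
      eval_C] at h'
    show eval (c • a) (L i) / eval (c • a) E = c * (eval a (L i) / eval a E)
    rw [mul_div_assoc', div_eq_div_iff h2 h1, h']

end General

/-- The main theorem. -/
theorem main_three (P : Fin 3 → MvPolynomial (Fin 3) ℂ) (Q : MvPolynomial (Fin 3) ℂ)
    (hQ : Q ≠ 0) (hne : ¬ ∀ i : Fin 3, P i = X i * Q)
    (hV : ∃ V : Set ((Fin 3 → ℂ) × ℂ), IsOpen V ∧ V.Nonempty ∧
        ∀ q ∈ V, q.2 ≠ 0 ∧ eval q.1 Q ≠ 0 ∧
          eval (((1 - q.2) / q.2) • Phi P Q (q.2 • q.1)) Q ≠ 0 ∧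
          (1 - q.2) • Phi P Q q.1 = Phi P Q (((1 - q.2) / q.2) • Phi P Q (q.2 • q.1)))
    (hU : ∃ U : Set (Fin 3 → ℂ), IsOpen U ∧ U.Nonempty ∧
        ∀ x ∈ U, Tendsto (fun z : ℂ => z⁻¹ • Phi P Q (z • x)) (𝓝[≠] 0) (𝓝 x)) :
    ∃ (L : Fin 3 → MvPolynomial (Fin 3) ℂ) (E : MvPolynomial (Fin 3) ℂ)
        (M : Fin 3 → MvPolynomial (Fin 3) ℂ) (F : MvPolynomial (Fin 3) ℂ) (N : ℕ),
        E ≠ 0 ∧ F ≠ 0 ∧
        (∃ U : Set (Fin 3 → ℂ), IsOpen U ∧ U.Nonempty ∧ ∀ x ∈ U,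
          eval x E ≠ 0 ∧ eval (Phi L E x) F ≠ 0 ∧ Phi M F (Phi L E x) = x) ∧
        (∃ U : Set (Fin 3 → ℂ), IsOpen U ∧ U.Nonempty ∧ ∀ x ∈ U,
          eval x F ≠ 0 ∧ eval (Phi M F x) E ≠ 0 ∧ Phi L E (Phi M F x) = x) ∧
        (∃ V : Set ((Fin 3 → ℂ) × ℂ), IsOpen V ∧ V.Nonempty ∧ ∀ q ∈ V,
          eval q.1 E ≠ 0 ∧ eval (q.2 • q.1) E ≠ 0 ∧
          Phi L E (q.2 • q.1) = q.2 • Phi L E q.1) ∧
        (∃ U : Set (Fin 3 → ℂ), IsOpen U ∧ U.Nonempty ∧ ∀ x ∈ U,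
          x 2 + 1 ≠ 0 ∧ eval x E ≠ 0 ∧ eval (Phi L E x) Q ≠ 0 ∧
          eval (![x 0 * (x 2 + 1) ^ ((N : ℤ) - 1), x 1 / (x 2 + 1), x 2 / (x 2 + 1)]) E ≠ 0 ∧
          Phi P Q (Phi L E x) =
            Phi L E ![x 0 * (x 2 + 1) ^ ((N : ℤ) - 1), x 1 / (x 2 + 1), x 2 / (x 2 + 1)]) := by
  let K := FractionRing (MvPolynomial (Fin 3) ℂ)
  obtain ⟨σ, τ, s, hσx, hτ, hτx, hs, hs', hgen⟩ := slice_package K P Q hQ hne hV hU
  obtain ⟨N, θ, hθτ, h0, h1, h2⟩ := exists_theta σ τ hτx s hs hs' hgen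
  obtain ⟨L, E, hE, hL⟩ := common_denom (fun i => θ.symm (xx 3 K i))
  obtain ⟨M, F, hF, hM⟩ := common_denom (fun i => θ (xx 3 K i))
  refine ⟨L, E, M, F, N, hE, hF, ?_, ?_, ?_, ?_⟩
  · exact (birational θ L M E F hE hF hL hM).open
  · exact (birational θ.symm M L F E hF hE (by simpa using hM) hL).open
  · apply homog τ hτ L E hE
    intro i c
    have hcomm : ∀ z : K, τ c (θ z) = θ (τ c z) := by
      have : (τ c).comp (θ : K →ₐ[ℂ] K) = (θ : K →ₐ[ℂ] K).comp (τ c) := by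
        apply algHom_ext_xx (k := 3)
        intro i
        show τ c (θ (xx 3 K i)) = θ (τ c (xx 3 K i))
        rw [hθτ, hτx, map_mul, AlgEquiv.commutes]
      intro z
      exact congrArg (fun f => f z) this
    rw [← hL]
    apply θ.injective
    rw [← hcomm, AlgEquiv.apply_symm_apply, map_mul, AlgEquiv.commutes, AlgEquiv.apply_symm_apply,
      hτx]
  · -- the conjugation identity
    obtain ⟨ψ, hψ⟩ : ∃ ψ : (Fin 3 → ℂ) → Fin 3 → ℂ, ψ = fun x =>
      ![x 0 * (x 2 + 1) ^ ((N : ℤ) - 1), x 1 / (x 2 + 1), x 2 / (x 2 + 1)] := ⟨_, rfl⟩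
    have hψrep : ∀ i, Rep (θ.symm (σ (θ (xx 3 K i)))) (fun a => ψ a i) := by
      have hx2 : Rep (xx 3 K 2 + 1) (fun a => a 2 + 1) := (Rep.x 2).add Rep.one
      have e0 : θ.symm (σ (θ (xx 3 K 0))) = xx 3 K 0 * (xx 3 K 2 + 1) ^ ((N : ℤ) - 1) := by
        rw [h0]; simp
      have e1 : θ.symm (σ (θ (xx 3 K 1))) = xx 3 K 1 / (xx 3 K 2 + 1) := by
        rw [h1]; simp
      have e2 : θ.symm (σ (θ (xx 3 K 2))) = xx 3 K 2 / (xx 3 K 2 + 1) := by
        rw [h2]; simp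
      intro i
      fin_cases i
      · show Rep (θ.symm (σ (θ (xx 3 K 0)))) _
        rw [e0, hψ]
        exact (Rep.x 0).mul (hx2.zpow _)
      · show Rep (θ.symm (σ (θ (xx 3 K 1)))) _
        rw [e1, hψ]
        exact (Rep.x 1).div hx2
      · show Rep (θ.symm (σ (θ (xx 3 K 2)))) _
        rw [e2, hψ]
        exact (Rep.x 2).div hx2
    have repψ : ∀ p, Rep (θ.symm (σ (θ (algebraMap _ K p)))) (fun a => eval (ψ a) p) :=
      fun p => rep_hom (f := (θ.symm : K →ₐ[ℂ] K).comp (σ.comp (θ : K →ₐ[ℂ] K))) hψrep p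
    have repL : ∀ p, Rep (θ.symm (algebraMap _ K p)) (fun a => eval (Phi L E a) p) := by
      intro p
      refine rep_hom (f := (θ.symm : K →ₐ[ℂ] K)) (γ := Phi L E) (fun i => ?_) p
      show Rep (θ.symm (xx 3 K i)) _
      have := hL i
      rw [this]
      exact rep_phi L E i
    have g1 : Gen fun a : Fin 3 → ℂ => a 2 + 1 ≠ 0 := by
      have : Gen fun a : Fin 3 → ℂ => eval a (X 2 + 1 : MvPolynomial (Fin 3) ℂ) ≠ 0 := by
        apply Gen.of_ne
        intro h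
        have := congrArg (eval (fun _ => (0 : ℂ))) h
        simp at this
      simpa using this
    have g2 : Gen fun a => eval (Phi L E a) Q ≠ 0 := by
      apply (repL Q).ne_zero
      rw [Ne, EmbeddingLike.map_eq_zero_iff]
      exact am_ne hQ
    have g3 : Gen fun a => eval (ψ a) E ≠ 0 := by
      apply (repψ E).ne_zero
      rw [Ne, EmbeddingLike.map_eq_zero_iff, map_eq_zero, EmbeddingLike.map_eq_zero_iff]
      exact am_ne hE
    have g4 : Gen fun a => ∀ i, Phi P Q (Phi L E a) i = Phi L E (ψ a) i := by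
      apply Gen.forall
      intro i
      have r1 : Rep (θ.symm (algebraMap _ K (P i)) / θ.symm (algebraMap _ K Q))
          (fun a => Phi P Q (Phi L E a) i) := (repL (P i)).div (repL Q)
      have r2 : Rep (θ.symm (σ (θ (algebraMap _ K (L i)))) / θ.symm (σ (θ (algebraMap _ K E))))
          (fun a => Phi L E (ψ a) i) := (repψ (L i)).div (repψ E)
      rw [← map_div₀, ← hσx] at r1
      rw [← map_div₀, ← map_div₀, ← map_div₀] at r2
      have := hL i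
      rw [← this, AlgEquiv.apply_symm_apply] at r2
      exact r1.unique r2
    have hall := ((((g1.and (Gen.of_ne hE)).and g2).and g3).and g4).open
    obtain ⟨U, hUo, hUne, hU'⟩ := hall
    refine ⟨U, hUo, hUne, fun x hx => ?_⟩
    obtain ⟨⟨⟨⟨a1, a2⟩, a3⟩, a4⟩, a5⟩ := hU' x hx
    rw [hψ] at a4 a5
    exact ⟨a1, a2, a3, a4, funext a5⟩

end Pool.Agent.Helper460.Flow
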