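import Pool.Agent.Helper460.FlowEval

set_option autoImplicit false
set_option linter.unusedSectionVars false

namespace Pool.Agent.Helper460.Flow

open MvPolynomial Filter Topology

section Rho

variable {k : ℕ}

/-- the polynomial `f(t x)` in `t` -/
noncomputable def rho : MvPolynomial (Fin k) ℂ →ₐ[ℂ] Polynomial (MvPolynomial (Fin k) ℂ) :=
  MvPolynomial.aeval (fun i => Polynomial.C (X i) * Polynomial.X)

/-- evaluation at a point and a time -/
noncomputable def evz (a : Fin k → ℂ) (z : ℂ) : Polynomial (MvPolynomial (Fin k) ℂ) →+* ℂ :=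
  (Polynomial.evalRingHom z).comp (Polynomial.mapRingHom (MvPolynomial.eval a))

lemma evz_X (a : Fin k → ℂ) (z : ℂ) : evz a z Polynomial.X = z := by simp [evz]

lemma evz_rho (a : Fin k → ℂ) (z : ℂ) (p : MvPolynomial (Fin k) ℂ) :
    evz a z (rho p) = eval (z • a) p := by
  have : (evz a z).comp (rho (k := k)).toRingHom = eval (z • a) := by
    apply MvPolynomial.ringHom_ext
    · intro r
      simp [rho, evz, ← MvPolynomial.algebraMap_eq]
    · intro i
      simp [rho, evz]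
      ring
  exact congrArg (fun f => f p) this

lemma evz_zero (a : Fin k → ℂ) (g : Polynomial (MvPolynomial (Fin k) ℂ)) :
    evz a 0 g = eval a (g.coeff 0) := by
  simp [evz, ← Polynomial.coeff_zero_eq_eval_zero]

lemma evz_continuous (g : Polynomial (MvPolynomial (Fin k) ℂ)) :
    Continuous fun w : (Fin k → ℂ) × ℂ => evz w.1 w.2 g := by
  have : (fun w : (Fin k → ℂ) × ℂ => evz w.1 w.2 g)
      = fun w => ∑ j ∈ Finset.range (g.natDegree + 1), eval w.1 (g.coeff j) * w.2 ^ j := by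
    funext w
    simp only [evz, RingHom.comp_apply, Polynomial.coe_mapRingHom, Polynomial.coe_evalRingHom,
      Polynomial.eval_map, Polynomial.eval₂_eq_sum_range]
  rw [this]
  refine continuous_finsetSum _ fun j _ => ?_
  exact ((continuous_eval' _).comp continuous_fst).mul (continuous_snd.pow j)

lemma rho_ne_zero {p : MvPolynomial (Fin k) ℂ} (hp : p ≠ 0) : rho p ≠ 0 := by
  intro h
  apply hp
  apply MvPolynomial.funext
  intro a
  have := evz_rho a 1 p
  rw [h, map_zero, one_smul] at this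
  rw [← this, map_zero]

lemma exists_trailing {A : Type*} [CommRing A] [IsDomain A] (p : Polynomial A) (hp : p ≠ 0) :
    ∃ (n : ℕ) (r : Polynomial A), p = Polynomial.X ^ n * r ∧ r.coeff 0 ≠ 0 := by
  induction h : p.natDegree using Nat.strong_induction_on generalizing p with
  | _ d ih =>
    by_cases h0 : p.coeff 0 = 0
    · obtain ⟨r, hr⟩ := Polynomial.X_dvd_iff.mpr h0
      have hr0 : r ≠ 0 := by rintro rfl; exact hp (by rw [hr, mul_zero])
      have hd : r.natDegree < d := by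
        rw [← h, hr, Polynomial.natDegree_X_mul hr0]; omega
      obtain ⟨n, r', hr', hr'0⟩ := ih _ hd r hr0 rfl
      exact ⟨n + 1, r', by rw [hr, hr']; ring, hr'0⟩
    · exact ⟨0, p, by simp, h0⟩

lemma small_ne {r : MvPolynomial (Fin k) ℂ} {n : ℕ} {rh : Polynomial (MvPolynomial (Fin k) ℂ)}
    (h : rho r = Polynomial.X ^ n * rh) {a : Fin k → ℂ} (ha : eval a (rh.coeff 0) ≠ 0) :
    ∀ᶠ z in 𝓝[≠] (0 : ℂ), eval (z • a) r ≠ 0 := by
  have h1 : Tendsto (fun z : ℂ => evz a z rh) (𝓝 0) (𝓝 (evz a 0 rh)) := by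
    have := (evz_continuous rh).comp (Continuous.prodMk_right a)
    exact this.tendsto 0
  rw [evz_zero] at h1
  have h2 : ∀ᶠ z in 𝓝 (0 : ℂ), evz a z rh ≠ 0 := h1.eventually_ne ha
  have h3 : ∀ᶠ z in 𝓝[≠] (0 : ℂ), z ≠ 0 := eventually_mem_nhdsWithin
  filter_upwards [h2.filter_mono nhdsWithin_le_nhds, h3] with z hz hz0
  rw [← evz_rho, h, map_mul, map_pow, evz_X]
  exact mul_ne_zero (pow_ne_zero _ hz0) hz

lemma poly_limit (n : ℕ) (p : Polynomial ℂ) (c : ℂ)
    (h : Tendsto (fun z => p.eval z / z ^ n) (𝓝[≠] 0) (𝓝 c)) :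
    ∃ r : Polynomial ℂ, p = Polynomial.X ^ n * r ∧ r.eval 0 = c := by
  induction n generalizing p with
  | zero =>
    refine ⟨p, by simp, ?_⟩
    have h1 : Tendsto (fun z => p.eval z) (𝓝[≠] 0) (𝓝 (p.eval 0)) :=
      (p.continuous.tendsto 0).mono_left nhdsWithin_le_nhds
    simp only [pow_zero, div_one] at h
    exact tendsto_nhds_unique h1 h
  | succ n ih =>
    have h1 : Tendsto (fun z => p.eval z) (𝓝[≠] 0) (𝓝 (p.eval 0)) :=
      (p.continuous.tendsto 0).mono_left nhdsWithin_le_nhds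
    have h2 : Tendsto (fun z : ℂ => z ^ (n + 1) * (p.eval z / z ^ (n + 1))) (𝓝[≠] 0)
        (𝓝 (0 * c)) := by
      refine Tendsto.mul ?_ h
      have : Tendsto (fun z : ℂ => z ^ (n + 1)) (𝓝 0) (𝓝 (0 ^ (n + 1))) :=
        (continuous_pow (n + 1)).tendsto 0
      rw [zero_pow (Nat.succ_ne_zero n)] at this
      exact this.mono_left nhdsWithin_le_nhds
    have h3 : Tendsto (fun z => p.eval z) (𝓝[≠] 0) (𝓝 (0 * c)) := by
      refine h2.congr' ?_
      filter_upwards [eventually_mem_nhdsWithin] with z hz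
      have hz : z ≠ 0 := hz
      rw [mul_div_cancel₀ _ (pow_ne_zero _ hz)]
    have h4 : p.eval 0 = 0 := by
      rw [tendsto_nhds_unique h1 h3, zero_mul]
    have h5 : p.coeff 0 = 0 := by rw [Polynomial.coeff_zero_eq_eval_zero]; exact h4
    obtain ⟨p', hp'⟩ := Polynomial.X_dvd_iff.mpr h5
    obtain ⟨r, hr, hr0⟩ := ih p' (by
      refine h.congr' ?_
      filter_upwards [eventually_mem_nhdsWithin] with z hz
      have hz : z ≠ 0 := hz
      rw [hp', Polynomial.eval_mul, Polynomial.eval_X, pow_succ', mul_div_mul_left _ _ hz])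
    exact ⟨r, by rw [hp', hr]; ring, hr0⟩

/-- the rational map with numerators `P i` and denominator `Q` -/
noncomputable def Phi (P : Fin k → MvPolynomial (Fin k) ℂ) (Q : MvPolynomial (Fin k) ℂ)
    (a : Fin k → ℂ) : Fin k → ℂ := fun i => eval a (P i) / eval a Q

variable (P : Fin k → MvPolynomial (Fin k) ℂ) (Q : MvPolynomial (Fin k) ℂ)

theorem hyp_bd (hQ : Q ≠ 0)
    (hU : ∃ U : Set (Fin k → ℂ), IsOpen U ∧ U.Nonempty ∧
        ∀ x ∈ U, Tendsto (fun z : ℂ => z⁻¹ • Phi P Q (z • x)) (𝓝[≠] 0) (𝓝 x)) :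
    ∃ (m : ℕ) (Qh : Polynomial (MvPolynomial (Fin k) ℂ))
      (Ph : Fin k → Polynomial (MvPolynomial (Fin k) ℂ)),
      rho Q = Polynomial.X ^ m * Qh ∧ Qh.coeff 0 ≠ 0 ∧
      ∀ i, rho (P i) = Polynomial.X ^ (m + 1) * Ph i ∧ (Ph i).coeff 0 = X i * Qh.coeff 0 := by
  obtain ⟨m, Qh, hQh, hQh0⟩ := exists_trailing _ (rho_ne_zero hQ)
  obtain ⟨U, hUo, hUne, hU⟩ := hU
  have key : ∀ i, ∀ a ∈ U, eval a (Qh.coeff 0) ≠ 0 →
      ∃ r : Polynomial ℂ, (rho (P i)).map (eval a) = Polynomial.X ^ (m + 1) * r ∧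
        r.eval 0 = a i * eval a (Qh.coeff 0) := by
    intro i a ha hne
    apply poly_limit
    have h1 : Tendsto (fun z : ℂ => z⁻¹ * (eval (z • a) (P i) / eval (z • a) Q)) (𝓝[≠] 0)
        (𝓝 (a i)) := by
      have := (tendsto_pi_nhds.mp (hU a ha)) i
      simpa [Phi] using this
    have h2 : Tendsto (fun z : ℂ => evz a z Qh) (𝓝[≠] 0) (𝓝 (eval a (Qh.coeff 0))) := by
      have h := (evz_continuous Qh).comp (Continuous.prodMk_right a)
      have h' := h.tendsto 0
      simp only [Function.comp_apply, evz_zero] at h'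
      exact h'.mono_left nhdsWithin_le_nhds
    refine (h1.mul h2).congr' ?_
    filter_upwards [eventually_mem_nhdsWithin, small_ne hQh hne] with z hz hz2
    have hz : z ≠ 0 := hz
    have e1 : eval (z • a) Q = z ^ m * evz a z Qh := by
      rw [← evz_rho, hQh, map_mul, map_pow, evz_X]
    have e2 : (Polynomial.map (eval a) (rho (P i))).eval z = eval (z • a) (P i) := by
      rw [← evz_rho]; simp [evz]
    have e3 : evz a z Qh ≠ 0 := by
      intro h; rw [e1, h, mul_zero] at hz2; exact hz2 rfl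
    rw [e2, e1, pow_succ]
    field_simp
  have hcoef : ∀ i, ∀ j < m + 1, (rho (P i)).coeff j = 0 := by
    intro i j hj
    have h0 : (rho (P i)).coeff j * Qh.coeff 0 = 0 := by
      apply zero_of_open _ U hUo hUne
      intro a ha
      rw [map_mul]
      by_cases hne : eval a (Qh.coeff 0) = 0
      · rw [hne, mul_zero]
      · obtain ⟨r, hr, _⟩ := key i a ha hne
        have := congrArg (fun p => p.coeff j) hr
        simp only [Polynomial.coeff_map, Polynomial.coeff_X_pow_mul', not_le.mpr hj, if_false] at this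
        rw [this, zero_mul]
    exact (mul_eq_zero.mp h0).resolve_right hQh0
  choose Ph hPh using fun i => Polynomial.X_pow_dvd_iff.mpr (hcoef i)
  refine ⟨m, Qh, Ph, hQh, hQh0, fun i => ⟨hPh i, ?_⟩⟩
  have h0 : ((Ph i).coeff 0 - X i * Qh.coeff 0) * Qh.coeff 0 = 0 := by
    apply zero_of_open _ U hUo hUne
    intro a ha
    rw [map_mul]
    by_cases hne : eval a (Qh.coeff 0) = 0
    · rw [hne, mul_zero]
    · obtain ⟨r, hr, hr0⟩ := key i a ha hne
      rw [hPh i] at hr
      have := congrArg (fun p => p.coeff (m + 1)) hr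
      simp only [Polynomial.coeff_map, Polynomial.coeff_X_pow_mul', le_refl, if_true,
        Nat.sub_self] at this
      rw [← Polynomial.coeff_zero_eq_eval_zero] at hr0
      rw [map_sub, this, hr0]
      simp
  exact sub_eq_zero.mp ((mul_eq_zero.mp h0).resolve_right hQh0)

end Rho

section Sigma

variable {k : ℕ} {K : Type} [Field K] [Algebra (MvPolynomial (Fin k) ℂ) K]
    [IsFractionRing (MvPolynomial (Fin k) ℂ) K] [Algebra ℂ K]
    [IsScalarTower ℂ (MvPolynomial (Fin k) ℂ) K]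

variable (P : Fin k → MvPolynomial (Fin k) ℂ) (Q : MvPolynomial (Fin k) ℂ)

lemma rep_phi (i : Fin k) : Rep (algebraMap (MvPolynomial (Fin k) ℂ) K (P i) / algebraMap _ K Q)
    (fun a => Phi P Q a i) := (Rep.poly (P i)).div (Rep.poly Q)

variable (K) in
theorem sigma_inj
    (hU : ∃ U : Set (Fin k → ℂ), IsOpen U ∧ U.Nonempty ∧
        ∀ x ∈ U, Tendsto (fun z : ℂ => z⁻¹ • Phi P Q (z • x)) (𝓝[≠] 0) (𝓝 x)) :
    Function.Injective (aeval (fun i => algebraMap (MvPolynomial (Fin k) ℂ) K (P i)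
      / algebraMap _ K Q) : MvPolynomial (Fin k) ℂ →ₐ[ℂ] K) := by
  rw [injective_iff_map_eq_zero]
  intro f hf
  by_contra hf0
  have h1 := Rep.aeval (K := K) (g := fun i => algebraMap (MvPolynomial (Fin k) ℂ) K (P i)
      / algebraMap _ K Q) (γ := Phi P Q) (rep_phi P Q) f
  rw [hf] at h1
  have h2 : Rep (0 : K) (fun _ : Fin k → ℂ => (0 : ℂ)) := by
    simpa using Rep.const (K := K) (k := k) 0
  obtain ⟨r, hr, hr'⟩ := h1.unique h2
  obtain ⟨n, rh, hrh, hrh0⟩ := exists_trailing _ (rho_ne_zero hr)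
  obtain ⟨j, fh, hfh, hfh0⟩ := exists_trailing _ (rho_ne_zero hf0)
  obtain ⟨U, hUo, hUne, hU⟩ := hU
  have h0 : fh.coeff 0 * rh.coeff 0 = 0 := by
    apply zero_of_open _ U hUo hUne
    intro a ha
    rw [map_mul]
    by_cases hne : eval a (rh.coeff 0) = 0
    · rw [hne, mul_zero]
    · have hpair : Tendsto (fun z : ℂ => ((z⁻¹ • Phi P Q (z • a), z) : (Fin k → ℂ) × ℂ)) (𝓝[≠] 0)
          (𝓝 (a, 0)) := by
        rw [nhds_prod_eq]
        exact (hU a ha).prodMk (tendsto_id.mono_left nhdsWithin_le_nhds)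
      have hlim : Tendsto (fun z : ℂ => evz (z⁻¹ • Phi P Q (z • a)) z fh) (𝓝[≠] 0)
          (𝓝 (evz a 0 fh)) := ((evz_continuous fh).tendsto (a, 0)).comp hpair
      have hzero : Tendsto (fun z : ℂ => evz (z⁻¹ • Phi P Q (z • a)) z fh) (𝓝[≠] 0) (𝓝 0) := by
        refine tendsto_const_nhds.congr' ?_
        filter_upwards [eventually_mem_nhdsWithin, small_ne hrh hne] with z hz hz2
        have hz : z ≠ 0 := hz
        have e1 : eval (Phi P Q (z • a)) f = 0 := hr' _ hz2
        have e2 : Phi P Q (z • a) = z • (z⁻¹ • Phi P Q (z • a)) := by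
          rw [smul_smul, mul_inv_cancel₀ hz, one_smul]
        have e3 : evz (z⁻¹ • Phi P Q (z • a)) z (rho f) = 0 := by
          rw [evz_rho, ← e2, e1]
        rw [hfh, map_mul, map_pow, evz_X] at e3
        exact ((mul_eq_zero.mp e3).resolve_left (pow_ne_zero _ hz)).symm
      have := tendsto_nhds_unique hlim hzero
      rw [evz_zero] at this
      rw [this, zero_mul]
  rcases mul_eq_zero.mp h0 with h | h
  · exact hfh0 h
  · exact hrh0 h

/-- `rho` with coefficients in `K` -/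
noncomputable def rhoK (K : Type) [Field K] [Algebra (MvPolynomial (Fin k) ℂ) K]
    (p : MvPolynomial (Fin k) ℂ) : Polynomial K :=
  (rho p).map (algebraMap (MvPolynomial (Fin k) ℂ) K)

lemma map_rho_ext {L : Type*} [CommRing L] [Algebra ℂ L] (f : Polynomial K →+* L) (g : Fin k → L)
    (hc : ∀ c : ℂ, f (Polynomial.C (algebraMap ℂ K c)) = algebraMap ℂ L c)
    (hx : ∀ i, f (Polynomial.C (xx k K i) * Polynomial.X) = g i) (p : MvPolynomial (Fin k) ℂ) :
    f (rhoK K p) = aeval g p := by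
  have : (f.comp (Polynomial.mapRingHom (algebraMap (MvPolynomial (Fin k) ℂ) K))).comp
      (rho (k := k)).toRingHom
      = (aeval g : MvPolynomial (Fin k) ℂ →ₐ[ℂ] L).toRingHom := by
    apply MvPolynomial.ringHom_ext
    · intro r
      have h1 : (rho (C r : MvPolynomial (Fin k) ℂ)) = Polynomial.C (C r) := by
        rw [← MvPolynomial.algebraMap_eq, AlgHom.commutes]; rfl
      simp only [RingHom.comp_apply, AlgHom.toRingHom_eq_coe, RingHom.coe_coe, h1,
        Polynomial.coe_mapRingHom, Polynomial.map_C]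
      rw [← MvPolynomial.algebraMap_eq, ← IsScalarTower.algebraMap_apply, hc, AlgHom.commutes]
    · intro i
      simp only [rho, RingHom.comp_apply, AlgHom.toRingHom_eq_coe, RingHom.coe_coe, aeval_X,
        Polynomial.coe_mapRingHom, Polynomial.map_mul, Polynomial.map_C, Polynomial.map_X]
      exact hx i
  exact congrArg (fun f => f p) this

lemma ev1 (t : ℂ) (p : MvPolynomial (Fin k) ℂ) :
    ((rhoK K p).comp (Polynomial.X + 1)).eval (algebraMap ℂ K t)
      = aeval (fun i => algebraMap ℂ K (t + 1) * xx k K i) p := by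
  have := map_rho_ext (k := k) (K := K) (L := K)
    (Polynomial.evalRingHom (algebraMap ℂ K (t + 1)))
    (fun i => algebraMap ℂ K (t + 1) * xx k K i) (fun c => by simp)
    (fun i => by simp; ring) p
  rw [← this, Polynomial.eval_comp]
  simp

lemma ev2 (σ : K →ₐ[ℂ] K) (t : ℂ) (p : MvPolynomial (Fin k) ℂ) :
    ((rhoK K p).map (σ : K →+* K)).eval (algebraMap ℂ K t)
      = aeval (fun i => algebraMap ℂ K t * σ (xx k K i)) p := by
  have := map_rho_ext (k := k) (K := K) (L := K)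
    ((Polynomial.evalRingHom (algebraMap ℂ K t)).comp (Polynomial.mapRingHom (σ : K →+* K)))
    (fun i => algebraMap ℂ K t * σ (xx k K i)) (fun c => by simp)
    (fun i => by simp; ring) p
  rw [← this]
  simp

lemma rep1 (t : ℂ) (p : MvPolynomial (Fin k) ℂ) :
    Rep (aeval (fun i => algebraMap ℂ K (t + 1) * xx k K i) p)
      (fun a => eval ((t + 1) • a) p) := by
  refine Rep.aeval (γ := fun a => (t + 1) • a) (fun i => ?_) p
  exact (Rep.const (t + 1)).mul (Rep.x i)

lemma rep2 (σ : K →ₐ[ℂ] K) (hσ : ∀ i, σ (xx k K i) = algebraMap _ K (P i) / algebraMap _ K Q)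
    (t : ℂ) (p : MvPolynomial (Fin k) ℂ) :
    Rep (aeval (fun i => algebraMap ℂ K t * σ (xx k K i)) p)
      (fun a => eval (t • Phi P Q a) p) := by
  refine Rep.aeval (γ := fun a => t • Phi P Q a) (fun i => ?_) p
  rw [hσ]
  exact (Rep.const t).mul (rep_phi P Q i)

theorem cocycle (σ : K →ₐ[ℂ] K)
    (hσ : ∀ i, σ (xx k K i) = algebraMap _ K (P i) / algebraMap _ K Q)
    (hV : ∃ V : Set ((Fin k → ℂ) × ℂ), IsOpen V ∧ V.Nonempty ∧
        ∀ q ∈ V, q.2 ≠ 0 ∧ eval q.1 Q ≠ 0 ∧
          eval (((1 - q.2) / q.2) • Phi P Q (q.2 • q.1)) Q ≠ 0 ∧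
          (1 - q.2) • Phi P Q q.1 = Phi P Q (((1 - q.2) / q.2) • Phi P Q (q.2 • q.1)))
    (i : Fin k) :
    Polynomial.X * (rhoK K (P i)).comp (Polynomial.X + 1) * (rhoK K Q).map (σ : K →+* K)
      = (Polynomial.X + 1) * (rhoK K (P i)).map (σ : K →+* K)
        * (rhoK K Q).comp (Polynomial.X + 1) := by
  obtain ⟨V, hVo, ⟨v0, hv0⟩, hV⟩ := hV
  rw [← sub_eq_zero]
  apply Polynomial.eq_zero_of_infinite_isRoot
  -- infinitely many times
  have hZ : (Prod.snd '' V).Infinite := by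
    have : IsOpen (Prod.snd '' V) := isOpenMap_snd V hVo
    exact infinite_of_mem_nhds v0.2 (this.mem_nhds ⟨v0, hv0, rfl⟩)
  have hT : ((fun z : ℂ => algebraMap ℂ K (z⁻¹ - 1)) '' (Prod.snd '' V)).Infinite := by
    apply hZ.image
    intro z _ w _ hzw
    have h1 : z⁻¹ - 1 = w⁻¹ - 1 := (algebraMap ℂ K).injective hzw
    exact inv_injective (sub_left_injective h1)
  refine hT.mono ?_
  rintro _ ⟨_, ⟨⟨p, z⟩, hv, rfl⟩, rfl⟩
  have hz0 : z ≠ 0 := (hV _ hv).1
  obtain ⟨t, ht⟩ : ∃ t : ℂ, t = z⁻¹ - 1 := ⟨_, rfl⟩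
  have ht1 : t + 1 = z⁻¹ := by rw [ht]; ring
  have ht2 : (1 - z) / z = t := by rw [ht]; field_simp
  show Polynomial.eval (algebraMap ℂ K (z⁻¹ - 1)) _ = 0
  rw [← ht]
  simp only [Polynomial.eval_sub, Polynomial.eval_mul, Polynomial.eval_X, Polynomial.eval_add,
    Polynomial.eval_one, ev1, ev2]
  rw [sub_eq_zero]
  have hW : IsOpen {x : Fin k → ℂ | (z⁻¹ • x, z) ∈ V} := by
    apply hVo.preimage
    exact (continuous_const_smul z⁻¹).prodMk continuous_const
  refine Rep.eq_of_open (((Rep.const t).mul (rep1 t (P i))).mul (rep2 P Q σ hσ t Q))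
    ((((Rep.const t).add Rep.one).mul (rep2 P Q σ hσ t (P i))).mul (rep1 t Q)) _ hW ?_ ?_
  · refine ⟨z • p, ?_⟩
    show (z⁻¹ • z • p, z) ∈ V
    rw [smul_smul, inv_mul_cancel₀ hz0, one_smul]
    exact hv
  · intro a ha
    obtain ⟨_, h1, h2, h3⟩ := hV _ ha
    have h3 := congrFun h3 i
    simp only [smul_smul, mul_inv_cancel₀ hz0, one_smul, ht2] at h1 h2 h3
    rw [Pi.smul_apply, smul_eq_mul, Phi, Phi] at h3
    show t * eval ((t + 1) • a) (P i) * eval (t • Phi P Q a) Q
      = (t + 1) * eval (t • Phi P Q a) (P i) * eval ((t + 1) • a) Q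
    rw [ht1]
    rw [eq_div_iff h2, mul_div_assoc', div_mul_eq_mul_div, div_eq_iff h1] at h3
    have h4 : t = z⁻¹ * (1 - z) := by rw [ht]; field_simp
    generalize eval (t • Phi P Q a) Q = E1 at *
    generalize eval (t • Phi P Q a) (P i) = E2 at *
    generalize eval (z⁻¹ • a) (P i) = E3 at *
    generalize eval (z⁻¹ • a) Q = E4 at *
    calc t * E3 * E1 = z⁻¹ * ((1 - z) * E3 * E1) := by rw [h4]; ring
      _ = z⁻¹ * E2 * E4 := by rw [h3]; ring

end Sigma

end Pool.Agent.Helper460.Flow
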