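import Pool.Agent.Helper460.FlowDefs

set_option autoImplicit false

namespace Pool.Agent.Helper460.ProjFlow

open MvPolynomial Filter Topology

variable {n : ℕ}

/-- A rational family `A_t` of rational maps of complex `n`-space, depending rationally on one
complex parameter `t`: the coordinates are `num i / den`, where `num i` and `den` are polynomials
in `t` with coefficients in the polynomials in `u_1, ..., u_n`. -/
structure Family (n : ℕ) where
  num : Fin n → Polynomial (MvPolynomial (Fin n) ℂ)
  den : Polynomial (MvPolynomial (Fin n) ℂ)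
  den_ne_zero : den ≠ 0

/-- The value of a polynomial in `t` and `u` at the point `u` and the parameter `t`. -/
noncomputable def polyValue (p : Polynomial (MvPolynomial (Fin n) ℂ)) (u : Fin n → ℂ) (t : ℂ) : ℂ :=
  (p.map (MvPolynomial.eval u)).eval t

/-- The denominator of `A_t` does not vanish at `u`. -/
def Family.DefinedAt (A : Family n) (u : Fin n → ℂ) (t : ℂ) : Prop := polyValue A.den u t ≠ 0

/-- The point `A_t(u)` (meaningful where `A_t` is defined). -/
noncomputable def Family.value (A : Family n) (u : Fin n → ℂ) (t : ℂ) : Fin n → ℂ :=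
  fun i => polyValue (A.num i) u t / polyValue A.den u t

/-- `A` is a multiplicative one-parameter group of birational maps of complex `n`-space:
`A_t(A_s(u)) = A_(s t)(u)` holds as an identity of rational functions in `(u, s, t)`, and `A_t(u)`
tends to `u` as `t` tends to `1`. -/
def IsMultGroup (A : Family n) : Prop :=
  OnOpen (fun v : (Fin n → ℂ) × ℂ × ℂ => A.DefinedAt v.1 v.2.1 ∧
    A.DefinedAt (A.value v.1 v.2.1) v.2.2 ∧ A.DefinedAt v.1 (v.2.1 * v.2.2) ∧
    A.value (A.value v.1 v.2.1) v.2.2 = A.value v.1 (v.2.1 * v.2.2)) ∧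
  OnOpen (fun u : Fin n → ℂ => Tendsto (fun t : ℂ => A.value u t) (𝓝[≠] 1) (𝓝 u))

/-- The point `(u_1, ..., u_n, 1)`. -/
def extend (u : Fin n → ℂ) : Fin (n + 1) → ℂ := Fin.snoc (α := fun _ => ℂ) u 1

/-- `f` is the map of complex `(n + 1)`-space given, in the coordinates `x = (w u, w)`, by
`f(w u, w) = (w / (w + 1)) (A_(w + 1)(u), 1)`. -/
def IsFlowOf (A : Family n) (f : RatMap (n + 1)) : Prop :=
  OnOpen (fun v : (Fin n → ℂ) × ℂ => v.2 ≠ 0 ∧ v.2 + 1 ≠ 0 ∧ A.DefinedAt v.1 (v.2 + 1) ∧
    f.DefinedAt (v.2 • extend v.1) ∧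
    f.value (v.2 • extend v.1) = (v.2 / (v.2 + 1)) • extend (A.value v.1 (v.2 + 1)))

end Pool.Agent.Helper460.ProjFlow
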