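import Pool.Agent.Helper460.FlowHyp

set_option autoImplicit false
set_option linter.unusedSectionVars false

namespace Pool.Agent.Helper460.Flow

open MvPolynomial Filter Topology

section Tau

variable {k : ℕ}

/-- scaling of the variables -/
noncomputable def scaleR (c : ℂ) : MvPolynomial (Fin k) ℂ →ₐ[ℂ] MvPolynomial (Fin k) ℂ :=
  aeval fun i => C c * X i

lemma scaleR_inj (c : ℂˣ) : Function.Injective (scaleR (k := k) (c : ℂ)) := by
  have h : (scaleR (k := k) ((c⁻¹ : ℂˣ) : ℂ)).comp (scaleR (c : ℂ)) = AlgHom.id ℂ _ := by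
    apply MvPolynomial.algHom_ext
    intro i
    simp only [AlgHom.comp_apply, scaleR, aeval_X, map_mul, AlgHom.id_apply]
    rw [← MvPolynomial.algebraMap_eq, AlgHom.commutes, ← mul_assoc, ← map_mul]
    simp
  intro p q hpq
  have h1 := congrArg (fun f => f p) h
  have h2 := congrArg (fun f => f q) h
  simp only [AlgHom.comp_apply, AlgHom.id_apply] at h1 h2
  rw [← h1, ← h2, hpq]

lemma eval_scaleR (c : ℂ) (a : Fin k → ℂ) (p : MvPolynomial (Fin k) ℂ) :
    eval a (scaleR c p) = eval (c • a) p := by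
  have : (eval a).comp (scaleR (k := k) c).toRingHom = eval (c • a) := by
    apply MvPolynomial.ringHom_ext
    · intro r
      simp [scaleR, ← MvPolynomial.algebraMap_eq]
    · intro i
      simp [scaleR]
  exact congrArg (fun f => f p) this

variable {K : Type} [Field K] [Algebra (MvPolynomial (Fin k) ℂ) K]
    [IsFractionRing (MvPolynomial (Fin k) ℂ) K] [Algebra ℂ K]
    [IsScalarTower ℂ (MvPolynomial (Fin k) ℂ) K]

lemma exists_lift (f : MvPolynomial (Fin k) ℂ →ₐ[ℂ] K) (hf : Function.Injective f) :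
    ∃ g : K →ₐ[ℂ] K, ∀ p, g (algebraMap _ K p) = f p :=
  ⟨IsFractionRing.liftAlgHom hf, fun p =>
    IsFractionRing.lift_algebraMap (g := (f : MvPolynomial (Fin k) ℂ →+* K)) hf p⟩

variable (k K) in
lemma exists_tau : ∃ τ : ℂˣ → K →ₐ[ℂ] K, ∀ (c : ℂˣ) (p : MvPolynomial (Fin k) ℂ),
    τ c (algebraMap _ K p) = algebraMap _ K (scaleR (c : ℂ) p) := by
  have : ∀ c : ℂˣ, ∃ g : K →ₐ[ℂ] K, ∀ p : MvPolynomial (Fin k) ℂ,
      g (algebraMap _ K p) = algebraMap _ K (scaleR (c : ℂ) p) := by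
    intro c
    exact exists_lift ((IsScalarTower.toAlgHom ℂ (MvPolynomial (Fin k) ℂ) K).comp
      (scaleR (c : ℂ))) ((IsFractionRing.injective _ _).comp (scaleR_inj c))
  choose τ hτ using this
  exact ⟨τ, hτ⟩

lemma rhoK_tau (τ : ℂˣ → K →ₐ[ℂ] K) (hτ : ∀ (c : ℂˣ) (i : Fin k),
    τ c (xx k K i) = algebraMap ℂ K c * xx k K i) (c : ℂˣ) (p : MvPolynomial (Fin k) ℂ) :
    (rhoK K p).map (τ c : K →+* K)
      = (rhoK K p).comp (Polynomial.C (algebraMap ℂ K c) * Polynomial.X) := by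
  have h1 := map_rho_ext (k := k) (K := K) (L := Polynomial K)
    (Polynomial.mapRingHom (τ c : K →+* K))
    (fun i => Polynomial.C (algebraMap ℂ K c * xx k K i) * Polynomial.X) (fun c' => by simp)
    (fun i => by simp [hτ]) p
  have h2 := map_rho_ext (k := k) (K := K) (L := Polynomial K)
    (Polynomial.compRingHom (Polynomial.C (algebraMap ℂ K c) * Polynomial.X))
    (fun i => Polynomial.C (algebraMap ℂ K c * xx k K i) * Polynomial.X) (fun c' => by simp)
    (fun i => by simp; ring) p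
  simp only [Polynomial.coe_mapRingHom, Polynomial.coe_compRingHom_apply] at h1 h2
  rw [h1, h2]

end Tau

section Slice

variable {k : ℕ} {K : Type} [Field K] [Algebra (MvPolynomial (Fin k) ℂ) K]
    [IsFractionRing (MvPolynomial (Fin k) ℂ) K] [Algebra ℂ K]
    [IsScalarTower ℂ (MvPolynomial (Fin k) ℂ) K]

variable (P : Fin k → MvPolynomial (Fin k) ℂ) (Q : MvPolynomial (Fin k) ℂ)

variable (K) in
/-- From the analytic hypotheses to the algebraic package. -/
theorem slice_package (hQ : Q ≠ 0) (hne : ¬ ∀ i : Fin k, P i = X i * Q)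
    (hV : ∃ V : Set ((Fin k → ℂ) × ℂ), IsOpen V ∧ V.Nonempty ∧
        ∀ q ∈ V, q.2 ≠ 0 ∧ eval q.1 Q ≠ 0 ∧
          eval (((1 - q.2) / q.2) • Phi P Q (q.2 • q.1)) Q ≠ 0 ∧
          (1 - q.2) • Phi P Q q.1 = Phi P Q (((1 - q.2) / q.2) • Phi P Q (q.2 • q.1)))
    (hU : ∃ U : Set (Fin k → ℂ), IsOpen U ∧ U.Nonempty ∧
        ∀ x ∈ U, Tendsto (fun z : ℂ => z⁻¹ • Phi P Q (z • x)) (𝓝[≠] 0) (𝓝 x)) :
    ∃ (σ : K →ₐ[ℂ] K) (τ : ℂˣ → K →ₐ[ℂ] K) (s : K),
      (∀ i, σ (xx k K i) = algebraMap _ K (P i) / algebraMap _ K Q) ∧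
      (∀ (c : ℂˣ) (p : MvPolynomial (Fin k) ℂ),
        τ c (algebraMap _ K p) = algebraMap _ K (scaleR (c : ℂ) p)) ∧
      (∀ (i : Fin k) (c : ℂˣ), τ c (xx k K i) = algebraMap ℂ K c * xx k K i) ∧
      σ s = s + 1 ∧ (∀ c, τ c s = (algebraMap ℂ K c) ^ (-1 : ℤ) * s) ∧
      IntermediateField.adjoin ℂ ({s} ∪ ⋃ d, Hd σ τ d) = ⊤ := by
  obtain ⟨m, Qh, Ph, hQh, hQh0, hPh⟩ := hyp_bd P Q hQ hU
  obtain ⟨σ, hσ⟩ := exists_lift _ (sigma_inj K P Q hU)
  obtain ⟨τ, hτ⟩ := exists_tau k K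
  have hσx : ∀ i, σ (xx k K i) = algebraMap _ K (P i) / algebraMap _ K Q := by
    intro i; rw [xx, hσ, aeval_X]
  have hτx : ∀ (i : Fin k) (c : ℂˣ), τ c (xx k K i) = algebraMap ℂ K c * xx k K i := by
    intro i c
    rw [xx, hτ, scaleR, aeval_X, map_mul, ← MvPolynomial.algebraMap_eq,
      ← IsScalarTower.algebraMap_apply]
  set PK : Fin k → Polynomial K := fun i => (Ph i).map (algebraMap (MvPolynomial (Fin k) ℂ) K)
    with hPK
  set QK : Polynomial K := Qh.map (algebraMap (MvPolynomial (Fin k) ℂ) K) with hQK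
  have hrQ : rhoK K Q = Polynomial.X ^ m * QK := by
    rw [rhoK, hQh, Polynomial.map_mul, Polynomial.map_pow, Polynomial.map_X]
  have hrP : ∀ i, rhoK K (P i) = Polynomial.X ^ (m + 1) * PK i := by
    intro i
    rw [rhoK, (hPh i).1, Polynomial.map_mul, Polynomial.map_pow, Polynomial.map_X]
  have hQK0 : QK.coeff 0 ≠ 0 := by
    rw [hQK, Polynomial.coeff_map]; exact am_ne hQh0
  have hPK0 : ∀ i, (PK i).coeff 0 = xx k K i * QK.coeff 0 := by
    intro i
    rw [hPK, hQK, Polynomial.coeff_map, Polynomial.coeff_map, (hPh i).2, map_mul]; rfl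
  have hX1 : (Polynomial.X + 1 : Polynomial K) ≠ 0 := by
    rw [X_add_one_eq]; exact Polynomial.X_add_C_ne_zero 1
  have hXne : (Polynomial.X : Polynomial K) ≠ 0 := Polynomial.X_ne_zero
  have hcoc : ∀ i, (PK i).map (σ : K →+* K) * QK.comp (Polynomial.X + 1)
      = (PK i).comp (Polynomial.X + 1) * QK.map (σ : K →+* K) := by
    intro i
    have h := cocycle P Q σ hσx hV i
    rw [hrP, hrQ] at h
    simp only [Polynomial.map_mul, Polynomial.map_pow, Polynomial.map_X, Polynomial.mul_comp,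
      Polynomial.pow_comp, Polynomial.X_comp] at h
    have hne2 : (Polynomial.X ^ (m + 1) * (Polynomial.X + 1) ^ (m + 1) : Polynomial K) ≠ 0 :=
      mul_ne_zero (pow_ne_zero _ hXne) (pow_ne_zero _ hX1)
    apply mul_left_cancel₀ hne2
    calc _ = (Polynomial.X + 1) * (Polynomial.X ^ (m + 1) * (PK i).map (σ : K →+* K)) *
          ((Polynomial.X + 1) ^ m * QK.comp (Polynomial.X + 1)) := by ring
      _ = _ := by rw [← h]; ring
  have hhom : ∀ i (c : ℂˣ), (PK i).map (τ c : K →+* K)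
      * QK.comp (Polynomial.C (algebraMap ℂ K c) * Polynomial.X)
      = Polynomial.C ((algebraMap ℂ K c) ^ (1 : ℤ))
        * (PK i).comp (Polynomial.C (algebraMap ℂ K c) * Polynomial.X)
        * QK.map (τ c : K →+* K) := by
    intro i c
    have hc := algebraMap_unit_ne (K := K) c
    have h1 := rhoK_tau τ (fun c i => hτx i c) c (P i)
    have h2 := rhoK_tau τ (fun c i => hτx i c) c Q
    rw [hrP] at h1
    rw [hrQ] at h2
    simp only [Polynomial.map_mul, Polynomial.map_pow, Polynomial.map_X, Polynomial.mul_comp,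
      Polynomial.pow_comp, Polynomial.X_comp] at h1 h2
    rw [mul_pow, mul_comm (Polynomial.C _ ^ _) (Polynomial.X ^ _), mul_assoc] at h1 h2
    have h1' := mul_left_cancel₀ (pow_ne_zero _ hXne) h1
    have h2' := mul_left_cancel₀ (pow_ne_zero _ hXne) h2
    rw [h1', h2', zpow_one, pow_succ]
    ring
  have hnex : ∃ i, σ (xx k K i) ≠ xx k K i := by
    by_contra hcon
    push Not at hcon
    apply hne
    intro i
    have h := hcon i
    rw [hσx, div_eq_iff (am_ne hQ), xx, ← map_mul] at h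
    exact IsFractionRing.injective _ K h
  obtain ⟨s, hs, hs', hgen⟩ := exists_slice_gen σ τ (xx k K) PK QK hQK0 hPK0 hcoc hhom hnex
  refine ⟨σ, τ, s, hσx, hτ, hτx, hs, hs', ?_⟩
  rw [eq_top_iff, ← adjoin_xx (k := k), IntermediateField.adjoin_le_iff]
  rintro _ ⟨i, rfl⟩
  exact hgen i

end Slice

end Pool.Agent.Helper460.Flow
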