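import Pool.Agent.Helper460.FlowAlg

set_option autoImplicit false
set_option linter.unusedSectionVars false

namespace Pool.Agent.Helper460.Flow

open Polynomial IntermediateField

section Theta

variable {k : ℕ} {K : Type} [Field K] [Algebra (MvPolynomial (Fin k) ℂ) K]
    [IsFractionRing (MvPolynomial (Fin k) ℂ) K] [Algebra ℂ K]
    [IsScalarTower ℂ (MvPolynomial (Fin k) ℂ) K]

theorem theta_of_gen (y : Fin k → K) (hy : adjoin ℂ (Set.range y) = ⊤) :
    ∃ θ : K ≃ₐ[ℂ] K, ∀ i, θ (xx k K i) = y i := by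
  have halg : Algebra.IsAlgebraic (Algebra.adjoin ℂ (Set.range y)) K := by
    refine ⟨fun f => ?_⟩
    have hf : f ∈ adjoin ℂ (Set.range y) := by rw [hy]; trivial
    obtain ⟨r, hr, t, ht, hrt⟩ := (mem_adjoin_iff_div).mp hf
    by_cases ht0 : t = 0
    · rw [hrt, ht0, div_zero]; exact isAlgebraic_zero
    refine ⟨C (⟨t, ht⟩ : Algebra.adjoin ℂ (Set.range y)) * X - C ⟨r, hr⟩, ?_, ?_⟩
    · intro h0
      have := congrArg (fun p => ((p.coeff 1 : Algebra.adjoin ℂ (Set.range y)) : K)) h0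
      simp at this
      exact ht0 this
    · rw [map_sub, map_mul, aeval_C, aeval_C, aeval_X]
      show t * f - r = 0
      rw [hrt, mul_div_cancel₀ _ ht0, sub_self]
  have htb : IsTranscendenceBasis ℂ y := by
    apply Algebra.IsAlgebraic.isTranscendenceBasis_of_le_trdeg_of_finite
    rw [trdeg_K k K]; simp
  have hinj : Function.Injective (MvPolynomial.aeval y : MvPolynomial (Fin k) ℂ →ₐ[ℂ] K) := htb.1
  let f : K →ₐ[ℂ] K := IsFractionRing.liftAlgHom hinj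
  have hfx : ∀ i, f (xx k K i) = y i := by
    intro i
    rw [xx]
    have : f (algebraMap _ K (MvPolynomial.X i)) = MvPolynomial.aeval y (MvPolynomial.X i) :=
      IsFractionRing.lift_algebraMap (g := ((MvPolynomial.aeval y : MvPolynomial (Fin k) ℂ →ₐ[ℂ] K) : MvPolynomial (Fin k) ℂ →+* K)) hinj _
    rw [this, MvPolynomial.aeval_X]
  have hsurj : Function.Surjective f := by
    intro z
    have : adjoin ℂ (Set.range y) ≤ f.fieldRange := by
      rw [adjoin_le_iff]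
      rintro _ ⟨i, rfl⟩
      exact ⟨_, hfx i⟩
    have hz : z ∈ adjoin ℂ (Set.range y) := by rw [hy]; trivial
    exact this hz
  exact ⟨AlgEquiv.ofBijective f ⟨f.injective, hsurj⟩, hfx⟩

end Theta

section Three

variable {K : Type} [Field K] [Algebra (MvPolynomial (Fin 3) ℂ) K]
    [IsFractionRing (MvPolynomial (Fin 3) ℂ) K] [Algebra ℂ K]
    [IsScalarTower ℂ (MvPolynomial (Fin 3) ℂ) K]
    (σ : K →ₐ[ℂ] K) (τ : ℂˣ → K →ₐ[ℂ] K)

theorem exists_theta (hx : ∀ (i : Fin 3) c, τ c (xx 3 K i) = algebraMap ℂ K c * xx 3 K i) (s : K)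
    (hs : σ s = s + 1) (hs' : ∀ c, τ c s = (algebraMap ℂ K c) ^ (-1 : ℤ) * s)
    (hgen : adjoin ℂ ({s} ∪ ⋃ d, Hd σ τ d) = ⊤) :
    ∃ (N : ℕ) (θ : K ≃ₐ[ℂ] K),
      (∀ (i : Fin 3) c, τ c (θ (xx 3 K i)) = algebraMap ℂ K c * θ (xx 3 K i)) ∧
      σ (θ (xx 3 K 0)) = θ (xx 3 K 0) * (θ (xx 3 K 2) + 1) ^ ((N : ℤ) - 1) ∧
      σ (θ (xx 3 K 1)) = θ (xx 3 K 1) / (θ (xx 3 K 2) + 1) ∧
      σ (θ (xx 3 K 2)) = θ (xx 3 K 2) / (θ (xx 3 K 2) + 1) := by
  have hs0 : s ≠ 0 := by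
    rintro rfl
    rw [map_zero, zero_add] at hs
    exact zero_ne_one hs
  have hs10 : s + 1 ≠ 0 := by
    intro h
    rw [← hs] at h
    exact hs0 ((map_eq_zero σ).mp h)
  obtain ⟨N, p, q, hp, hq, hpqs⟩ := exists_pqs σ τ hx s hs hs' hgen
  let y : Fin 3 → K := ![q * s ^ ((N : ℤ) - 1), p / s, 1 / s]
  have hygen : adjoin ℂ (Set.range y) = ⊤ := by
    rw [eq_top_iff, ← hpqs, adjoin_le_iff]
    set T := adjoin ℂ (Set.range y) with hT
    have h0 : y 0 ∈ T := subset_adjoin _ _ ⟨0, rfl⟩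
    have h1 : y 1 ∈ T := subset_adjoin _ _ ⟨1, rfl⟩
    have h2 : y 2 ∈ T := subset_adjoin _ _ ⟨2, rfl⟩
    have hsT : s ∈ T := by
      have : s = (y 2)⁻¹ := by simp [y]
      rw [this]; exact inv_mem h2
    rintro z (rfl | rfl | rfl)
    · have : z = y 1 * s := by simp [y, hs0]
      rw [this]; exact mul_mem h1 hsT
    · have : z = y 0 * s ^ (1 - (N : ℤ)) := by
        simp only [y, Matrix.cons_val_zero]
        rw [mul_assoc, ← zpow_add₀ hs0]; simp
      rw [this]; exact mul_mem h0 (zpow_mem hsT _)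
    · exact hsT
  obtain ⟨θ, hθ⟩ := theta_of_gen (k := 3) y hygen
  have hy2 : y 2 + 1 = (s + 1) / s := by simp [y]; field_simp; ring
  refine ⟨N, θ, ?_, ?_, ?_, ?_⟩
  · intro i c
    rw [hθ]
    have hc := algebraMap_unit_ne (K := K) c
    fin_cases i
    · show τ c (q * s ^ ((N : ℤ) - 1)) = algebraMap ℂ K c * (q * s ^ ((N : ℤ) - 1))
      rw [map_mul, map_zpow₀, hq.2, hs', mul_zpow, ← zpow_mul]
      have : (-1 : ℤ) * ((N : ℤ) - 1) = 1 + (-(N : ℤ)) := by ring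
      rw [this, zpow_add₀ hc, zpow_one, zpow_neg]
      have hcN := zpow_ne_zero (N : ℤ) hc
      field_simp
    · show τ c (p / s) = algebraMap ℂ K c * (p / s)
      rw [map_div₀, hs', hp.2, zpow_zero, one_mul, zpow_neg_one]
      field_simp
    · show τ c (1 / s) = algebraMap ℂ K c * (1 / s)
      rw [map_div₀, hs', map_one, zpow_neg_one]
      field_simp
  · rw [hθ, hθ, hy2]
    show σ (q * s ^ ((N : ℤ) - 1)) = (q * s ^ ((N : ℤ) - 1)) * ((s + 1) / s) ^ ((N : ℤ) - 1)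
    rw [map_mul, map_zpow₀, hs, hq.1, mul_assoc, ← mul_zpow, mul_div_cancel₀ _ hs0]
  · rw [hθ, hθ, hy2]
    show σ (p / s) = (p / s) / ((s + 1) / s)
    rw [map_div₀, hs, hp.1]
    field_simp
  · rw [hθ, hy2]
    show σ (1 / s) = (1 / s) / ((s + 1) / s)
    rw [map_div₀, hs, map_one]
    field_simp

end Three

end Pool.Agent.Helper460.Flow
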