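import Pool.Agent.Helper460.Cls7
import Pool.Agent.Helper460.FlowList

set_option autoImplicit false
set_option linter.unusedSectionVars false

namespace Pool.Agent.Helper460.Flow

open MvPolynomial Filter Topology Pool.Agent.Helper460.ProjFlow

section Normalize

variable {n : ℕ}

theorem normalize (g : RatMap (n + 1)) (hg : IsFlow g) (hg' : ¬ g.IsIdentity)
    {τ : ℂˣ → RatFun (n + 1) →ₐ[ℂ] RatFun (n + 1)} (hτ : IsScal τ) :
    ∃ (f : RatMap (n + 1)) (σ' : RatFun (n + 1) →ₐ[ℂ] RatFun (n + 1)), IsPull f σ' ∧ IsFlow f ∧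
      ¬ f.IsIdentity ∧ Conjugate g f ∧
      σ' (xx (n + 1) (RatFun (n + 1)) (Fin.last n)) = xx (n + 1) (RatFun (n + 1)) (Fin.last n) /
        (xx (n + 1) (RatFun (n + 1)) (Fin.last n) + 1) := by
  obtain ⟨σ, s, hσ, hs, hsτ, hgen⟩ := flow_package hg hg' hτ
  have hx : ∀ i c, τ c (xx (n + 1) (RatFun (n + 1)) i)
      = algebraMap ℂ (RatFun (n + 1)) c * xx (n + 1) (RatFun (n + 1)) i := fun i c => scal_xx hτ i c
  have hs0 : s ≠ 0 := by
    rintro rfl
    rw [map_zero, zero_add] at hs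
    exact zero_ne_one hs
  let K := RatFun (n + 1)
  let w : K := xx (n + 1) K (Fin.last n)
  have hw0 : w ≠ 0 := xx_ne _
  let y : Fin (n + 1) → K := Fin.snoc (α := fun _ => K) (fun j => uu n K j / s) s⁻¹
  have hy1 : ∀ j : Fin n, y j.castSucc = uu n K j / s := fun j => by simp [y]
  have hy2 : y (Fin.last n) = s⁻¹ := by simp [y]
  have hytop : IntermediateField.adjoin ℂ (Set.range y) = ⊤ := by
    rw [eq_top_iff, ← adjoin_uu (n := n) (K := K), IntermediateField.adjoin_le_iff]
    set T := IntermediateField.adjoin ℂ (Set.range y) with hT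
    have hsT : s ∈ T := by
      have : s = (y (Fin.last n))⁻¹ := by rw [hy2, inv_inv]
      rw [this]
      exact inv_mem (IntermediateField.subset_adjoin _ _ ⟨_, rfl⟩)
    have huT : ∀ j, uu n K j ∈ T := by
      intro j
      have : uu n K j = y j.castSucc * s := by rw [hy1, div_mul_cancel₀ _ hs0]
      rw [this]
      exact mul_mem (IntermediateField.subset_adjoin _ _ ⟨_, rfl⟩) hsT
    rintro z (⟨j, rfl⟩ | rfl)
    · exact huT j
    · have h1 : s * w ∈ Kτ τ := by
        intro c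
        have hc := algebraMap_unit_ne (K := K) c
        rw [map_mul, hsτ, hx, zpow_neg_one]
        field_simp
        rfl
      rw [Ktau_eq τ hx] at h1
      have h2 : s * w ∈ T := by
        have hle : IntermediateField.adjoin ℂ (Set.range (uu n K)) ≤ T := by
          rw [IntermediateField.adjoin_le_iff]
          rintro _ ⟨j, rfl⟩
          exact huT j
        exact hle h1
      have h3 : w = (s * w) * s⁻¹ := by field_simp
      show w ∈ T
      rw [h3]
      exact mul_mem h2 (inv_mem hsT)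
  obtain ⟨θ, hθ⟩ := theta_of_gen y hytop
  have hθτ : ∀ c z, θ (τ c z) = τ c (θ z) := by
    intro c
    have : (θ : K →ₐ[ℂ] K).comp (τ c) = (τ c).comp (θ : K →ₐ[ℂ] K) := by
      apply algHom_ext_xx (k := n + 1)
      intro i
      show θ (τ c (xx (n + 1) K i)) = τ c (θ (xx (n + 1) K i))
      rw [hx, map_mul, AlgEquiv.commutes, hθ]
      have hc := algebraMap_unit_ne (K := K) c
      induction i using Fin.lastCases with
      | last => rw [hy2, map_inv₀, hsτ, zpow_neg_one, mul_inv, inv_inv]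
      | cast j =>
        rw [hy1, map_div₀, hsτ, uu_mem τ hx j c, zpow_neg_one, mul_comm (_⁻¹) s, ← div_div,
          div_inv_eq_mul, mul_comm]
    intro z
    exact congrArg (fun F => F z) this
  have hθτ' : ∀ c z, θ.symm (τ c z) = τ c (θ.symm z) := by
    intro c z
    apply θ.injective
    rw [AlgEquiv.apply_symm_apply, hθτ, AlgEquiv.apply_symm_apply]
  let σ' : K →ₐ[ℂ] K := (θ.symm : K →ₐ[ℂ] K).comp (σ.comp (θ : K →ₐ[ℂ] K))
  have hσ'a : ∀ z, σ' z = θ.symm (σ (θ z)) := fun _ => rfl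
  have hcomm : ∀ z, θ.symm (σ z) = σ' (θ.symm z) := by
    intro z
    rw [hσ'a, AlgEquiv.apply_symm_apply]
  have hs' : σ' (θ.symm s) = θ.symm s + 1 := by
    rw [← hcomm, hs, map_add, map_one]
  have hsτ' : ∀ c, τ c (θ.symm s) = (algebraMap ℂ K c) ^ (-1 : ℤ) * θ.symm s := by
    intro c
    rw [← hθτ', hsτ, map_mul, map_zpow₀, AlgEquiv.commutes]
  have hsw : θ.symm s = w⁻¹ := by
    apply θ.injective
    rw [AlgEquiv.apply_symm_apply, map_inv₀, hθ, hy2, inv_inv]
  have hgen' : IntermediateField.adjoin ℂ ({θ.symm s} ∪ ⋃ d, Hd σ' τ d) = ⊤ := by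
    have h1 : (IntermediateField.adjoin ℂ ({s} ∪ ⋃ d, Hd σ τ d)).map (θ.symm : K →ₐ[ℂ] K) = ⊤ := by
      rw [hgen]
      ext z
      constructor
      · intro _; trivial
      · intro _
        exact ⟨θ z, trivial, by simp⟩
    rw [IntermediateField.adjoin_map] at h1
    rw [eq_top_iff, ← h1]
    apply IntermediateField.adjoin.mono
    rintro _ ⟨z, (rfl | hz), rfl⟩
    · exact Or.inl rfl
    · obtain ⟨d, hd⟩ := Set.mem_iUnion.mp hz
      exact Or.inr (Set.mem_iUnion.mpr ⟨d, (map_Hd θ.symm hθτ' hcomm d z).mp hd⟩)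
  obtain ⟨f, hf1, hf2, hf3⟩ := flow_exists hτ σ' (θ.symm s) hs' hsτ' hgen'
  refine ⟨f, σ', hf1, hf2, hf3, field_to_conj hσ hf1 hτ θ.symm hθτ' hcomm, ?_⟩
  have h4 : σ' w = θ.symm ((s + 1)⁻¹) := by
    rw [hσ'a, hθ, hy2, map_inv₀, hs]
  show σ' w = w / (w + 1)
  rw [h4, map_inv₀, map_add, map_one, hsw]
  have hw1 : w + 1 ≠ 0 := by
    intro h
    have h5 : w = algebraMap ℂ K (-1) := by
      rw [map_neg, map_one]; exact eq_neg_of_add_eq_zero_left h
    have h6 := hx (Fin.last n) (Units.mk0 2 two_ne_zero)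
    change τ _ w = _ * w at h6
    rw [h5, AlgHom.commutes, ← map_mul] at h6
    have := (algebraMap ℂ K).injective h6
    norm_num at this
  have h7 : w⁻¹ + 1 = (w + 1) / w := by rw [add_div, div_self hw0, one_div, add_comm]
  rw [h7, inv_div]

end Normalize

end Pool.Agent.Helper460.Flow
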