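import Pool.Agent.Helper460.Lst1

set_option autoImplicit false
set_option linter.unusedSectionVars false

namespace Pool.Agent.Helper460.Flow

open MvPolynomial Filter Topology Pool.Agent.Helper460.ProjFlow

section ToGroup

variable {n : ℕ}

/-- substitution of the coordinates `(t - 1) (u, 1)` -/
noncomputable def sub : MvPolynomial (Fin (n + 1)) ℂ →ₐ[ℂ] Polynomial (MvPolynomial (Fin n) ℂ) :=
  aeval (Fin.snoc (α := fun _ => Polynomial (MvPolynomial (Fin n) ℂ))
    (fun j => Polynomial.C (X j) * (Polynomial.X - 1)) (Polynomial.X - 1))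

lemma extend_last (u : Fin n → ℂ) : extend u (Fin.last n) = 1 := by simp [extend]

lemma extend_cast (u : Fin n → ℂ) (j : Fin n) : extend u j.castSucc = u j := by simp [extend]

lemma continuous_extend : Continuous (extend : (Fin n → ℂ) → Fin (n + 1) → ℂ) := by
  apply continuous_pi
  intro i
  induction i using Fin.lastCases with
  | last => simp only [extend_last]; exact continuous_const
  | cast j => simp only [extend_cast]; exact continuous_apply j

lemma polyValue_eq (p : Polynomial (MvPolynomial (Fin n) ℂ)) (u : Fin n → ℂ) (t : ℂ) :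
    polyValue p u t = evz u t p := rfl

lemma polyValue_sub (p : MvPolynomial (Fin (n + 1)) ℂ) (u : Fin n → ℂ) (t : ℂ) :
    polyValue (sub p) u t = eval ((t - 1) • extend u) p := by
  have h : (evz u t).comp (sub : MvPolynomial (Fin (n + 1)) ℂ →ₐ[ℂ] _).toRingHom
      = (eval ((t - 1) • extend u) : MvPolynomial (Fin (n + 1)) ℂ →+* ℂ) := by
    apply MvPolynomial.ringHom_ext
    · intro r
      have : (sub (C r) : Polynomial (MvPolynomial (Fin n) ℂ)) = Polynomial.C (C r) := by
        rw [sub, algHom_C]; rfl
      show evz u t (sub (C r)) = _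
      rw [this, eval_C]
      simp [evz]
    · intro i
      show evz u t (sub (X i)) = _
      rw [sub, aeval_X, eval_X]
      induction i using Fin.lastCases with
      | last => simp [evz, extend_last]
      | cast j =>
        simp only [Fin.snoc_castSucc, Pi.smul_apply, smul_eq_mul, extend_cast]
        simp [evz]
        ring
  exact congrArg (fun F => F p) h

lemma decomp (x : Fin (n + 1) → ℂ) (h : x (Fin.last n) ≠ 0) :
    x = x (Fin.last n) • extend (fun j => x j.castSucc / x (Fin.last n)) := by
  funext i
  induction i using Fin.lastCases with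
  | last => simp [extend_last]
  | cast j =>
    simp only [Pi.smul_apply, smul_eq_mul, extend_cast]
    rw [mul_div_cancel₀ _ h]

lemma countable_avoid (W : Set ℂ) (hW : IsOpen W) (hne : W.Nonempty) (a b c : ℂ) :
    ∃ z ∈ W, z ≠ a ∧ z ≠ b ∧ z ≠ c := by
  have h1 : ({a, b, c} : Set ℂ).Countable := (Set.toFinite _).countable
  obtain ⟨z, hz1, hz2⟩ := (h1.dense_compl ℝ).inter_open_nonempty W hW hne
  simp only [Set.mem_compl_iff, Set.mem_insert_iff, Set.mem_singleton_iff, not_or] at hz2
  exact ⟨z, hz1, hz2⟩

lemma shrink {V : Set ((Fin (n + 1) → ℂ) × ℂ)} (hV : IsOpen V) (hne : V.Nonempty) :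
    ∃ x z, (x, z) ∈ V ∧ x (Fin.last n) ≠ 0 ∧ x (Fin.last n) + 1 ≠ 0 ∧ z ≠ 0 ∧ z ≠ 1 ∧
      z * x (Fin.last n) + 1 ≠ 0 := by
  obtain ⟨⟨x0, z0⟩, h0⟩ := hne
  have h1 : ∃ x : Fin (n + 1) → ℂ, (x, z0) ∈ V ∧
      eval x (X (Fin.last n) * (X (Fin.last n) + 1) : MvPolynomial (Fin (n + 1)) ℂ) ≠ 0 := by
    by_contra hcon
    push Not at hcon
    have h2 := zero_of_open (X (Fin.last n) * (X (Fin.last n) + 1) : MvPolynomial (Fin (n + 1)) ℂ)
      {x | (x, z0) ∈ V} (hV.preimage (Continuous.prodMk_left z0)) ⟨x0, h0⟩ (fun a ha => hcon a ha)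
    have h3 := congrArg (eval (fun _ => (1 : ℂ))) h2
    simp at h3
  obtain ⟨x, hx, hx2⟩ := h1
  simp only [map_mul, map_add, eval_X, map_one, mul_ne_zero_iff] at hx2
  obtain ⟨z, hz1, hz2, hz3, hz4⟩ := countable_avoid {z | (x, z) ∈ V}
    (hV.preimage (Continuous.prodMk_right x)) ⟨z0, hx⟩ 0 1 (-(x (Fin.last n))⁻¹)
  refine ⟨x, z, hz1, hx2.1, hx2.2, hz2, hz3, ?_⟩
  intro h
  apply hz4
  have : z * x (Fin.last n) = -1 := eq_neg_of_add_eq_zero_left h
  field_simp [hx2.1]
  exact this

theorem to_group (f : RatMap (n + 1)) (hf : IsFlow f)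
    (hLQ : f.num (Fin.last n) * (X (Fin.last n) + 1) = X (Fin.last n) * f.den) :
    ∃ A : Family n, IsMultGroup A ∧ IsFlowOf A f := by
  have hev : ∀ x : Fin (n + 1) → ℂ, eval x (f.num (Fin.last n)) * (x (Fin.last n) + 1)
      = x (Fin.last n) * eval x f.den := by
    intro x
    have := congrArg (eval x) hLQ
    simpa using this
  have hL0 : f.num (Fin.last n) ≠ 0 := by
    intro h
    rw [h, zero_mul] at hLQ
    exact mul_ne_zero (MvPolynomial.X_ne_zero _) f.den_ne_zero hLQ.symm
  have hden : sub (f.num (Fin.last n)) ≠ 0 := by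
    intro h
    have h1 : f.num (Fin.last n) * X (Fin.last n) = 0 := by
      apply MvPolynomial.funext
      intro x
      rw [map_mul, eval_X, map_zero]
      by_cases hx : x (Fin.last n) = 0
      · rw [hx, mul_zero]
      · have h2 := polyValue_sub (f.num (Fin.last n)) (fun j => x j.castSucc / x (Fin.last n))
          (x (Fin.last n) + 1)
        rw [h, add_sub_cancel_right, ← decomp x hx] at h2
        rw [← h2]
        simp [polyValue]
    rcases mul_eq_zero.mp h1 with h2 | h2
    · exact hL0 h2
    · exact MvPolynomial.X_ne_zero _ h2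
  let A : Family n := ⟨fun i => sub (f.num i.castSucc), sub (f.num (Fin.last n)), hden⟩
  have hAd : ∀ u t, polyValue A.den u t = eval ((t - 1) • extend u) (f.num (Fin.last n)) :=
    fun u t => polyValue_sub _ u t
  have hAn : ∀ i u t, polyValue (A.num i) u t = eval ((t - 1) • extend u) (f.num i.castSucc) :=
    fun i u t => polyValue_sub _ u t
  refine ⟨A, ⟨?_, ?_⟩, ?_⟩
  · obtain ⟨⟨V, hVo, hVn, hV⟩, _⟩ := hf
    let D : Set ((Fin n → ℂ) × ℂ × ℂ) := {v | v.2.1 ≠ 0 ∧ v.2.1 ≠ 1 ∧ v.2.2 ≠ 0 ∧ v.2.2 ≠ 1 ∧
      v.2.1 * v.2.2 - 1 ≠ 0}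
    have hD : IsOpen D := by
      have c1 : Continuous fun v : (Fin n → ℂ) × ℂ × ℂ => v.2.1 := continuous_fst.comp continuous_snd
      have c2 : Continuous fun v : (Fin n → ℂ) × ℂ × ℂ => v.2.2 := continuous_snd.comp continuous_snd
      exact (isOpen_ne_fun c1 continuous_const).inter ((isOpen_ne_fun c1 continuous_const).inter
        ((isOpen_ne_fun c2 continuous_const).inter ((isOpen_ne_fun c2 continuous_const).inter
        (isOpen_ne_fun ((c1.mul c2).sub continuous_const) continuous_const))))
    let Φ : (Fin n → ℂ) × ℂ × ℂ → (Fin (n + 1) → ℂ) × ℂ := fun v =>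
      ((v.2.1 * v.2.2 - 1) • extend v.1, (v.2.1 - 1) / (v.2.1 * v.2.2 - 1))
    have hΦ : ContinuousOn Φ D := by
      have c1 : Continuous fun v : (Fin n → ℂ) × ℂ × ℂ => v.2.1 := continuous_fst.comp continuous_snd
      have c2 : Continuous fun v : (Fin n → ℂ) × ℂ × ℂ => v.2.2 := continuous_snd.comp continuous_snd
      have c3 := (c1.mul c2).sub (continuous_const (y := (1 : ℂ)))
      refine ContinuousOn.prodMk ?_ ?_
      · exact (c3.smul (continuous_extend.comp continuous_fst)).continuousOn
      · exact ((c1.sub continuous_const).continuousOn).div c3.continuousOn (fun v hv => hv.2.2.2.2)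
    refine ⟨D ∩ Φ ⁻¹' V, hΦ.isOpen_inter_preimage hD hVo, ?_, ?_⟩
    · obtain ⟨x, z, hxz, hw0, hw1, hz0, hz1, hzw⟩ := shrink hVo hVn
      set w := x (Fin.last n) with hw
      have e1 : (z * w + 1) * ((w + 1) / (z * w + 1)) = w + 1 := by field_simp
      refine ⟨(fun j => x j.castSucc / w, z * w + 1, (w + 1) / (z * w + 1)), ?_, ?_⟩
      · refine ⟨hzw, ?_, div_ne_zero hw1 hzw, ?_, ?_⟩
        · intro h
          exact mul_ne_zero hz0 hw0 (by simpa using h)
        · intro h
          rw [div_eq_one_iff_eq hzw] at h
          have h2 : (z - 1) * w = 0 := by linear_combination -h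
          rcases mul_eq_zero.mp h2 with h3 | h3
          · exact hz1 (sub_eq_zero.mp h3)
          · exact hw0 h3
        · show (z * w + 1) * ((w + 1) / (z * w + 1)) - 1 ≠ 0
          rw [e1, add_sub_cancel_right]; exact hw0
      · show (((z * w + 1) * ((w + 1) / (z * w + 1)) - 1) • extend (fun j => x j.castSucc / w),
          (z * w + 1 - 1) / ((z * w + 1) * ((w + 1) / (z * w + 1)) - 1)) ∈ V
        rw [e1, add_sub_cancel_right, add_sub_cancel_right, mul_div_assoc, div_self hw0, mul_one,
          ← decomp x hw0]
        exact hxz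
    · rintro ⟨u, s, t⟩ ⟨⟨hs0, hs1, ht0, ht1, hst⟩, hv⟩
      obtain ⟨hz0, d1, d2, d3, heq⟩ := hV _ hv
      simp only [Φ] at hz0 d1 d2 d3 heq hst hs0 hs1 ht0 ht1
      set w := s * t - 1 with hwdef
      set z := (s - 1) / w with hzdef
      have hzw : z * w = s - 1 := by rw [hzdef, div_mul_cancel₀ _ hst]
      have hs1' : s - 1 ≠ 0 := sub_ne_zero.mpr hs1
      have ht1' : t - 1 ≠ 0 := sub_ne_zero.mpr ht1
      have hst1 : w + 1 ≠ 0 := by rw [hwdef]; simpa using mul_ne_zero hs0 ht0
      have hzx : z • w • extend u = (s - 1) • extend u := by rw [smul_smul, hzw]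
      rw [hzx] at d2 d3 heq
      set Qx := eval (w • extend u) f.den with hQx
      set Lx := eval (w • extend u) (f.num (Fin.last n)) with hLx
      set Qz := eval ((s - 1) • extend u) f.den with hQz
      set Lz := eval ((s - 1) • extend u) (f.num (Fin.last n)) with hLz
      have hQx0 : Qx ≠ 0 := d1
      have hQz0 : Qz ≠ 0 := d2
      have ex : Lx * (w + 1) = w * Qx := by
        have := hev (w • extend u)
        simpa [extend_last] using this
      have ez : Lz * s = (s - 1) * Qz := by
        have := hev ((s - 1) • extend u)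
        simpa [extend_last] using this
      have hLx0 : Lx ≠ 0 := by
        intro h; rw [h, zero_mul] at ex; exact mul_ne_zero hst hQx0 ex.symm
      have hLz0 : Lz ≠ 0 := by
        intro h; rw [h, zero_mul] at ez; exact mul_ne_zero hs1' hQz0 ez.symm
      -- the value at s
      have hv1 : ∀ i, A.value u s i = eval ((s - 1) • extend u) (f.num i.castSucc) / Lz := by
        intro i
        show polyValue (A.num i) u s / polyValue A.den u s = _
        rw [hAn, hAd]
      -- the third point
      have hy : ((1 - z) / z) • f.value ((s - 1) • extend u) = (t - 1) • extend (A.value u s) := by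
        have hk : (1 - z) / z * (Lz / Qz) = t - 1 := by
          have h1 : (1 - z) * w = s * (t - 1) := by rw [sub_mul, hzw, hwdef]; ring
          have h2 : Lz / Qz = (s - 1) / s := by
            rw [div_eq_div_iff hQz0 hs0, ez]
          have h3 : (1 - z) / z = s * (t - 1) / (s - 1) := by
            rw [div_eq_div_iff hz0 hs1', ← hzw]
            linear_combination z * h1
          rw [h2, h3]
          field_simp
        funext i
        induction i using Fin.lastCases with
        | last =>
          simp only [Pi.smul_apply, smul_eq_mul, extend_last, mul_one]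
          exact hk
        | cast j =>
          simp only [Pi.smul_apply, smul_eq_mul, extend_cast]
          rw [hv1, ← hk]
          show (1 - z) / z * (eval ((s - 1) • extend u) (f.num j.castSucc) / Qz) = _
          field_simp
      rw [hy] at d3 heq
      set v := A.value u s with hvdef
      set Qy := eval ((t - 1) • extend v) f.den with hQy
      set Ly := eval ((t - 1) • extend v) (f.num (Fin.last n)) with hLy
      have hQy0 : Qy ≠ 0 := d3
      have ey : Ly * t = (t - 1) * Qy := by
        have := hev ((t - 1) • extend v)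
        simpa [extend_last] using this
      have hLy0 : Ly ≠ 0 := by
        intro h; rw [h, zero_mul] at ey; exact mul_ne_zero ht1' hQy0 ey.symm
      have hz1' : 1 - z ≠ 0 := by
        intro h
        have h1 : (1 - z) * w = s * (t - 1) := by rw [sub_mul, hzw, hwdef]; ring
        rw [h, zero_mul] at h1
        exact mul_ne_zero hs0 ht1' h1.symm
      refine ⟨?_, ?_, ?_, ?_⟩
      · show polyValue A.den u s ≠ 0
        rw [hAd]; exact hLz0
      · show polyValue A.den v t ≠ 0
        rw [hAd]; exact hLy0
      · show polyValue A.den u (s * t) ≠ 0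
        rw [hAd]; exact hLx0
      · funext i
        show polyValue (A.num i) v t / polyValue A.den v t
          = polyValue (A.num i) u (s * t) / polyValue A.den u (s * t)
        rw [hAn, hAd, hAn, hAd]
        have h1 := congrFun heq i.castSucc
        have h2 := congrFun heq (Fin.last n)
        have h1' : (1 - z) * (eval (w • extend u) (f.num i.castSucc) / Qx)
            = eval ((t - 1) • extend v) (f.num i.castSucc) / Qy := h1
        have h2' : (1 - z) * (Lx / Qx) = Ly / Qy := h2
        show eval ((t - 1) • extend v) (f.num i.castSucc) / Ly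
          = eval (w • extend u) (f.num i.castSucc) / Lx
        have h3 : eval ((t - 1) • extend v) (f.num i.castSucc) / Ly
            = (eval ((t - 1) • extend v) (f.num i.castSucc) / Qy) / (Ly / Qy) := by
          field_simp
        rw [h3, ← h1', ← h2']
        field_simp
  · obtain ⟨_, ⟨U, hUo, hUn, hU⟩⟩ := hf
    obtain ⟨x0, hx0, hx1⟩ : ∃ x ∈ U, x (Fin.last n) ≠ 0 := by
      by_contra hcon
      push Not at hcon
      have := zero_of_open (X (Fin.last n) : MvPolynomial (Fin (n + 1)) ℂ) U hUo hUn
        (fun a ha => by rw [eval_X]; exact hcon a ha)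
      exact MvPolynomial.X_ne_zero _ this
    set w := x0 (Fin.last n) with hw
    have hcont : Continuous fun u : Fin n → ℂ => w • extend u := continuous_extend.const_smul w
    refine ⟨(fun u : Fin n → ℂ => w • extend u) ⁻¹' U, hUo.preimage hcont, ?_, ?_⟩
    · refine ⟨fun j => x0 j.castSucc / w, ?_⟩
      show w • extend _ ∈ U
      rw [← decomp x0 hx1]; exact hx0
    · intro u hu
      have h1 := hU _ hu
      have h1l := (tendsto_pi_nhds.mp h1) (Fin.last n)
      have h1i := fun i : Fin n => (tendsto_pi_nhds.mp h1) i.castSucc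
      simp only [Pi.smul_apply, smul_eq_mul, extend_last, mul_one, extend_cast] at h1l h1i
      -- change of variables
      have hsub : Tendsto (fun t : ℂ => (t - 1) / w) (𝓝[≠] 1) (𝓝[≠] 0) := by
        apply tendsto_nhdsWithin_of_tendsto_nhds_of_eventually_within
        · have : Tendsto (fun t : ℂ => (t - 1) / w) (𝓝 1) (𝓝 ((1 - 1) / w)) :=
            ((continuous_id.sub continuous_const).div_const w).tendsto 1
          rw [sub_self, zero_div] at this
          exact this.mono_left nhdsWithin_le_nhds
        · filter_upwards [self_mem_nhdsWithin] with t ht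
          exact div_ne_zero (sub_ne_zero.mpr ht) hx1
      rw [tendsto_pi_nhds]
      intro i
      have h2 := ((h1i i).comp hsub).div (h1l.comp hsub) hx1
      rw [mul_div_cancel_left₀ _ hx1] at h2
      refine h2.congr' ?_
      have h3 : ∀ᶠ t in 𝓝[≠] (1 : ℂ), ((t - 1) / w)⁻¹ *
          f.value (((t - 1) / w) • w • extend u) (Fin.last n) ≠ 0 :=
        (h1l.comp hsub).eventually_ne hx1
      filter_upwards [h3, self_mem_nhdsWithin] with t ht ht1
      have e1 : ((t - 1) / w) • w • extend u = (t - 1) • extend u := by
        rw [smul_smul, div_mul_cancel₀ _ hx1]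
      simp only [Pi.div_apply, Function.comp_apply]
      rw [e1] at ht ⊢
      have ht2 : ((t - 1) / w)⁻¹ ≠ 0 := left_ne_zero_of_mul ht
      have ht3 : f.value ((t - 1) • extend u) (Fin.last n) ≠ 0 := right_ne_zero_of_mul ht
      rw [mul_div_mul_left _ _ ht2]
      show eval ((t - 1) • extend u) (f.num i.castSucc) / eval ((t - 1) • extend u) f.den /
        (eval ((t - 1) • extend u) (f.num (Fin.last n)) / eval ((t - 1) • extend u) f.den)
        = polyValue (A.num i) u t / polyValue A.den u t
      rw [hAn, hAd]
      have hq : eval ((t - 1) • extend u) f.den ≠ 0 := by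
        intro h
        apply ht3
        show _ / _ = _
        rw [h, div_zero]
      rw [div_div_div_cancel_right₀ hq]
  · -- the formula
    let O : Set (Fin (n + 1) → ℂ) :=
      {x | x (Fin.last n) ≠ 0 ∧ x (Fin.last n) + 1 ≠ 0 ∧ eval x f.den ≠ 0}
    have hO : IsOpen O :=
      (isOpen_ne_fun (continuous_apply _) continuous_const).inter
      ((isOpen_ne_fun ((continuous_apply _).add continuous_const) continuous_const).inter
      (isOpen_ne_fun (continuous_eval' _) continuous_const))
    have hcont : Continuous fun v : (Fin n → ℂ) × ℂ => v.2 • extend v.1 :=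
      continuous_snd.smul (continuous_extend.comp continuous_fst)
    refine ⟨(fun v : (Fin n → ℂ) × ℂ => v.2 • extend v.1) ⁻¹' O, hO.preimage hcont, ?_, ?_⟩
    · obtain ⟨x, hx⟩ : ∃ x : Fin (n + 1) → ℂ,
          eval x (X (Fin.last n) * (X (Fin.last n) + 1) * f.den) ≠ 0 := by
        by_contra hcon
        push Not at hcon
        have h1 : (X (Fin.last n) * (X (Fin.last n) + 1) * f.den
            : MvPolynomial (Fin (n + 1)) ℂ) = 0 :=
          MvPolynomial.funext (fun x => by rw [hcon x, map_zero])
        rcases mul_eq_zero.mp h1 with h2 | h2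
        · have h3 := congrArg (eval (fun _ => (1 : ℂ))) h2
          simp at h3
        · exact f.den_ne_zero h2
      simp only [map_mul, map_add, eval_X, map_one, mul_ne_zero_iff] at hx
      refine ⟨(fun j => x j.castSucc / x (Fin.last n), x (Fin.last n)), ?_⟩
      show x (Fin.last n) • extend _ ∈ O
      rw [← decomp x hx.1.1]
      exact ⟨hx.1.1, hx.1.2, hx.2⟩
    · rintro ⟨u, w⟩ ⟨h1, h2, h3⟩
      simp only [Pi.smul_apply, smul_eq_mul, extend_last, mul_one] at h1 h2 h3
      have e1 := hev (w • extend u)
      simp only [Pi.smul_apply, smul_eq_mul, extend_last, mul_one] at e1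
      have hL : eval (w • extend u) (f.num (Fin.last n)) ≠ 0 := by
        intro h; rw [h, zero_mul] at e1; exact mul_ne_zero h1 h3 e1.symm
      refine ⟨h1, h2, ?_, h3, ?_⟩
      · show polyValue A.den u (w + 1) ≠ 0
        rw [hAd, add_sub_cancel_right]; exact hL
      · have hr : eval (w • extend u) (f.num (Fin.last n)) / eval (w • extend u) f.den
            = w / (w + 1) := by
          rw [div_eq_div_iff h3 h2, e1]
        funext i
        induction i using Fin.lastCases with
        | last =>
          simp only [Pi.smul_apply, smul_eq_mul, extend_last, mul_one]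
          exact hr
        | cast j =>
          simp only [Pi.smul_apply, smul_eq_mul, extend_cast]
          show eval (w • extend u) (f.num j.castSucc) / eval (w • extend u) f.den
            = w / (w + 1) * (polyValue (A.num j) u (w + 1) / polyValue A.den u (w + 1))
          rw [hAn, hAd, add_sub_cancel_right, ← hr]
          field_simp

end ToGroup

end Pool.Agent.Helper460.Flow
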