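import Pool.Agent.Helper460.Lst2

set_option autoImplicit false
set_option linter.unusedSectionVars false

namespace Pool.Agent.Helper460.Flow

open MvPolynomial Filter Topology Pool.Agent.Helper460.ProjFlow

section FromGroup

variable {n : ℕ}

lemma hom_mv (a : MvPolynomial (Fin n) ℂ) : ∃ (D : ℕ) (P : MvPolynomial (Fin (n + 1)) ℂ),
    ∀ (u : Fin n → ℂ) (w : ℂ), eval (w • extend u) P = w ^ D * eval u a := by
  induction a using MvPolynomial.induction_on with
  | C r => exact ⟨0, C r, fun u w => by simp⟩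
  | add a b ha hb =>
    obtain ⟨D1, P1, h1⟩ := ha
    obtain ⟨D2, P2, h2⟩ := hb
    refine ⟨D1 + D2, X (Fin.last n) ^ D2 * P1 + X (Fin.last n) ^ D1 * P2, fun u w => ?_⟩
    simp only [map_add, map_mul, map_pow, eval_X, h1, h2, Pi.smul_apply, smul_eq_mul, extend_last,
      mul_one]
    ring
  | mul_X a i ha =>
    obtain ⟨D1, P1, h1⟩ := ha
    refine ⟨D1 + 1, P1 * X i.castSucc, fun u w => ?_⟩
    simp only [map_mul, eval_X, h1, Pi.smul_apply, smul_eq_mul, extend_cast]
    ring

lemma hom_poly (p : Polynomial (MvPolynomial (Fin n) ℂ)) :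
    ∃ (D : ℕ) (P : MvPolynomial (Fin (n + 1)) ℂ),
    ∀ (u : Fin n → ℂ) (w : ℂ), eval (w • extend u) P = w ^ D * polyValue p u (w + 1) := by
  induction p using Polynomial.induction_on' with
  | add a b ha hb =>
    obtain ⟨D1, P1, h1⟩ := ha
    obtain ⟨D2, P2, h2⟩ := hb
    refine ⟨D1 + D2, X (Fin.last n) ^ D2 * P1 + X (Fin.last n) ^ D1 * P2, fun u w => ?_⟩
    simp only [map_add, map_mul, map_pow, eval_X, h1, h2, Pi.smul_apply, smul_eq_mul, extend_last,
      mul_one, polyValue, Polynomial.map_add, Polynomial.eval_add]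
    ring
  | monomial k a =>
    obtain ⟨D1, P1, h1⟩ := hom_mv a
    refine ⟨D1, P1 * (X (Fin.last n) + 1) ^ k, fun u w => ?_⟩
    simp only [map_add, map_mul, map_pow, eval_X, h1, Pi.smul_apply, smul_eq_mul, extend_last,
      mul_one, map_one, polyValue, Polynomial.map_monomial, Polynomial.eval_monomial]
    ring

lemma exists_defined {p : Polynomial (MvPolynomial (Fin n) ℂ)} (hp : p ≠ 0) :
    ∃ u t, t ≠ 0 ∧ t ≠ 1 ∧ polyValue p u t ≠ 0 := by
  have hlc : p.leadingCoeff ≠ 0 := Polynomial.leadingCoeff_ne_zero.mpr hp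
  obtain ⟨u, hu⟩ : ∃ u, eval u p.leadingCoeff ≠ 0 := by
    by_contra hcon
    push Not at hcon
    exact hlc (MvPolynomial.funext (fun x => by rw [hcon x, map_zero]))
  have hq : p.map (eval u) ≠ 0 := by
    intro h
    have := congrArg (fun q => q.coeff p.natDegree) h
    simp only [Polynomial.coeff_map, Polynomial.coeff_zero] at this
    exact hu this
  by_contra hcon
  push Not at hcon
  apply hq
  apply Polynomial.eq_zero_of_infinite_isRoot
  apply ((Set.toFinite ({0, 1} : Set ℂ)).infinite_compl).mono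
  intro t ht
  simp only [Set.mem_compl_iff, Set.mem_insert_iff, Set.mem_singleton_iff, not_or] at ht
  exact hcon u t ht.1 ht.2

lemma flowA (A : Family n) : ∃ f : RatMap (n + 1), (∀ (u : Fin n → ℂ) (w : ℂ), w ≠ 0 → w + 1 ≠ 0 →
    A.DefinedAt u (w + 1) → f.DefinedAt (w • extend u) ∧
      f.value (w • extend u) = (w / (w + 1)) • extend (A.value u (w + 1))) ∧ ¬ f.IsIdentity := by
  choose Dn Pn hPn using fun i => hom_poly (A.num i)
  obtain ⟨Dd, Pd, hPd⟩ := hom_poly A.den
  let E : ℕ := ∑ i, Dn i
  have hE : ∀ i, Dn i ≤ E := fun i => Finset.single_le_sum (f := Dn) (fun _ _ => Nat.zero_le _)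
    (Finset.mem_univ i)
  have hPd0 : Pd ≠ 0 := by
    intro h
    obtain ⟨u, t, _, ht1, ht⟩ := exists_defined A.den_ne_zero
    have h1 := hPd u (t - 1)
    rw [h, map_zero, sub_add_cancel] at h1
    exact mul_ne_zero (pow_ne_zero _ (sub_ne_zero.mpr ht1)) ht h1.symm
  have hX1 : (X (Fin.last n) + 1 : MvPolynomial (Fin (n + 1)) ℂ) ≠ 0 := by
    intro h
    have := congrArg (eval (fun _ => (0 : ℂ))) h
    simp at this
  have hX : (X (Fin.last n) : MvPolynomial (Fin (n + 1)) ℂ) ≠ 0 := MvPolynomial.X_ne_zero _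
  let f : RatMap (n + 1) := ⟨Fin.snoc (α := fun _ => MvPolynomial (Fin (n + 1)) ℂ)
    (fun i => X (Fin.last n) * (Pn i * X (Fin.last n) ^ (Dd + (E - Dn i))))
    (X (Fin.last n) * (Pd * X (Fin.last n) ^ E)), (X (Fin.last n) + 1) * (Pd * X (Fin.last n) ^ E),
    mul_ne_zero hX1 (mul_ne_zero hPd0 (pow_ne_zero _ hX))⟩
  have hn : ∀ i : Fin n, f.num i.castSucc
      = X (Fin.last n) * (Pn i * X (Fin.last n) ^ (Dd + (E - Dn i))) := fun i => by simp [f]
  have hl : f.num (Fin.last n) = X (Fin.last n) * (Pd * X (Fin.last n) ^ E) := by simp [f]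
  refine ⟨f, ?_, ?_⟩
  · intro u w hw hw1 hA
    have hA : polyValue A.den u (w + 1) ≠ 0 := hA
    have hd : eval (w • extend u) f.den = (w + 1) * (w ^ Dd * polyValue A.den u (w + 1) * w ^ E) := by
      show eval (w • extend u) ((X (Fin.last n) + 1) * (Pd * X (Fin.last n) ^ E)) = _
      simp only [map_add, map_mul, map_pow, eval_X, hPd, Pi.smul_apply, smul_eq_mul, extend_last,
        mul_one, map_one]
    refine ⟨?_, ?_⟩
    · show eval _ _ ≠ 0
      rw [hd]
      exact mul_ne_zero hw1 (mul_ne_zero (mul_ne_zero (pow_ne_zero _ hw) hA) (pow_ne_zero _ hw))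
    · funext i
      show eval (w • extend u) (f.num i) / eval (w • extend u) f.den = _
      rw [hd]
      induction i using Fin.lastCases with
      | last =>
        simp only [hl, map_mul, map_pow, eval_X, hPd, Pi.smul_apply, smul_eq_mul, extend_last,
          mul_one]
        field_simp
      | cast j =>
        simp only [hn, map_mul, map_pow, eval_X, hPn, Pi.smul_apply, smul_eq_mul, extend_last,
          extend_cast, mul_one, Family.value]
        have e1 : w ^ Dn j * w ^ (Dd + (E - Dn j)) = w ^ Dd * w ^ E := by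
          rw [← pow_add, ← pow_add]
          congr 1
          have := hE j
          omega
        rw [div_mul_div_comm, div_eq_div_iff (mul_ne_zero hw1 (mul_ne_zero (mul_ne_zero
          (pow_ne_zero _ hw) hA) (pow_ne_zero _ hw))) (mul_ne_zero hw1 hA)]
        linear_combination (w * polyValue (A.num j) u (w + 1) * (w + 1) *
          polyValue A.den u (w + 1)) * e1
  · intro hid
    have h1 := hid (Fin.last n)
    rw [hl] at h1
    have h1' : X (Fin.last n) * (Pd * X (Fin.last n) ^ E)
        = X (Fin.last n) * ((X (Fin.last n) + 1) * (Pd * X (Fin.last n) ^ E)) := h1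
    have h2 : (X (Fin.last n) * (Pd * X (Fin.last n) ^ E) : MvPolynomial (Fin (n + 1)) ℂ) * 1
        = (X (Fin.last n) * (Pd * X (Fin.last n) ^ E)) * (X (Fin.last n) + 1) := by
      linear_combination h1'
    have h3 := mul_left_cancel₀ (mul_ne_zero hX (mul_ne_zero hPd0 (pow_ne_zero _ hX))) h2
    have := congrArg (eval (fun _ => (1 : ℂ))) h3
    simp at this

lemma polyValue_continuous (p : Polynomial (MvPolynomial (Fin n) ℂ)) :
    Continuous fun q : (Fin n → ℂ) × ℂ => polyValue p q.1 q.2 := evz_continuous p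

theorem from_group (A : Family n) (hA : IsMultGroup A) :
    ∃ f : RatMap (n + 1), IsFlowOf A f ∧ IsFlow f ∧ ¬ f.IsIdentity := by
  obtain ⟨f, hf, hid⟩ := flowA A
  obtain ⟨⟨W, hWo, hWn, hW⟩, ⟨U, hUo, hUn, hU⟩⟩ := hA
  refine ⟨f, ?_, ⟨?_, ?_⟩, hid⟩
  · let O : Set ((Fin n → ℂ) × ℂ) := {v | v.2 ≠ 0 ∧ v.2 + 1 ≠ 0 ∧ polyValue A.den v.1 (v.2 + 1) ≠ 0}
    have hO : IsOpen O :=
      (isOpen_ne_fun continuous_snd continuous_const).inter
      ((isOpen_ne_fun (continuous_snd.add continuous_const) continuous_const).inter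
      (isOpen_ne_fun ((polyValue_continuous A.den).comp
        (continuous_fst.prodMk (continuous_snd.add continuous_const))) continuous_const))
    refine ⟨O, hO, ?_, ?_⟩
    · obtain ⟨u, t, ht0, ht1, ht⟩ := exists_defined A.den_ne_zero
      refine ⟨(u, t - 1), sub_ne_zero.mpr ht1, ?_, ?_⟩
      · show t - 1 + 1 ≠ 0
        rw [sub_add_cancel]; exact ht0
      · show polyValue A.den u (t - 1 + 1) ≠ 0
        rw [sub_add_cancel]; exact ht
    · rintro ⟨u, w⟩ ⟨h1, h2, h3⟩
      exact ⟨h1, h2, h3, hf u w h1 h2 h3⟩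
  · let D : Set ((Fin (n + 1) → ℂ) × ℂ) := {q | q.1 (Fin.last n) ≠ 0 ∧ q.1 (Fin.last n) + 1 ≠ 0 ∧
      q.2 ≠ 0 ∧ q.2 ≠ 1 ∧ q.2 * q.1 (Fin.last n) + 1 ≠ 0}
    have cl : Continuous fun q : (Fin (n + 1) → ℂ) × ℂ => q.1 (Fin.last n) :=
      (continuous_apply _).comp continuous_fst
    have hD : IsOpen D :=
      (isOpen_ne_fun cl continuous_const).inter
      ((isOpen_ne_fun (cl.add continuous_const) continuous_const).inter
      ((isOpen_ne_fun continuous_snd continuous_const).inter
      ((isOpen_ne_fun continuous_snd continuous_const).inter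
      (isOpen_ne_fun ((continuous_snd.mul cl).add continuous_const) continuous_const))))
    let Ψ : (Fin (n + 1) → ℂ) × ℂ → (Fin n → ℂ) × ℂ × ℂ := fun q =>
      ((fun j => q.1 j.castSucc / q.1 (Fin.last n)), (q.2 * q.1 (Fin.last n) + 1,
        (q.1 (Fin.last n) + 1) / (q.2 * q.1 (Fin.last n) + 1)))
    have hΨ : ContinuousOn Ψ D := by
      refine ContinuousOn.prodMk ?_ (ContinuousOn.prodMk ?_ ?_)
      · rw [continuousOn_pi]
        intro j
        exact (((continuous_apply _).comp continuous_fst).continuousOn).div cl.continuousOn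
          (fun q hq => hq.1)
      · exact ((continuous_snd.mul cl).add continuous_const).continuousOn
      · exact ((cl.add continuous_const).continuousOn).div
          ((continuous_snd.mul cl).add continuous_const).continuousOn (fun q hq => hq.2.2.2.2)
    refine ⟨D ∩ Ψ ⁻¹' W, hΨ.isOpen_inter_preimage hD hWo, ?_, ?_⟩
    · obtain ⟨⟨u, s0, t0⟩, h0⟩ := hWn
      obtain ⟨s, hs, hs0, hs1, _⟩ := countable_avoid {s | (u, s, t0) ∈ W}
        (hWo.preimage (by fun_prop)) ⟨s0, h0⟩ 0 1 0
      obtain ⟨t, ht, ht0, ht1, hst⟩ := countable_avoid {t | (u, s, t) ∈ W}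
        (hWo.preimage (by fun_prop)) ⟨t0, hs⟩ 0 1 s⁻¹
      have hw : s * t - 1 ≠ 0 := by
        intro h
        apply hst
        apply eq_inv_of_mul_eq_one_left
        rw [mul_comm]
        exact sub_eq_zero.mp h
      have hzw : (s - 1) / (s * t - 1) * (s * t - 1) = s - 1 := div_mul_cancel₀ _ hw
      refine ⟨((s * t - 1) • extend u, (s - 1) / (s * t - 1)), ?_, ?_⟩
      · show ((s * t - 1) • extend u) (Fin.last n) ≠ 0 ∧
          ((s * t - 1) • extend u) (Fin.last n) + 1 ≠ 0 ∧ (s - 1) / (s * t - 1) ≠ 0 ∧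
          (s - 1) / (s * t - 1) ≠ 1 ∧
          (s - 1) / (s * t - 1) * ((s * t - 1) • extend u) (Fin.last n) + 1 ≠ 0
        simp only [Pi.smul_apply, smul_eq_mul, extend_last, mul_one, hzw, sub_add_cancel]
        refine ⟨hw, mul_ne_zero hs0 ht0, div_ne_zero (sub_ne_zero.mpr hs1) hw, ?_, hs0⟩
        intro h
        rw [div_eq_one_iff_eq hw] at h
        have h2 : s * (t - 1) = 0 := by linear_combination -h
        rcases mul_eq_zero.mp h2 with h3 | h3
        · exact hs0 h3
        · exact ht1 (sub_eq_zero.mp h3)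
      · show ((fun j : Fin n => ((s * t - 1) • extend u) j.castSucc /
            ((s * t - 1) • extend u) (Fin.last n)),
          ((s - 1) / (s * t - 1) * ((s * t - 1) • extend u) (Fin.last n) + 1,
          (((s * t - 1) • extend u) (Fin.last n) + 1) /
          ((s - 1) / (s * t - 1) * ((s * t - 1) • extend u) (Fin.last n) + 1))) ∈ W
        simp only [Pi.smul_apply, smul_eq_mul, extend_last, extend_cast, mul_one, hzw,
          sub_add_cancel]
        have e1 : (fun j => (s * t - 1) * u j / (s * t - 1)) = u := by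
          funext j
          rw [mul_div_assoc, mul_div_cancel₀ _ hw]
        have e2 : s * t / s = t := by field_simp
        rw [e1, e2]
        exact ht
    · rintro ⟨x, z⟩ ⟨⟨hw, hw1, hz0, hz1, hzw⟩, hv⟩
      obtain ⟨a1, a2, a3, a4⟩ := hW _ hv
      simp only [Ψ] at a1 a2 a3 a4 hw hw1 hz0 hz1 hzw
      set w := x (Fin.last n) with hwdef
      set u : Fin n → ℂ := fun j => x j.castSucc / w with hu
      have hx : x = w • extend u := decomp x hw
      set s := z * w + 1 with hs
      set t := (w + 1) / s with ht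
      have hst : s * t = w + 1 := by rw [ht]; field_simp
      have ht0 : t ≠ 0 := div_ne_zero hw1 hzw
      have hzw' : z * w ≠ 0 := mul_ne_zero hz0 hw
      have ht1 : t - 1 ≠ 0 := by
        intro h
        have h1 : t = 1 := sub_eq_zero.mp h
        rw [h1, mul_one] at hst
        have h2 : (z - 1) * w = 0 := by linear_combination hst - hs
        rcases mul_eq_zero.mp h2 with h3 | h3
        · exact hz1 (sub_eq_zero.mp h3)
        · exact hw h3
      obtain ⟨b1, b2⟩ := hf u w hw hw1 (by rw [← hst]; exact a3)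
      obtain ⟨c1, c2⟩ := hf u (z * w) hzw' hzw a1
      obtain ⟨d1, d2⟩ := hf (A.value u s) (t - 1) ht1 (by rw [sub_add_cancel]; exact ht0)
        (by rw [sub_add_cancel]; exact a2)
      rw [sub_add_cancel] at d2
      have hzx : z • x = (z * w) • extend u := by rw [hx, smul_smul]
      have hy : ((1 - z) / z) • f.value (z • x) = (t - 1) • extend (A.value u s) := by
        rw [hzx, c2, smul_smul]
        congr 1
        have : s * (t - 1) = (1 - z) * w := by linear_combination hst - hs
        show (1 - z) / z * (z * w / s) = t - 1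
        field_simp
        linear_combination -this
      refine ⟨hz0, by rw [hx]; exact b1, by rw [hzx]; exact c1, by rw [hy]; exact d1, ?_⟩
      show (1 - z) • f.value x = f.value (((1 - z) / z) • f.value (z • x))
      rw [hy, d2, a4, hst]
      rw [hx, b2, smul_smul]
      congr 1
      have e3 : s * (t - 1) = (1 - z) * w := by linear_combination hst - hs
      have e4 : (1 - z) * (w / (w + 1)) = s * (t - 1) / (s * t) := by
        rw [e3, hst, mul_div_assoc]
      rw [e4, mul_div_mul_left _ _ hzw]
  · -- boundary condition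
    have hlc : A.den.leadingCoeff ≠ 0 := Polynomial.leadingCoeff_ne_zero.mpr A.den_ne_zero
    let D : Set (Fin (n + 1) → ℂ) := {x | x (Fin.last n) ≠ 0}
    have hD : IsOpen D := isOpen_ne_fun (continuous_apply _) continuous_const
    let ψ : (Fin (n + 1) → ℂ) → Fin n → ℂ := fun x j => x j.castSucc / x (Fin.last n)
    have hψ : ContinuousOn ψ D := by
      rw [continuousOn_pi]
      intro j
      exact (continuous_apply _).continuousOn.div (continuous_apply _).continuousOn (fun q hq => hq)
    let U' : Set (Fin n → ℂ) := U ∩ {u | eval u A.den.leadingCoeff ≠ 0}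
    have hU' : IsOpen U' := hUo.inter (isOpen_ne_fun (continuous_eval' _) continuous_const)
    obtain ⟨u0, hu0⟩ : ∃ u, u ∈ U' := by
      by_contra hcon
      push Not at hcon
      apply hlc
      apply zero_of_open _ U hUo hUn
      intro a ha
      by_contra h
      exact hcon a ⟨ha, h⟩
    refine ⟨D ∩ ψ ⁻¹' U', hψ.isOpen_inter_preimage hD hU', ⟨extend u0, ?_, ?_⟩, ?_⟩
    · show extend u0 (Fin.last n) ≠ 0
      rw [extend_last]; exact one_ne_zero
    · have : ψ (extend u0) = u0 := by
        funext j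
        show extend u0 j.castSucc / extend u0 (Fin.last n) = u0 j
        rw [extend_last, extend_cast, div_one]
      show ψ (extend u0) ∈ U'
      rw [this]; exact hu0
    · rintro x ⟨hw, hxU⟩
      have hw : x (Fin.last n) ≠ 0 := hw
      set w := x (Fin.last n) with hwdef
      set u : Fin n → ℂ := fun j => x j.castSucc / w with hu
      have hx : x = w • extend u := decomp x hw
      have huU : u ∈ U' := hxU
      have hlim := hU u huU.1
      have hsub0 : Tendsto (fun z : ℂ => z * w + 1) (𝓝[≠] 0) (𝓝 1) := by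
        have : Tendsto (fun z : ℂ => z * w + 1) (𝓝 0) (𝓝 (0 * w + 1)) :=
          ((continuous_id.mul continuous_const).add continuous_const).tendsto 0
        rw [zero_mul, zero_add] at this
        exact this.mono_left nhdsWithin_le_nhds
      have hsub : Tendsto (fun z : ℂ => z * w + 1) (𝓝[≠] 0) (𝓝[≠] 1) := by
        apply tendsto_nhdsWithin_of_tendsto_nhds_of_eventually_within _ hsub0
        filter_upwards [self_mem_nhdsWithin] with z hz
        intro h
        have h1 : z * w = 0 := by simpa using h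
        exact mul_ne_zero hz hw h1
      have hq : A.den.map (eval u) ≠ 0 := by
        intro h
        have := congrArg (fun q => q.coeff A.den.natDegree) h
        simp only [Polynomial.coeff_map, Polynomial.coeff_zero] at this
        exact huU.2 this
      have hdef : ∀ᶠ t in 𝓝[≠] (1 : ℂ), polyValue A.den u t ≠ 0 := by
        have hfin : ({t : ℂ | (A.den.map (eval u)).IsRoot t} \ {1}).Finite :=
          (Polynomial.finite_setOfPred_isRoot hq).subset (fun t ht => ht.1)
        have h1 : ∀ᶠ t in 𝓝 (1 : ℂ), t ∉ ({t : ℂ | (A.den.map (eval u)).IsRoot t} \ {1}) :=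
          hfin.isClosed.isOpen_compl.mem_nhds (by simp)
        filter_upwards [h1.filter_mono nhdsWithin_le_nhds, self_mem_nhdsWithin] with t ht ht1 h0
        exact ht ⟨h0, ht1⟩
      have h1 : Tendsto (fun z : ℂ => (w / (z * w + 1)) • extend (A.value u (z * w + 1)))
          (𝓝[≠] 0) (𝓝 ((w / 1) • extend u)) :=
        (tendsto_const_nhds.div hsub0 one_ne_zero).smul
          ((continuous_extend.tendsto u).comp (hlim.comp hsub))
      rw [div_one, ← hx] at h1
      refine h1.congr' ?_
      filter_upwards [hsub.eventually hdef, self_mem_nhdsWithin,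
        hsub0.eventually_ne one_ne_zero] with z hz1 hz2 hz3
      have hz2 : z ≠ 0 := hz2
      obtain ⟨_, c2⟩ := hf u (z * w) (mul_ne_zero hz2 hw) hz3 hz1
      have hzx : z • x = (z * w) • extend u := by rw [hx, smul_smul]
      rw [hzx, c2, smul_smul]
      congr 1
      field_simp

end FromGroup

end Pool.Agent.Helper460.Flow
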