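import Pool.Agent.Helper460.Lst3

set_option autoImplicit false
set_option linter.unusedSectionVars false

namespace Pool.Agent.Helper460.Flow

open MvPolynomial Filter Topology Pool.Agent.Helper460.ProjFlow

theorem list_complete {n : ℕ} (g : RatMap (n + 1)) (hg : IsFlow g) (hg' : ¬ g.IsIdentity) :
    ∃ (A : Family n) (f : RatMap (n + 1)), IsMultGroup A ∧ IsFlowOf A f ∧ IsFlow f ∧
      ¬ f.IsIdentity ∧ Conjugate g f := by
  obtain ⟨τ, hτ⟩ := exists_scal (n + 1)
  obtain ⟨f, σ, hσ, hf, hf', hc, hw⟩ := normalize g hg hg' hτ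
  have hLQ : f.num (Fin.last n) * (X (Fin.last n) + 1) = X (Fin.last n) * f.den := by
    have h1 : co f (Fin.last n) = xx (n + 1) (RatFun (n + 1)) (Fin.last n) /
        (xx (n + 1) (RatFun (n + 1)) (Fin.last n) + 1) := by rw [← hσ]; exact hw
    have hX1 : (X (Fin.last n) + 1 : MvPolynomial (Fin (n + 1)) ℂ) ≠ 0 := by
      intro h
      have := congrArg (eval (fun _ => (0 : ℂ))) h
      simp at this
    have h2 : xx (n + 1) (RatFun (n + 1)) (Fin.last n) + 1
        = algebraMap (MvPolynomial (Fin (n + 1)) ℂ) (RatFun (n + 1)) (X (Fin.last n) + 1) := by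
      rw [map_add, map_one]; rfl
    rw [h2, co, xx, div_eq_div_iff (am_ne f.den_ne_zero) (am_ne hX1), ← map_mul, ← map_mul] at h1
    exact IsFractionRing.injective (MvPolynomial (Fin (n + 1)) ℂ) (RatFun (n + 1)) h1
  obtain ⟨A, hA, hAf⟩ := to_group f hf hLQ
  exact ⟨A, f, hA, hAf, hf, hf', hc⟩

end Pool.Agent.Helper460.Flow
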